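import Pool.Agent.Q1.BD.Coset
import Pool.Agent.Y455.ST.Theta

/-!
One closed set and one bound for all families of points of bounded degree given by iterated
recurrences of bounded complexity.
-/

set_option autoImplicit false

namespace Pool.Agent.Q1.BD

open Polynomial Filter Pool.Agent.Y377.IL Pool.Agent.Y377.IR Pool.Agent.Y377.ST IntermediateField

/-- The variety with the ideal `I` is covered by curves of gonality at most `d`: there are a field
`M` containing `k` and a point `y` of the variety over an extension `M(t)(θ)` of degree at most `d`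
of the field `M(t)`, which is generic (the forms over `k` which vanish at `y` are those in `I`) and
not constant (some ratio of coordinates is not algebraic over `M`). -/
def Covered {k : Type} [Field k] {n : ℕ} (I : Ideal (MvPolynomial (Fin (n + 1)) k)) (d : ℕ) :
    Prop :=
  ∃ (M : Type) (_ : Field M) (_ : Algebra k M) (θ : AlgebraicClosure (RatFunc M))
    (y : Fin (n + 1) → AlgebraicClosure (RatFunc M)),
    (minpoly (RatFunc M) θ).natDegree ≤ d ∧ (∀ u, y u ∈ (RatFunc M)⟮θ⟯) ∧
    (∀ G : MvPolynomial (Fin (n + 1)) k, (∃ e, G.IsHomogeneous e) →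
      (MvPolynomial.aeval y G = 0 ↔ G ∈ I)) ∧
    ∃ u v, y v ≠ 0 ∧ ¬ IsAlgebraic M (y u / y v)

/-- The components of the vectors `x(h)` are the values of polynomials of degree at most `e` in
each variable at the entries of `X_1(h), X_1(h)⁻¹, ..., X_s(h), X_s(h)⁻¹`, for matrices `X_l` of
size `r` as in `Iter`. -/
def IterFam {L H ι : Type} [CommRing L] [Group H] (s r e : ℕ) (x : H → ι → L) : Prop :=
  ∃ X Y : Fin s → H → Matrix (Fin r) (Fin r) L, Iter e X Y ∧
    ∀ j, ∃ c : (Ix s r → Fin (e + 1)) → L, ∀ h, x h j = pev c (entries X Y h)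

/-- the vector over the algebraic closure -/
noncomputable def bar {L ι : Type} [Field L] (v : ι → L) : ι → AlgebraicClosure L :=
  fun q => algebraMap L (AlgebraicClosure L) (v q)

/-- The points outside of `G = 0` with the homogeneous coordinates `Num (x h) α`, `α` a root of
`Pol (x h)`. -/
def rootPts {k L H : Type} [Field k] [Field L] [Algebra k L] {n d : ℕ}
    (G : MvPolynomial (Fin (n + 1)) k) (x : H → Jx n d → L) :
    Set (Projectivization (AlgebraicClosure L) (Fin (n + 1) → AlgebraicClosure L)) :=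
  {P | ∃ (h : H) (α : AlgebraicClosure L) (h0 : Num (bar (x h)) α ≠ 0),
    (Pol (bar (x h))).eval α = 0 ∧ MvPolynomial.aeval (Num (bar (x h)) α) G ≠ 0 ∧
    P = Projectivization.mk (AlgebraicClosure L) (Num (bar (x h)) α) h0}

theorem IterFam.vec {L H ι : Type} [CommRing L] [Group H] [Fintype ι] {s r e : ℕ} {x : H → ι → L}
    (hx : IterFam s r e x) : IterVec s r e fun h (j : Fin (Fintype.card ι)) =>
      x h ((Fintype.equivFin ι).symm j) := by
  obtain ⟨X, Y, hX, hc⟩ := hx
  exact ⟨X, Y, hX, fun j => hc _⟩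

theorem eval_pol_map {A B : Type} [CommRing A] [CommRing B] {n d : ℕ} (φ : A →+* B)
    (v : Jx n d → A) (α : A) : (Pol fun q => φ (v q)).eval (φ α) = φ ((Pol v).eval α) := by
  rw [← pol_map, eval_map, eval₂_at_apply]

theorem exists_seqR {k : Type} [Field k] {n d s r e : ℕ}
    {FF : Set (MvPolynomial (Fin (n + 1)) k)} {G : MvPolynomial (Fin (n + 1)) k}
    {L : Type} [Field L] [Algebra k L] (τ : L →+* ℂ) {H : Type} [Group H] {x : H → Jx n d → L}
    (hx : IterFam s r e x)
    (hF : ∀ h α, (Pol (bar (x h))).eval α = 0 → ∀ F ∈ FF,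
      MvPolynomial.aeval (Num (bar (x h)) α) F = 0) {B : ℕ}
    (hB : ¬ (rootPts G x).encard ≤ (B : ℕ∞)) :
    ∃ (σ : k →+* ℂ) (H : Type) (_ : Group H) (z : H → Fin (Fintype.card (Jx n d)) → ℂ),
      IterVec s r e z ∧
      (∀ h α, (Pol fun q => z h (Fintype.equivFin _ q)).eval α = 0 → ∀ F ∈ FF,
        MvPolynomial.eval₂ σ (Num (fun q => z h (Fintype.equivFin _ q)) α) F = 0) ∧
      ∃ (hs : ℕ → H) (as : ℕ → ℂ),
        (∀ i, (Pol fun q => z (hs i) (Fintype.equivFin _ q)).eval (as i) = 0) ∧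
        (∀ i, Num (fun q => z (hs i) (Fintype.equivFin _ q)) (as i) ≠ 0) ∧
        (∀ i, MvPolynomial.eval₂ σ (Num (fun q => z (hs i) (Fintype.equivFin _ q)) (as i)) G ≠ 0) ∧
        ∀ i j, i ≤ B → j ≤ B → i ≠ j → ∃ u v,
          Num (fun q => z (hs i) (Fintype.equivFin _ q)) (as i) u *
            Num (fun q => z (hs j) (Fintype.equivFin _ q)) (as j) v ≠
          Num (fun q => z (hs i) (Fintype.equivFin _ q)) (as i) v *
            Num (fun q => z (hs j) (Fintype.equivFin _ q)) (as j) u := by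
  classical
  let iL : Algebra L ℂ := τ.toAlgebra
  let τ' : AlgebraicClosure L →ₐ[L] ℂ := IsAlgClosed.lift
  have hτ : ∀ c : L, τ' (algebraMap L _ c) = τ c := fun c => τ'.commutes c
  let z : H → Fin (Fintype.card (Jx n d)) → ℂ := fun h j => τ (x h ((Fintype.equivFin _).symm j))
  have hz : ∀ h, (fun q => z h (Fintype.equivFin _ q)) =
      fun q => (τ' : AlgebraicClosure L →+* ℂ) (bar (x h) q) := by
    intro h
    funext q
    change τ (x h ((Fintype.equivFin _).symm (Fintype.equivFin _ q))) = _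
    rw [Equiv.symm_apply_apply]
    exact (hτ _).symm
  have hnum : ∀ h α j, Num (fun q => z h (Fintype.equivFin _ q)) (τ' α) j =
      τ' (Num (bar (x h)) α j) := by
    intro h α j
    rw [hz h]
    exact num_map (τ' : AlgebraicClosure L →+* ℂ) (bar (x h)) α j
  have hpol : ∀ h α, (Pol fun q => z h (Fintype.equivFin _ q)).eval (τ' α) =
      τ' ((Pol (bar (x h))).eval α) := by
    intro h α
    rw [hz h]
    exact eval_pol_map (τ' : AlgebraicClosure L →+* ℂ) (bar (x h)) α
  have hev : ∀ h α F, MvPolynomial.eval₂ (τ.comp (algebraMap k L))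
      (Num (fun q => z h (Fintype.equivFin _ q)) (τ' α)) F =
      τ' (MvPolynomial.aeval (Num (bar (x h)) α) F) := by
    intro h α F
    have h1 := MvPolynomial.eval₂_comp_left (τ' : AlgebraicClosure L →+* ℂ)
      (algebraMap k (AlgebraicClosure L)) (Num (bar (x h)) α) F
    refine Eq.trans ?_ h1.symm
    congr 1
    · ext c
      change _ = τ' (algebraMap k (AlgebraicClosure L) c)
      rw [IsScalarTower.algebraMap_apply k L (AlgebraicClosure L), hτ]
      rfl
    · funext j
      exact hnum h α j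
  have hroots : ∀ h (α : ℂ), (Pol fun q => z h (Fintype.equivFin _ q)).eval α = 0 →
      ∃ α0, α = τ' α0 ∧ (Pol (bar (x h))).eval α0 = 0 := by
    intro h α hα
    obtain ⟨β, hβ⟩ := exists_roots (bar (x h))
    have h1 := pol_map (τ' : AlgebraicClosure L →+* ℂ) (bar (x h))
    rw [← hz h] at h1
    rw [← h1, hβ, Polynomial.map_prod, eval_prod] at hα
    obtain ⟨j, -, hj⟩ := Finset.prod_eq_zero_iff.1 hα
    rw [Polynomial.map_sub, map_X, map_C, eval_sub, eval_X, eval_C] at hj
    refine ⟨β j, sub_eq_zero.1 hj, ?_⟩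
    rw [hβ, eval_prod]
    exact Finset.prod_eq_zero (Finset.mem_univ j) (by simp)
  have h1 : ((B + 1 : ℕ) : ℕ∞) ≤ (rootPts G x).encard := by
    rw [Nat.cast_add, Nat.cast_one]
    exact Order.add_one_le_of_lt (not_le.1 hB)
  obtain ⟨t, hts, htc⟩ := Set.exists_subset_encard_eq h1
  have htf : t.Finite := Set.finite_of_encard_eq_coe htc
  have hcard : htf.toFinset.card = B + 1 := by
    have h2 := htf.encard_eq_coe_toFinset_card
    rw [htc] at h2
    exact_mod_cast h2.symm
  let P : Fin (B + 1) ≃ htf.toFinset := (Finset.equivFinOfCardEq hcard).symm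
  have hP : ∀ i : Fin (B + 1), ((P i : htf.toFinset) :
      Projectivization (AlgebraicClosure L) (Fin (n + 1) → AlgebraicClosure L)) ∈ rootPts G x :=
    fun i => hts (htf.mem_toFinset.1 (P i).2)
  choose hs0 as0 h0 hr0 hG0 hPe using hP
  let c : ℕ → Fin (B + 1) := fun i => if hi : i < B + 1 then ⟨i, hi⟩ else 0
  refine ⟨τ.comp (algebraMap k L), H, inferInstance, z, ?_, ?_, fun i => hs0 (c i),
    fun i => τ' (as0 (c i)), ?_, ?_, ?_, ?_⟩
  · exact (hx.vec).map τ
  · intro h α hα F hFF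
    obtain ⟨α0, rfl, hα0⟩ := hroots h α hα
    rw [hev, hF h α0 hα0 F hFF, map_zero]
  · intro i
    rw [hpol, hr0, map_zero]
  · intro i h2
    apply h0 (c i)
    funext j
    have h3 := congrFun h2 j
    rw [hnum] at h3
    exact (map_eq_zero τ').1 h3
  · intro i h2
    apply hG0 (c i)
    rw [hev] at h2
    exact (map_eq_zero τ').1 h2
  · intro i j hi hj hij
    have hci : c i = ⟨i, by omega⟩ := dif_pos (by omega)
    have hcj : c j = ⟨j, by omega⟩ := dif_pos (by omega)
    have hcij : c i ≠ c j := by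
      rw [hci, hcj]
      intro h2
      exact hij (Fin.mk.inj_iff.1 h2)
    by_contra hcon
    push Not at hcon
    apply hcij
    apply P.injective
    apply Subtype.ext
    rw [hPe (c i), hPe (c j), Projectivization.mk_eq_mk_iff']
    obtain ⟨v0, hv0⟩ := Function.ne_iff.1 (h0 (c j))
    have hv0' : Num (bar (x (hs0 (c j)))) (as0 (c j)) v0 ≠ 0 := hv0
    refine ⟨Num (bar (x (hs0 (c i)))) (as0 (c i)) v0 /
      Num (bar (x (hs0 (c j)))) (as0 (c j)) v0, ?_⟩
    funext u
    rw [Pi.smul_apply, smul_eq_mul]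
    have h2 := hcon u v0
    rw [hnum, hnum, hnum, hnum, ← map_mul, ← map_mul] at h2
    have h3 := (τ' : AlgebraicClosure L →+* ℂ).injective h2
    rw [div_mul_eq_mul_div, ← h3, mul_div_assoc, div_self hv0', mul_one]

/-- **One closed set and one bound for points of bounded degree.** -/
theorem strong_bd {k : Type} [Field k] [Countable k] {n : ℕ}
    (FF : Set (MvPolynomial (Fin (n + 1)) k)) (hhom : ∀ F ∈ FF, ∃ e, F.IsHomogeneous e)
    (hprime : (Ideal.span FF).IsPrime) (d : ℕ) (hnu : ¬ Covered (Ideal.span FF) d) (s r e : ℕ) :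
    ∃ G : MvPolynomial (Fin (n + 1)) k, (∃ d, G.IsHomogeneous d) ∧ G ∉ Ideal.span FF ∧
      ∃ B : ℕ, ∀ (L : Type) [Field L] [Algebra k L] (_ : L →+* ℂ) (H : Type) [Group H]
        (x : H → Jx n d → L), IterFam s r e x →
        (∀ h α, (Pol (bar (x h))).eval α = 0 → ∀ F ∈ FF,
          MvPolynomial.aeval (Num (bar (x h)) α) F = 0) →
        (rootPts G x).encard ≤ (B : ℕ∞) := by
  classical
  by_contra hcon
  have hC : ∀ (G : MvPolynomial (Fin (n + 1)) k) (B : ℕ), (∃ d, G.IsHomogeneous d) →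
      G ∉ Ideal.span FF →
      ∃ (σ : k →+* ℂ) (H : Type) (_ : Group H) (z : H → Fin (Fintype.card (Jx n d)) → ℂ),
      IterVec s r e z ∧
      (∀ h α, (Pol fun q => z h (Fintype.equivFin _ q)).eval α = 0 → ∀ F ∈ FF,
        MvPolynomial.eval₂ σ (Num (fun q => z h (Fintype.equivFin _ q)) α) F = 0) ∧
      ∃ (hs : ℕ → H) (as : ℕ → ℂ),
        (∀ i, (Pol fun q => z (hs i) (Fintype.equivFin _ q)).eval (as i) = 0) ∧
        (∀ i, Num (fun q => z (hs i) (Fintype.equivFin _ q)) (as i) ≠ 0) ∧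
        (∀ i, MvPolynomial.eval₂ σ (Num (fun q => z (hs i) (Fintype.equivFin _ q)) (as i)) G ≠ 0) ∧
        ∀ i j, i ≤ B → j ≤ B → i ≠ j → ∃ u v,
          Num (fun q => z (hs i) (Fintype.equivFin _ q)) (as i) u *
            Num (fun q => z (hs j) (Fintype.equivFin _ q)) (as j) v ≠
          Num (fun q => z (hs i) (Fintype.equivFin _ q)) (as i) v *
            Num (fun q => z (hs j) (Fintype.equivFin _ q)) (as j) u := by
    intro G B hG1 hG2
    by_contra h1
    refine hcon ⟨G, hG1, hG2, B, ?_⟩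
    intro L _ _ τ H _ x hx hF
    by_contra h2
    exact h1 (exists_seqR τ hx hF h2)
  -- an enumeration of the forms
  let S : Type := {G : MvPolynomial (Fin (n + 1)) k // (∃ d, G.IsHomogeneous d) ∧
    G ∉ Ideal.span FF}
  have hcs : Countable (MvPolynomial (Fin (n + 1)) k) := by
    rw [← Cardinal.mk_le_aleph0_iff]
    refine MvPolynomial.cardinalMk_le_max.trans ?_
    exact max_le (max_le (Cardinal.mk_le_aleph0_iff.2 inferInstance)
      (Cardinal.mk_le_aleph0_iff.2 inferInstance)) le_rfl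
  have hne : Nonempty S := ⟨⟨1, ⟨0, MvPolynomial.isHomogeneous_one _ _⟩,
    fun h1 => hprime.ne_top ((Ideal.eq_top_iff_one _).2 h1)⟩⟩
  obtain ⟨en, hen⟩ := exists_surjective_nat S
  let Q : ℕ → MvPolynomial (Fin (n + 1)) k := fun i => ∏ j ∈ Finset.range (i + 1), (en j).1
  have hQ1 : ∀ i, ∃ d, (Q i).IsHomogeneous d := by
    intro i
    choose d hd using fun j => (en j).2.1
    exact ⟨_, MvPolynomial.IsHomogeneous.prod _ _ d fun j _ => hd j⟩
  have hQ2 : ∀ i, Q i ∉ Ideal.span FF := by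
    intro i h1
    obtain ⟨j, -, hj⟩ := (hprime.prod_mem_iff).1 h1
    exact (en j).2.2 hj
  choose σ Hs iH z hz hF hs as hrt h0 hG hnp using fun i => hC (Q i) i (hQ1 i) (hQ2 i)
  obtain ⟨Θ, hΘ⟩ := Pool.Agent.Y455.ST.t_THETA
  let σs : k →+* ℂ := Θ.comp (RingHom.pi σ)
  let zs : (∀ i, Hs i) → Fin (Fintype.card (Jx n d)) → ℂ := fun h j => Θ fun i => z i (h i) j
  have hzs : IterVec s r e zs := (IterVec.prod hz).map Θ
  let X : ∀ i, Hs i → Jx n d → ℂ := fun i h q => z i h (Fintype.equivFin _ q)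
  let xs : (∀ i, Hs i) → Jx n d → ℂ := fun h q => Θ fun i => X i (h i) q
  have key : ∀ (F : MvPolynomial (Fin (n + 1)) k) (w : ℕ → Fin (n + 1) → ℂ),
      MvPolynomial.eval₂ σs (fun u => Θ fun i => w i u) F =
        Θ fun i => MvPolynomial.eval₂ (σ i) (w i) F := by
    intro F w
    have h1 := MvPolynomial.eval₂_comp_left Θ (RingHom.pi σ) (fun u i => w i u) F
    have h2 : MvPolynomial.eval₂ (RingHom.pi σ) (fun u i => w i u) F =
        fun i => MvPolynomial.eval₂ (σ i) (w i) F := by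
      funext i
      exact MvPolynomial.eval₂_comp_left (Pi.evalRingHom (fun _ : ℕ => ℂ) i) (RingHom.pi σ)
        (fun u i => w i u) F
    rw [h2] at h1
    exact h1.symm
  have hnumS : ∀ (h : ∀ i, Hs i) (b : ℕ → ℂ) u, Num (xs h) (Θ b) u =
      Θ fun i => Num (X i (h i)) (b i) u := by
    intro h b u
    have h1 := num_map Θ (fun q i => X i (h i) q) b u
    refine h1.trans ?_
    congr 1
    funext i
    exact (num_map (Pi.evalRingHom (fun _ : ℕ => ℂ) i) (fun q i => X i (h i) q) b u).symm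
  have hpolS : ∀ (h : ∀ i, Hs i) (b : ℕ → ℂ), (Pol (xs h)).eval (Θ b) =
      Θ fun i => (Pol (X i (h i))).eval (b i) := by
    intro h b
    have h1 := eval_pol_map Θ (fun q i => X i (h i) q) b
    refine h1.trans ?_
    congr 1
    funext i
    exact (eval_pol_map (Pi.evalRingHom (fun _ : ℕ => ℂ) i) (fun q i => X i (h i) q) b).symm
  have hrootS : ∀ (h : ∀ i, Hs i) (α : ℂ), (Pol (xs h)).eval α = 0 → ∃ b : ℕ → ℂ, α = Θ b ∧
      ∀ i, (Pol (X i (h i))).eval (b i) = 0 := by
    intro h α hα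
    choose β hβ using fun i => exists_roots (X i (h i))
    have h1 : Pol (fun q i => X i (h i) q) =
        ∏ j, (Polynomial.X - C (fun i => β i j) : (ℕ → ℂ)[X]) := by
      ext m i
      have h2 := congrArg (fun p => p.coeff m) (hβ i)
      have h3 := pol_map (Pi.evalRingHom (fun _ : ℕ => ℂ) i) (fun q i => X i (h i) q)
      have h4 : (Pol (fun q i => X i (h i) q)).coeff m i = (Pol (X i (h i))).coeff m := by
        have h5 := congrArg (fun p => p.coeff m) h3
        simp only [coeff_map] at h5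
        exact h5
      have h6 : (∏ j, (Polynomial.X - C (fun i => β i j) : (ℕ → ℂ)[X])).coeff m i =
          (∏ j, (Polynomial.X - C (β i j))).coeff m := by
        have h7 : (∏ j, (Polynomial.X - C (fun i => β i j) : (ℕ → ℂ)[X])).map
            (Pi.evalRingHom (fun _ : ℕ => ℂ) i) = ∏ j, (Polynomial.X - C (β i j)) := by
          rw [Polynomial.map_prod]
          refine Finset.prod_congr rfl fun j _ => ?_
          rw [Polynomial.map_sub, map_X, map_C]
          rfl
        have h8 := congrArg (fun p => p.coeff m) h7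
        simp only [coeff_map] at h8
        exact h8
      rw [h4, h6]
      exact h2
    have h2 := pol_map Θ (fun q i => X i (h i) q)
    rw [h1] at h2
    have h3 : (Pol (xs h)).eval α = ∏ j, (α - Θ fun i => β i j) := by
      have h4 : Pol (xs h) = Pol (fun q => Θ fun i => X i (h i) q) := rfl
      rw [h4, ← h2, Polynomial.map_prod, eval_prod]
      refine Finset.prod_congr rfl fun j _ => ?_
      rw [Polynomial.map_sub, map_X, map_C, eval_sub, eval_X, eval_C]
    rw [h3] at hα
    obtain ⟨j, -, hj⟩ := Finset.prod_eq_zero_iff.1 hα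
    refine ⟨fun i => β i j, sub_eq_zero.1 hj, fun i => ?_⟩
    rw [hβ i, eval_prod]
    exact Finset.prod_eq_zero (Finset.mem_univ j) (by simp)
  let a : ℕ → ∀ i, Hs i := fun m i => hs i m
  let al : ℕ → ℂ := fun m => Θ fun i => as i m
  have hzero : ∀ F ∈ FF, ∀ h α, (Pol (xs h)).eval α = 0 →
      MvPolynomial.eval₂ σs (Num (xs h) α) F = 0 := by
    intro F hFF h α hα
    obtain ⟨b, rfl, hb⟩ := hrootS h α hα
    have h1 : Num (xs h) (Θ b) = fun u => Θ fun i => Num (X i (h i)) (b i) u :=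
      funext fun u => hnumS h b u
    rw [h1, key]
    have h2 : (fun i => MvPolynomial.eval₂ (σ i) (Num (X i (h i)) (b i)) F) = 0 :=
      funext fun i => hF i (h i) (b i) (hb i) F hFF
    rw [h2, map_zero]
  have hrootA : ∀ m, (Pol (xs (a m))).eval (al m) = 0 := by
    intro m
    rw [hpolS]
    have h2 : (fun i => (Pol (X i (a m i))).eval (as i m)) = 0 := funext fun i => hrt i m
    rw [h2, map_zero]
  have hnumA : ∀ m, Num (xs (a m)) (al m) =
      fun u => Θ fun i => Num (X i (hs i m)) (as i m) u := fun m => funext fun u => hnumS _ _ u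
  have hnz : ∀ G : MvPolynomial (Fin (n + 1)) k, (∃ d, G.IsHomogeneous d) →
      G ∉ Ideal.span FF → ∀ m, MvPolynomial.eval₂ σs (Num (xs (a m)) (al m)) G ≠ 0 := by
    intro G hG1 hG2 m
    obtain ⟨j, hj⟩ := hen ⟨G, hG1, hG2⟩
    rw [hnumA, key]
    have h6 : ∀ i, j ≤ i →
        MvPolynomial.eval₂ (σ i) (Num (X i (hs i m)) (as i m)) G ≠ 0 := by
      intro i hi h5
      have h4 : (en j).1 ∣ Q i := Finset.dvd_prod_of_mem (fun j => (en j).1)
        (Finset.mem_range.2 (by omega))
      rw [hj] at h4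
      obtain ⟨G', hG'⟩ := h4
      apply hG i m
      change MvPolynomial.eval₂ (σ i) (Num (X i (hs i m)) (as i m)) (Q i) = 0
      rw [hG', MvPolynomial.eval₂_mul, h5, zero_mul]
    obtain ⟨-, h1⟩ := theta_ne hΘ
      (fun _ : Unit => fun i => MvPolynomial.eval₂ (σ i) (Num (X i (hs i m)) (as i m)) G) j
      (fun i hi => ⟨(), h6 i hi⟩)
    exact h1
  have hxne : ∀ m, Num (xs (a m)) (al m) ≠ 0 := fun m => by
    obtain ⟨l, hl⟩ := theta_ne hΘ (fun l i => Num (X i (hs i m)) (as i m) l) 0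
      fun i _ => Function.ne_iff.1 (h0 i m)
    refine Function.ne_iff.2 ⟨l, ?_⟩
    rw [hnumA]
    exact hl
  have hcross : ∀ m m', m ≠ m' → ∃ u v,
      Num (xs (a m)) (al m) u * Num (xs (a m')) (al m') v ≠
        Num (xs (a m)) (al m) v * Num (xs (a m')) (al m') u := by
    intro m m' hmm
    obtain ⟨⟨u, v⟩, h1⟩ := theta_ne hΘ (fun (p : Fin (n + 1) × Fin (n + 1)) i =>
      Num (X i (hs i m)) (as i m) p.1 * Num (X i (hs i m')) (as i m') p.2 -
        Num (X i (hs i m)) (as i m) p.2 * Num (X i (hs i m')) (as i m') p.1) (max m m')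
      (fun i hi => by
        obtain ⟨u, v, h1⟩ := hnp i m m' ((le_max_left _ _).trans hi)
          ((le_max_right _ _).trans hi) hmm
        exact ⟨(u, v), sub_ne_zero.2 h1⟩)
    refine ⟨u, v, fun h2 => h1 ?_⟩
    rw [hnumA, hnumA] at h2
    have h3 : (fun i => Num (X i (hs i m)) (as i m) u * Num (X i (hs i m')) (as i m') v -
        Num (X i (hs i m)) (as i m) v * Num (X i (hs i m')) (as i m') u) =
        (fun i => Num (X i (hs i m)) (as i m) u) * (fun i => Num (X i (hs i m')) (as i m') v) -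
          (fun i => Num (X i (hs i m)) (as i m) v) *
            (fun i => Num (X i (hs i m')) (as i m') u) := rfl
    change Θ (fun i => Num (X i (hs i m)) (as i m) u * Num (X i (hs i m')) (as i m') v -
        Num (X i (hs i m)) (as i m) v * Num (X i (hs i m')) (as i m') u) = 0
    rw [h3, map_sub, map_mul, map_mul]
    exact sub_eq_zero.2 h2
  -- the coset
  obtain ⟨R, hR, hmem⟩ := hzs.tow
  obtain ⟨Nn, hn, hfi, hres⟩ := exists_res fhyp hR
  have hq : Finite ((∀ i, Hs i) ⧸ Nn) := inferInstance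
  obtain ⟨y0, hy0⟩ := Finite.exists_infinite_fiber
    fun m : ℕ => (QuotientGroup.mk (a m) : (∀ i, Hs i) ⧸ Nn)
  let T : Set ℕ := (fun m : ℕ => (QuotientGroup.mk (a m) : (∀ i, Hs i) ⧸ Nn)) ⁻¹' {y0}
  have hT : T.Infinite := Set.infinite_coe_iff.1 hy0
  obtain ⟨m0, hm0⟩ := hT.nonempty
  have hco : ∀ m ∈ T, a m * (a m0)⁻¹ ∈ Nn := by
    intro m hm
    have h1 : (QuotientGroup.mk (a m0) : (∀ i, Hs i) ⧸ Nn) = QuotientGroup.mk (a m) :=
      (Set.mem_singleton_iff.1 hm0).trans (Set.mem_singleton_iff.1 hm).symm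
    exact hn.mem_comm (QuotientGroup.eq.1 h1)
  obtain ⟨K, i1, i2, Γ, ρ, hρ⟩ := hres (a m0)
  have hEng : Eng ρ.range := fun t ht hne => coset_alt hyp ghyp hρ t ht hne
  obtain ⟨E, j1, j2, y, v, hyv, ⟨⟨M, l1, l2, y', θ', hθi, hθd, hyθ, hrel, u, hu⟩⟩, hFq, hGq⟩ :=
    coset_pt (x := xs) (fun q => hmem _) hρ hEng a al T hT hco (fun m _ => hrootA m)
      (fun m _ => hxne m) (fun m _ m' _ hmm => hcross m m' hmm)
      {G' | ∃ G : MvPolynomial (Fin (n + 1)) k, (∃ d, G.IsHomogeneous d) ∧ G ∉ Ideal.span FF ∧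
        G' = MvPolynomial.map σs G} (by
        rintro _ ⟨G, hG1, hG2, rfl⟩ m _
        rw [MvPolynomial.eval_map]
        exact hnz G hG1 hG2 m)
  apply hnu
  let iM : Algebra k M := ((algebraMap ℂ M).comp σs).toAlgebra
  have hal : algebraMap k (AlgebraicClosure (RatFunc M)) =
      (algebraMap ℂ (AlgebraicClosure (RatFunc M))).comp σs := by
    ext c
    rw [IsScalarTower.algebraMap_apply k (RatFunc M) (AlgebraicClosure (RatFunc M)),
      IsScalarTower.algebraMap_apply k M (RatFunc M), RingHom.comp_apply,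
      IsScalarTower.algebraMap_apply ℂ (RatFunc M) (AlgebraicClosure (RatFunc M)),
      IsScalarTower.algebraMap_apply ℂ M (RatFunc M)]
    rfl
  have hae : ∀ F : MvPolynomial (Fin (n + 1)) k, MvPolynomial.aeval y' F =
      MvPolynomial.aeval y' (MvPolynomial.map σs F) := by
    intro F
    rw [MvPolynomial.aeval_def, MvPolynomial.aeval_def, MvPolynomial.eval₂_map, hal]
  have hF0 : ∀ F ∈ FF, MvPolynomial.aeval y' F = 0 := by
    intro F hFF
    obtain ⟨e', he'⟩ := hhom F hFF
    rw [hae, hrel]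
    refine hFq _ e' (he'.map σs) fun h α _ hα => ?_
    rw [MvPolynomial.eval_map]
    exact hzero F hFF h α hα
  have hI0 : ∀ F ∈ Ideal.span FF, MvPolynomial.aeval y' F = 0 := by
    intro F hFI
    have h1 : Ideal.span FF ≤ RingHom.ker
        (MvPolynomial.aeval y' : MvPolynomial (Fin (n + 1)) k →ₐ[k]
          AlgebraicClosure (RatFunc M)) := by
      rw [Ideal.span_le]
      intro F' hF'
      exact hF0 F' hF'
    exact h1 hFI
  have hyv' : y' v = 1 := by
    have h1 := (hrel (MvPolynomial.X v - 1)).2 (by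
      rw [map_sub, MvPolynomial.aeval_X, map_one, hyv, sub_self])
    rw [map_sub, MvPolynomial.aeval_X, map_one] at h1
    exact sub_eq_zero.1 h1
  refine ⟨M, l1, iM, θ', y', hθd, hyθ, fun G hGh => ⟨fun h1 => ?_, hI0 G⟩, u, v, ?_, ?_⟩
  · by_contra h2
    obtain ⟨e', he'⟩ := hGh
    rw [hae, hrel] at h1
    exact hGq _ ⟨G, ⟨e', he'⟩, h2, rfl⟩ e' (he'.map σs) h1
  · rw [hyv']
    exact one_ne_zero
  · rw [hyv', div_one]
    exact hu

end Pool.Agent.Q1.BD
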