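import Pool.Agent.Q1.BD.Root
import Pool.Agent.Y377.ST.Main

/-!
A generic point of bounded degree on a coset.
-/

set_option autoImplicit false

namespace Pool.Agent.Q1.BD

open Polynomial Pool.Agent.Y377.IL Pool.Agent.Y377.IR Pool.Agent.Y377.ST

theorem const_of_algC {E : Type} [Field E] [Algebra ℂ E] {x : E} (h : IsAlgebraic ℂ x) :
    ∃ c : ℂ, algebraMap ℂ E c = x := by
  have h4 := IsAlgClosed.degree_eq_one_of_irreducible ℂ (minpoly.irreducible h.isIntegral)
  exact minpoly.mem_range_of_degree_eq_one ℂ x h4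

theorem coset_pt {H : Type} [Group H] {n d : ℕ} {R : Subalgebra ℂ (H → ℂ)} {x : H → Jx n d → ℂ}
    (hx : ∀ q, (fun h => x h q) ∈ R) {Nn : Subgroup H} {b : H} {K : Type} [Field K] [Algebra ℂ K]
    {Γ : Subgroup (K ≃ₐ[ℂ] K)} {ρ : R →ₐ[ℂ] K} (hρ : Res R Nn b K Γ ρ) (hEng : Eng ρ.range)
    (a : ℕ → H) (al : ℕ → ℂ) (S : Set ℕ) (hS : S.Infinite) (hco : ∀ m ∈ S, a m * b⁻¹ ∈ Nn)
    (hroot : ∀ m ∈ S, (Pol (x (a m))).eval (al m) = 0)
    (hne : ∀ m ∈ S, Num (x (a m)) (al m) ≠ 0)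
    (hcross : ∀ m ∈ S, ∀ m' ∈ S, m ≠ m' → ∃ u v,
      Num (x (a m)) (al m) u * Num (x (a m')) (al m') v ≠
        Num (x (a m)) (al m) v * Num (x (a m')) (al m') u)
    (GG : Set (MvPolynomial (Fin (n + 1)) ℂ))
    (hG : ∀ G ∈ GG, ∀ m ∈ S, MvPolynomial.eval (Num (x (a m)) (al m)) G ≠ 0) :
    ∃ (E : Type) (_ : Field E) (_ : Algebra ℂ E) (y : Fin (n + 1) → E) (v : Fin (n + 1)),
      y v = 1 ∧ GonPt d E y ∧
      (∀ (F : MvPolynomial (Fin (n + 1)) ℂ) (e : ℕ), F.IsHomogeneous e →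
        (∀ h α, h * b⁻¹ ∈ Nn → (Pol (x h)).eval α = 0 →
          MvPolynomial.eval (Num (x h) α) F = 0) → MvPolynomial.aeval y F = 0) ∧
      ∀ G ∈ GG, ∀ e, G.IsHomogeneous e → MvPolynomial.aeval y G ≠ 0 := by
  classical
  let A := ρ.range
  let E := AlgebraicClosure K
  let cA : Jx n d → A := fun q => ⟨ρ ⟨fun h => x h q, hx q⟩, ⟨_, rfl⟩⟩
  let cE : Jx n d → E := fun q => algebraMap A E (cA q)
  have hAE : Function.Injective (algebraMap A E) := by
    have h1 : (algebraMap A E) = (algebraMap K E).comp (algebraMap A K) := rfl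
    rw [h1, RingHom.coe_comp]
    exact (algebraMap K E).injective.comp Subtype.val_injective
  obtain ⟨β, hβ⟩ := exists_roots cE
  have hβ0 : ∀ j, (Pol cE).eval (β j) = 0 := by
    intro j
    rw [hβ, eval_prod]
    exact Finset.prod_eq_zero (Finset.mem_univ j) (by simp)
  have hβi : ∀ j, IsIntegral A (β j) := by
    intro j
    refine ⟨Pol cA, pol_monic cA, ?_⟩
    rw [← eval_map, pol_map]
    exact hβ0 j
  let B := integralClosure A E
  let βB : Fin d → B := fun j => ⟨β j, hβi j⟩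
  let cB : Jx n d → B := fun q => algebraMap A B (cA q)
  have hBE : Function.Injective (algebraMap B E) := Subtype.val_injective
  have hAB : Function.Injective (algebraMap A B) := by
    intro u v huv
    apply hAE
    rw [IsScalarTower.algebraMap_apply A B E, huv, ← IsScalarTower.algebraMap_apply]
  have hPB : Pol cB = ∏ j, (X - C (βB j)) := by
    apply Polynomial.map_injective (algebraMap B E) hBE
    rw [pol_map, Polynomial.map_prod]
    refine Eq.trans hβ (Finset.prod_congr rfl fun j _ => ?_)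
    rw [Polynomial.map_sub, map_X, map_C]
    rfl
  have hev : ∀ h, h * b⁻¹ ∈ Nn → ∃ g : B →ₐ[ℂ] ℂ, (∀ q, g (cB q) = x h q) ∧
      ∀ r : R, ∀ h0 : ρ r ∈ A, g (algebraMap A B ⟨ρ r, h0⟩) = (r : H → ℂ) h := by
    intro h hh
    obtain ⟨f, hf⟩ := exists_ev hρ hh
    obtain ⟨g, hg⟩ := ext_point hAB f
    exact ⟨g, fun q => (hg _).trans (hf _ _), fun r h0 => (hg _).trans (hf _ _)⟩
  let xB : Fin d → Fin (n + 1) → B := fun j => Num cB (βB j)
  have hgx : ∀ {h : H} {g : B →ₐ[ℂ] ℂ}, (∀ q, g (cB q) = x h q) → ∀ j u,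
      Num (x h) (g (βB j)) u = g (xB j u) := by
    intro h g hg j u
    have h1 := num_map (g : B →+* ℂ) cB (βB j) u
    have h2 : (fun q => (g : B →+* ℂ) (cB q)) = x h := funext hg
    rw [h2] at h1
    exact h1
  have hgr : ∀ {h : H} {g : B →ₐ[ℂ] ℂ}, (∀ q, g (cB q) = x h q) → ∀ j,
      (Pol (x h)).eval (g (βB j)) = 0 := by
    intro h g hg j
    have h1 := pol_map (g : B →+* ℂ) cB
    have h2 : (fun q => (g : B →+* ℂ) (cB q)) = x h := funext hg
    rw [h2] at h1
    rw [← h1, hPB, Polynomial.map_prod, eval_prod]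
    refine Finset.prod_eq_zero (Finset.mem_univ j) ?_
    rw [Polynomial.map_sub, map_X, map_C, eval_sub, eval_X, eval_C]
    exact sub_self _
  have hrg : ∀ {h : H} {g : B →ₐ[ℂ] ℂ}, (∀ q, g (cB q) = x h q) → ∀ α : ℂ,
      (Pol (x h)).eval α = 0 → ∃ j, α = g (βB j) := by
    intro h g hg α hα
    have h1 := pol_map (g : B →+* ℂ) cB
    have h2 : (fun q => (g : B →+* ℂ) (cB q)) = x h := funext hg
    rw [h2] at h1
    rw [← h1, hPB, Polynomial.map_prod, eval_prod] at hα
    obtain ⟨j, -, hj⟩ := Finset.prod_eq_zero_iff.1 hα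
    rw [Polynomial.map_sub, map_X, map_C, eval_sub, eval_X, eval_C] at hj
    exact ⟨j, sub_eq_zero.1 hj⟩
  have hgp : ∀ {h : H} {g : B →ₐ[ℂ] ℂ}, (∀ q, g (cB q) = x h q) → ∀ j
      (G : MvPolynomial (Fin (n + 1)) ℂ),
      MvPolynomial.eval (Num (x h) (g (βB j))) G = g (MvPolynomial.aeval (xB j) G) := by
    intro h g hg j G
    have h1 := MvPolynomial.comp_aeval_apply (f := xB j) g G
    have h2 : (fun i => g (xB j i)) = Num (x h) (g (βB j)) := funext fun u => (hgx hg j u).symm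
    rw [h1, h2, ← MvPolynomial.coe_aeval_eq_eval]
    rfl
  -- a good root
  obtain ⟨j, hj1, hj2, hj3⟩ : ∃ j, xB j ≠ 0 ∧ (∀ G ∈ GG, MvPolynomial.aeval (xB j) G ≠ 0) ∧
      ∀ v, xB j v ≠ 0 → ∃ u, ∀ c : ℂ, xB j u ≠ algebraMap ℂ B c * xB j v := by
    by_contra hcon
    have hcon' : ∀ j, xB j = 0 ∨ (∃ G ∈ GG, MvPolynomial.aeval (xB j) G = 0) ∨
        ∃ v, xB j v ≠ 0 ∧ ∀ u, ∃ c : ℂ, xB j u = algebraMap ℂ B c * xB j v := by
      intro j
      by_contra h1
      push Not at h1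
      exact hcon ⟨j, h1.1, h1.2.1, h1.2.2⟩
    have hsel : ∀ m : S, ∃ (g : B →ₐ[ℂ] ℂ) (j : Fin d), (∀ q, g (cB q) = x (a m) q) ∧
        al m = g (βB j) := by
      intro m
      obtain ⟨g, hg, -⟩ := hev (a m) (hco m m.2)
      obtain ⟨j, hj⟩ := hrg hg (al m) (hroot m m.2)
      exact ⟨g, j, hg, hj⟩
    choose g jj hg hjj using hsel
    have hSi : Infinite S := hS.to_subtype
    obtain ⟨m, m', hmm, hjm⟩ := Finite.exists_ne_map_eq_of_infinite jj
    have hmm' : (m : ℕ) ≠ m' := fun h => hmm (Subtype.ext h)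
    have hnum : ∀ (m : S) u, Num (x (a m)) (al m) u = g m (xB (jj m) u) := by
      intro m u
      rw [hjj m]
      exact hgx (hg m) _ _
    rcases hcon' (jj m) with h1 | ⟨G, hGG, h1⟩ | ⟨v, hv, h1⟩
    · apply hne m m.2
      funext u
      rw [hnum m u, h1]
      exact map_zero _
    · apply hG G hGG m m.2
      rw [hjj m, hgp (hg m), h1, map_zero]
    · choose c hc using h1
      obtain ⟨u, u', huu⟩ := hcross m m.2 m' m'.2 hmm'
      apply huu
      have e1 : ∀ w, Num (x (a m)) (al m) w = c w * g m (xB (jj m) v) := by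
        intro w
        rw [hnum m w, hc w, map_mul, AlgHom.commutes]
        rfl
      have e2 : ∀ w, Num (x (a m')) (al m') w = c w * g m' (xB (jj m) v) := by
        intro w
        rw [hnum m' w, ← hjm, hc w, map_mul, AlgHom.commutes]
        rfl
      rw [e1 u, e1 u', e2 u, e2 u']
      ring
  obtain ⟨v, hv⟩ := Function.ne_iff.1 hj1
  have hv' : xB j v ≠ 0 := hv
  obtain ⟨u, hu⟩ := hj3 v hv'
  have hvE : (xB j v : E) ≠ 0 := fun h0 => hv' (Subtype.ext h0)
  let y : Fin (n + 1) → E := fun w => (xB j w : E) / (xB j v : E)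
  have hyv : y v = 1 := div_self hvE
  have hcoe : ∀ G : MvPolynomial (Fin (n + 1)) ℂ,
      MvPolynomial.aeval (fun w => (xB j w : E)) G = algebraMap B E (MvPolynomial.aeval (xB j) G) :=
    fun G => (MvPolynomial.aeval_algebraMap_apply E (xB j) G)
  refine ⟨E, inferInstance, inferInstance, y, v, hyv, ?_, ?_, ?_⟩
  · -- degree
    let cF : Jx n d → frac A := fun q => ⟨cA q, le_frac A (cA q).2⟩
    have hcF : ∀ q, algebraMap (frac A) E (cF q) = cE q := fun q => rfl
    have hroot' : aeval (β j) (Pol cF) = 0 := by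
      rw [aeval_def, ← eval_map, pol_map]
      exact hβ0 j
    have hαi : IsIntegral (frac A) (β j) := ⟨Pol cF, pol_monic cF, hroot'⟩
    refine hEng.pt y (β j) hαi ?_ ?_ ⟨u, fun hal => ?_⟩
    · have h1 := natDegree_le_natDegree (minpoly.min (frac A) (β j) (pol_monic cF) hroot')
      rwa [pol_degree] at h1
    · have h1 : ∀ w, (xB j w : E) ∈ IntermediateField.adjoin (frac A) {β j} := by
        intro w
        have h2 : (xB j w : E) = ∑ i : Fin d, algebraMap (frac A) E (cF (some w, i)) *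
            β j ^ (i : ℕ) := by
          change ((∑ i : Fin d, cB (some w, i) * βB j ^ (i : ℕ) : B) : E) = _
          push_cast
          rfl
        rw [h2]
        exact sum_mem fun i _ => mul_mem (IntermediateField.algebraMap_mem _ _)
          (pow_mem (IntermediateField.mem_adjoin_simple_self _ _) _)
      intro w
      exact div_mem (h1 w) (h1 v)
    · obtain ⟨c, hc⟩ := const_of_algC hal
      refine hu c (Subtype.ext ?_)
      have h1 : (xB j u : E) = y u * (xB j v : E) := (div_mul_cancel₀ _ hvE).symm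
      rw [h1, ← hc]
      rfl
  · intro F e hFe hF
    refine (form_div hFe (fun w => (xB j w : E)) hvE).2 ?_
    rw [hcoe]
    by_contra hne0
    have hf0 : MvPolynomial.aeval (xB j) F ≠ 0 := fun h0 => hne0 (by rw [h0, map_zero])
    have hfi : IsIntegral A (MvPolynomial.aeval (xB j) F : B) :=
      Algebra.IsIntegral.isIntegral _
    obtain ⟨q, hq0, hq⟩ := hfi.isAlgebraic.exists_nonzero_coeff_and_aeval_eq_zero
      (mem_nonZeroDivisors_of_ne_zero hf0)
    obtain ⟨r, hr⟩ := (q.coeff 0).2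
    have hr0 : ρ r = 0 := by
      rw [hρ.ker]
      intro g0 hg0
      obtain ⟨g, hg1, hg2⟩ := hev (g0 * b) (by rwa [mul_inv_cancel_right])
      have h1 : g (MvPolynomial.aeval (xB j) F) = 0 := by
        rw [← hgp hg1]
        exact hF _ _ (by rwa [mul_inv_cancel_right]) (hgr hg1 j)
      have h2 := congrArg g hq
      rw [map_zero, aeval_def, ← AlgHom.coe_toRingHom, hom_eval₂] at h2
      have h3 : (g : B →+* ℂ) (MvPolynomial.aeval (xB j) F) = 0 := h1
      change eval₂ _ ((g : B →+* ℂ) (MvPolynomial.aeval (xB j) F)) q = 0 at h2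
      rw [h3, eval₂_at_zero] at h2
      have h4 : g (algebraMap A B (q.coeff 0)) = 0 := h2
      have h5 : q.coeff 0 = ⟨ρ r, ⟨r, rfl⟩⟩ := Subtype.ext hr.symm
      rw [h5, hg2 r ⟨r, rfl⟩] at h4
      exact h4
    exact hq0 (Subtype.ext (hr.symm.trans hr0))
  · intro G hGG e hGe h0
    rw [form_div hGe (fun w => (xB j w : E)) hvE, hcoe] at h0
    exact hj2 G hGG (hBE (h0.trans (map_zero _).symm))

end Pool.Agent.Q1.BD
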