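import Pool.Agent.Q1.BD.Diff

/-!
Branches of algebroid curves given by iterated linear differential equations.
-/

set_option autoImplicit false

namespace Pool.Agent.Q1.BD

open Filter Polynomial Set Pool.Agent.TH143 Pool.Agent.Y377.IL Pool.Agent.Y377.ST
  Pool.Agent.Q1.SL Pool.Agent.Y377.EL

/-- The components of `x(z)` are, on `Ω`, the values of polynomials of degree at most `e` in each
variable at the entries of `X_1(z), X_1(z)⁻¹, ..., X_s(z), X_s(z)⁻¹`, for matrices `X_l` of size `r`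
as in `DIter`. -/
def DFam {ι : Type} (Ω : Set ℂ) (s r e : ℕ) (x : ℂ → ι → ℂ) : Prop :=
  ∃ X Y : Fin s → ℂ → Matrix (Fin r) (Fin r) ℂ, DIter Ω e X Y ∧
    ∀ j, ∃ c : (Ix s r → Fin (e + 1)) → ℂ, ∀ z ∈ Ω, x z j = pev c (entries X Y z)

theorem DFam.vec {ι : Type} [Fintype ι] {Ω : Set ℂ} {s r e : ℕ} {x : ℂ → ι → ℂ}
    (hx : DFam Ω s r e x) :
    DVec Ω s r e fun z (j : Fin (Fintype.card ι)) => x z ((Fintype.equivFin ι).symm j) := by
  obtain ⟨X, Y, hX, hc⟩ := hx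
  exact ⟨X, Y, hX, fun j => hc _⟩

theorem DFam.an {ι : Type} [Fintype ι] {Ω : Set ℂ} (hΩ : IsOpen Ω) {s r e : ℕ} {x : ℂ → ι → ℂ}
    (hx : DFam Ω s r e x) (q : ι) : AnalyticOnNhd ℂ (fun z => x z q) Ω := by
  have h1 := hx.vec.an hΩ (Fintype.equivFin ι q)
  simpa only [Equiv.symm_apply_apply] using h1

theorem DFam.toF {ι : Type} [Fintype ι] {Ω : Set ℂ} (hΩ : IsOpen Ω) {K : Type} [Field K]
    [Algebra ℂ K] {D : Derivation ℂ K K} {A : Subalgebra ℂ K} {i : Hol Ω →ₐ[ℂ] K}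
    (hA : Amb Ω K D A i) {s r e : ℕ} {x : ℂ → ι → ℂ} (hx : DFam Ω s r e x) :
    DFamF D s r e fun q => i (toHol _ (hx.an hΩ q)) := by
  obtain ⟨X, Y, hX, hc⟩ := hx.vec.toF hΩ hA
  refine ⟨X, Y, hX, fun q => ?_⟩
  obtain ⟨c, hc⟩ := hc (Fintype.equivFin _ q)
  refine ⟨c, ?_⟩
  rw [← hc]
  change i (toHol _ (hx.an hΩ q)) = i (toHol _ _)
  refine congrArg i (hol_ext fun z => ?_)
  rw [evz_toHol, evz_toHol, Equiv.symm_apply_apply]

/-- **One closed set for all algebroid curves.** -/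
theorem strong_bd_curves {k : Type} [Field k] [Countable k] {n : ℕ}
    (FF : Set (MvPolynomial (Fin (n + 1)) k)) (hhom : ∀ F ∈ FF, ∃ e, F.IsHomogeneous e)
    (hprime : (Ideal.span FF).IsPrime) (d : ℕ) (hnu : ¬ Covered (Ideal.span FF) d) (s r e : ℕ) :
    ∃ G : MvPolynomial (Fin (n + 1)) k, (∃ d, G.IsHomogeneous d) ∧ G ∉ Ideal.span FF ∧
      ∀ (σ : k →+* ℂ) (Ω : Set ℂ), IsOpen Ω → IsPreconnected Ω →
        ∀ (x : ℂ → Jx n d → ℂ) (α : ℂ → ℂ), DFam Ω s r e x → AnalyticOnNhd ℂ α Ω →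
        (∀ z ∈ Ω, (Pol (x z)).eval (α z) = 0) →
        (∀ z ∈ Ω, ∀ F ∈ FF, MvPolynomial.eval₂ σ (Num (x z) (α z)) F = 0) →
        (∃ z ∈ Ω, ∃ w ∈ Ω, ∃ u v, Num (x z) (α z) u * Num (x w) (α w) v ≠
          Num (x z) (α z) v * Num (x w) (α w) u) →
          ∀ z ∈ Ω, MvPolynomial.eval₂ σ (Num (x z) (α z)) G = 0 := by
  obtain ⟨G, hG1, hG2, hG3⟩ := strong_bd_diff FF hhom hprime d hnu s r e
  refine ⟨G, hG1, hG2, ?_⟩
  intro σ Ω hΩ hΩc x α hx hα hroot hF hnc
  obtain ⟨K, _, _, D, A, i, hA⟩ := exists_amb hΩ hΩc ⟨_, hnc.choose_spec.1⟩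
  have hC : Cst D := hA.con
  have hxa := fun q => hx.an hΩ q
  let xH : Jx n d → Hol Ω := fun q => toHol _ (hxa q)
  let aH : Hol Ω := toHol α hα
  have hxz : ∀ z : Ω, (fun q => (evz z : Hol Ω →+* ℂ) (xH q)) = x z := by
    intro z
    funext q
    exact evz_toHol _ _ _
  have haz : ∀ z : Ω, (evz z : Hol Ω →+* ℂ) aH = α z := fun z => evz_toHol _ _ _
  have hnz : ∀ (z : Ω) u, evz z (Num xH aH u) = Num (x z) (α z) u := by
    intro z u
    have h1 := num_map (evz z : Hol Ω →+* ℂ) xH aH u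
    rw [hxz, haz] at h1
    exact h1.symm
  have hna : ∀ u, AnalyticOnNhd ℂ (fun z => Num (x z) (α z) u) Ω := by
    intro u
    unfold Num
    intro z hz
    exact Finset.analyticAt_fun_sum _ fun l _ => (hxa _ z hz).mul ((hα z hz).pow _)
  have hnt : ∀ u, toHol _ (hna u) = Num xH aH u := by
    intro u
    apply hol_ext
    intro z
    rw [evz_toHol, hnz]
  have hni : ∀ u, Num (fun q => i (xH q)) (i aH) u = i (toHol _ (hna u)) := by
    intro u
    rw [hnt]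
    exact num_map (i : Hol Ω →+* K) xH aH u
  have hni' : Num (fun q => i (xH q)) (i aH) = fun u => i (toHol _ (hna u)) := funext hni
  have hpz : (Pol fun q => i (xH q)).eval (i aH) = 0 := by
    have h1 := eval_pol_map (i : Hol Ω →+* K) xH aH
    have h2 : (Pol xH).eval aH = 0 := by
      apply hol_ext
      intro z
      have h3 := eval_pol_map (evz z : Hol Ω →+* ℂ) xH aH
      rw [hxz, haz] at h3
      rw [map_zero]
      exact h3.symm.trans (hroot z z.2)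
    rw [h2, map_zero] at h1
    exact h1
  have hcr := exists_cross hΩ hΩc hA hna hnc
  have h1 := hG3 σ K D hC (fun q => i (xH q)) (i aH) (hx.toF hΩ hA) hpz (fun F hFF => ?_) (by
    rw [hni']
    exact hcr)
  · rw [← MvPolynomial.eval₂_map, hni'] at h1
    have h2 := (vanish_iff hA.inj (f := fun z => Num (x z) (α z)) hna
      (MvPolynomial.map σ G)).1 h1
    intro z hz
    have h3 := h2 z hz
    rwa [MvPolynomial.eval_map] at h3
  · rw [← MvPolynomial.eval₂_map, hni']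
    refine (vanish_iff hA.inj (f := fun z => Num (x z) (α z)) hna (MvPolynomial.map σ F)).2 ?_
    intro z hz
    rw [MvPolynomial.eval_map]
    exact hF z hz F hFF

end Pool.Agent.Q1.BD
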