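import Pool.Agent.Q1.BD.Arith
import Pool.Agent.Q1.SL.DCurve

/-!
Algebroid curves given by iterated linear differential equations: one closed set for all algebroid
curves of bounded degree and bounded complexity.
-/

set_option autoImplicit false

namespace Pool.Agent.Q1.BD

open Filter Polynomial Pool.Agent.Y377.IL Pool.Agent.Y377.ST Pool.Agent.Q1.SL
  Pool.Agent.Y377.EL IntermediateField

/-- The components of the vector `x` over the differential field `K` are the values of polynomials
with complex coefficients, of degree at most `e` in each variable, at the entries of matrices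
`X_1, X_1⁻¹, ..., X_s, X_s⁻¹` of size `r` as in `DIterF`. -/
def DFamF {K ι : Type} [Field K] [Algebra ℂ K] (D : Derivation ℂ K K) (s r e : ℕ)
    (x : ι → K) : Prop :=
  ∃ X Y : Fin s → Matrix (Fin r) (Fin r) K, DIterF D e X Y ∧
    ∀ j, ∃ c : (Ix s r → Fin (e + 1)) → ℂ,
      x j = pev (fun m => algebraMap ℂ K (c m)) (entD X Y)

theorem DFamF.vec {K ι : Type} [Field K] [Algebra ℂ K] [Fintype ι] {D : Derivation ℂ K K}
    {s r e : ℕ} {x : ι → K} (hx : DFamF D s r e x) :
    DVecF D s r e fun j : Fin (Fintype.card ι) => x ((Fintype.equivFin ι).symm j) := by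
  obtain ⟨X, Y, hX, hc⟩ := hx
  exact ⟨X, Y, hX, fun j => hc _⟩

/-- a generic point of bounded degree -/
theorem gon_pointD {K : Type} [Field K] [Algebra ℂ K] {D : Derivation ℂ K K} (hC : Cst D)
    {s r e n d : ℕ} {x : Jx n d → K} (hx : DFamF D s r e x) {α : K} (hα : (Pol x).eval α = 0)
    {u v : Fin (n + 1)} (huv : D (Num x α u) * Num x α v ≠ Num x α u * D (Num x α v)) :
    ∃ y : Fin (n + 1) → K, y v = 1 ∧ GonPt d K y ∧
      ∀ (G : MvPolynomial (Fin (n + 1)) ℂ) (e : ℕ), G.IsHomogeneous e →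
        (MvPolynomial.aeval y G = 0 ↔ MvPolynomial.aeval (Num x α) G = 0) := by
  classical
  obtain ⟨R, hR, hmem⟩ := hx.vec.tow
  have hmem' : ∀ q, x q ∈ R := by
    intro q
    have h1 := hmem (Fintype.equivFin _ q)
    rwa [Equiv.symm_apply_apply] at h1
  have hEng : Eng R := fun t ht hne => hyp.main hC (goodB_bot D) hR ht hne
  have hv : Num x α v ≠ 0 := by
    intro h0
    apply huv
    rw [h0, map_zero, mul_zero, mul_zero]
  let y : Fin (n + 1) → K := fun w => Num x α w / Num x α v
  let cF : Jx n d → frac R := fun q => ⟨x q, le_frac R (hmem' q)⟩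
  have hroot : aeval α (Pol cF) = 0 := by
    rw [aeval_def, ← eval_map, pol_map]
    exact hα
  have hαi : IsIntegral (frac R) α := ⟨Pol cF, pol_monic cF, hroot⟩
  refine ⟨y, div_self hv, hEng.pt y α hαi ?_ ?_ ⟨u, fun hal => ?_⟩, fun G e hG => ?_⟩
  · have h1 := natDegree_le_natDegree (minpoly.min (frac R) α (pol_monic cF) hroot)
    rwa [pol_degree] at h1
  · have h1 : ∀ w, Num x α w ∈ IntermediateField.adjoin (frac R) {α} := by
      intro w
      have h2 : Num x α w = ∑ i : Fin d, algebraMap (frac R) K (cF (some w, i)) *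
          α ^ (i : ℕ) := rfl
      rw [h2]
      exact sum_mem fun i _ => mul_mem (IntermediateField.algebraMap_mem _ _)
        (pow_mem (IntermediateField.mem_adjoin_simple_self _ _) _)
    intro w
    exact div_mem (h1 w) (h1 v)
  · obtain ⟨c, hc⟩ := const_of_algC hal
    apply huv
    have h1 : Num x α u = algebraMap ℂ K c * Num x α v := by
      rw [hc]
      exact (div_mul_cancel₀ _ hv).symm
    rw [h1, ← Algebra.smul_def, D.map_smul, Algebra.smul_def, Algebra.smul_def]
    ring
  · exact form_div hG (Num x α) hv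

/-- **One closed set for all algebroid curves of bounded degree and complexity.** -/
theorem strong_bd_diff {k : Type} [Field k] [Countable k] {n : ℕ}
    (FF : Set (MvPolynomial (Fin (n + 1)) k)) (hhom : ∀ F ∈ FF, ∃ e, F.IsHomogeneous e)
    (hprime : (Ideal.span FF).IsPrime) (d : ℕ) (hnu : ¬ Covered (Ideal.span FF) d) (s r e : ℕ) :
    ∃ G : MvPolynomial (Fin (n + 1)) k, (∃ d, G.IsHomogeneous d) ∧ G ∉ Ideal.span FF ∧
      ∀ (σ : k →+* ℂ) (K : Type) [Field K] [Algebra ℂ K] (D : Derivation ℂ K K), Cst D →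
        ∀ (x : Jx n d → K) (α : K), DFamF D s r e x → (Pol x).eval α = 0 →
        (∀ F ∈ FF, MvPolynomial.eval₂ ((algebraMap ℂ K).comp σ) (Num x α) F = 0) →
        (∃ u v, D (Num x α u) * Num x α v ≠ Num x α u * D (Num x α v)) →
          MvPolynomial.eval₂ ((algebraMap ℂ K).comp σ) (Num x α) G = 0 := by
  classical
  by_contra hcon
  have hC : ∀ G : MvPolynomial (Fin (n + 1)) k, (∃ d, G.IsHomogeneous d) → G ∉ Ideal.span FF →
      ∃ (σ : k →+* ℂ) (K : Type) (_ : Field K) (_ : Algebra ℂ K) (D : Derivation ℂ K K)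
        (x : Jx n d → K) (α : K), Cst D ∧ DFamF D s r e x ∧ (Pol x).eval α = 0 ∧
        (∀ F ∈ FF, MvPolynomial.eval₂ ((algebraMap ℂ K).comp σ) (Num x α) F = 0) ∧
        (∃ u v, D (Num x α u) * Num x α v ≠ Num x α u * D (Num x α v)) ∧
        MvPolynomial.eval₂ ((algebraMap ℂ K).comp σ) (Num x α) G ≠ 0 := by
    intro G hG1 hG2
    by_contra h1
    refine hcon ⟨G, hG1, hG2, ?_⟩
    intro σ K _ _ D hCD x α hx hα hF huv
    by_contra h2
    exact h1 ⟨σ, K, _, _, D, x, α, hCD, hx, hα, hF, huv, h2⟩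
  -- an enumeration of the forms
  let S : Type := {G : MvPolynomial (Fin (n + 1)) k // (∃ d, G.IsHomogeneous d) ∧
    G ∉ Ideal.span FF}
  have hcs : Countable (MvPolynomial (Fin (n + 1)) k) := by
    rw [← Cardinal.mk_le_aleph0_iff]
    refine MvPolynomial.cardinalMk_le_max.trans ?_
    exact max_le (max_le (Cardinal.mk_le_aleph0_iff.2 inferInstance)
      (Cardinal.mk_le_aleph0_iff.2 inferInstance)) le_rfl
  have hne : Nonempty S := ⟨⟨1, ⟨0, MvPolynomial.isHomogeneous_one _ _⟩,
    fun h1 => hprime.ne_top ((Ideal.eq_top_iff_one _).2 h1)⟩⟩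
  obtain ⟨en, hen⟩ := exists_surjective_nat S
  let Q : ℕ → MvPolynomial (Fin (n + 1)) k := fun i => ∏ j ∈ Finset.range (i + 1), (en j).1
  have hQ1 : ∀ i, ∃ d, (Q i).IsHomogeneous d := by
    intro i
    choose d hd using fun j => (en j).2.1
    exact ⟨_, MvPolynomial.IsHomogeneous.prod _ _ d fun j _ => hd j⟩
  have hQ2 : ∀ i, Q i ∉ Ideal.span FF := by
    intro i h1
    obtain ⟨j, -, hj⟩ := (hprime.prod_mem_iff).1 h1
    exact (en j).2.2 hj
  choose σ K iK jK D x al hCD hx hal0 hF huv hG using fun i => hC (Q i) (hQ1 i) (hQ2 i)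
  obtain ⟨K', iK', jK', D', π, θ, hC', hD', hal, hker, hkθ⟩ := exists_ultra D hCD
  let σ' : k →+* ℂ := θ.comp (RingHom.pi σ)
  let x' : Jx n d → K' := fun q => π fun i => x i q
  let α' : K' := π al
  have hx' : DFamF D' s r e x' := by
    have h1 := DVecF.ultra hD' hal fun i => (hx i).vec
    obtain ⟨X, Y, hX, hc⟩ := h1
    refine ⟨X, Y, hX, fun q => ?_⟩
    obtain ⟨c, hc⟩ := hc (Fintype.equivFin _ q)
    refine ⟨c, ?_⟩
    rw [← hc]
    simp only [Equiv.symm_apply_apply]
    rfl
  have hnum : ∀ u, Num x' α' u = π fun i => Num (x i) (al i) u := by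
    intro u
    have h1 := num_map π (fun q i => x i q) al u
    refine h1.trans ?_
    congr 1
    funext i
    exact (num_map (Pi.evalRingHom K i) (fun q i => x i q) al u).symm
  have hpol : (Pol x').eval α' = 0 := by
    have h1 := eval_pol_map π (fun q i => x i q) al
    have h2 : (Pol fun q i => x i q).eval al = 0 := by
      funext i
      exact (eval_pol_map (Pi.evalRingHom K i) (fun q i => x i q) al).symm.trans (hal0 i)
    rw [h2, map_zero] at h1
    exact h1
  have key : ∀ F : MvPolynomial (Fin (n + 1)) k,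
      MvPolynomial.eval₂ ((algebraMap ℂ K').comp σ') (Num x' α') F =
        π fun i => MvPolynomial.eval₂ ((algebraMap ℂ (K i)).comp (σ i)) (Num (x i) (al i)) F := by
    intro F
    let τ : k →+* (∀ i, K i) := RingHom.pi fun i => (algebraMap ℂ (K i)).comp (σ i)
    have h1 := MvPolynomial.eval₂_comp_left π τ (fun j i => Num (x i) (al i) j) F
    have h2 : MvPolynomial.eval₂ τ (fun j i => Num (x i) (al i) j) F =
        fun i => MvPolynomial.eval₂ ((algebraMap ℂ (K i)).comp (σ i)) (Num (x i) (al i)) F := by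
      funext i
      exact MvPolynomial.eval₂_comp_left (Pi.evalRingHom K i) τ
        (fun j i => Num (x i) (al i) j) F
    rw [h2] at h1
    have h3 : π.comp τ = (algebraMap ℂ K').comp σ' := by
      ext c
      exact hal fun i => σ i c
    have h4 : Num x' α' = π ∘ fun j i => Num (x i) (al i) j := funext hnum
    rw [h3] at h1
    rw [h4]
    exact h1.symm
  have hzero : ∀ F ∈ FF,
      MvPolynomial.eval₂ ((algebraMap ℂ K').comp σ') (Num x' α') F = 0 := by
    intro F hFF
    rw [key]
    have h1 : (fun i => MvPolynomial.eval₂ ((algebraMap ℂ (K i)).comp (σ i))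
        (Num (x i) (al i)) F) = 0 := funext fun i => hF i F hFF
    rw [h1, map_zero]
  have hnz : ∀ G : MvPolynomial (Fin (n + 1)) k, (∃ d, G.IsHomogeneous d) →
      G ∉ Ideal.span FF →
        MvPolynomial.eval₂ ((algebraMap ℂ K').comp σ') (Num x' α') G ≠ 0 := by
    intro G hG1 hG2 h0
    obtain ⟨j, hj⟩ := hen ⟨G, hG1, hG2⟩
    rw [key, hker] at h0
    have hge : ∀ᶠ i in (hyperfilter ℕ : Filter ℕ), j ≤ i := by
      have h1 : ∀ᶠ i : ℕ in cofinite, j ≤ i := by
        rw [Nat.cofinite_eq_atTop]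
        exact eventually_ge_atTop j
      exact h1.filter_mono hyperfilter_le_cofinite
    obtain ⟨i, h5, hi⟩ := (h0.and hge).exists
    have h4 : (en j).1 ∣ Q i := Finset.dvd_prod_of_mem (fun j => (en j).1)
      (Finset.mem_range.2 (by omega))
    rw [hj] at h4
    obtain ⟨G', hG'⟩ := h4
    apply hG i
    rw [hG', MvPolynomial.eval₂_mul]
    change MvPolynomial.eval₂ ((algebraMap ℂ (K i)).comp (σ i)) (Num (x i) (al i)) G * _ = 0
    rw [h5, zero_mul]
  have hcross : ∃ u v, D' (Num x' α' u) * Num x' α' v ≠ Num x' α' u * D' (Num x' α' v) := by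
    choose u v huv using huv
    obtain ⟨⟨u0, v0⟩, h1⟩ : ∃ p : Fin (n + 1) × Fin (n + 1),
        ∀ᶠ i in (hyperfilter ℕ : Filter ℕ), (u i, v i) = p := by
      by_contra hno
      push Not at hno
      have h2 : ∀ p : Fin (n + 1) × Fin (n + 1),
          ∀ᶠ i in (hyperfilter ℕ : Filter ℕ), (u i, v i) ≠ p := fun p =>
        hno p
      have h3 : ∀ᶠ i in (hyperfilter ℕ : Filter ℕ), ∀ p : Fin (n + 1) × Fin (n + 1),
          (u i, v i) ≠ p := eventually_all.2 h2
      obtain ⟨i, hi⟩ := h3.exists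
      exact hi _ rfl
    refine ⟨u0, v0, fun h2 => ?_⟩
    rw [hnum, hnum, hD', hD'] at h2
    have h3 : π (fun i => D i (Num (x i) (al i) u0) * Num (x i) (al i) v0 -
        Num (x i) (al i) u0 * D i (Num (x i) (al i) v0)) = 0 := by
      have h4 : (fun i => D i (Num (x i) (al i) u0) * Num (x i) (al i) v0 -
          Num (x i) (al i) u0 * D i (Num (x i) (al i) v0)) =
          (fun i => D i (Num (x i) (al i) u0)) * (fun i => Num (x i) (al i) v0) -
            (fun i => Num (x i) (al i) u0) * (fun i => D i (Num (x i) (al i) v0)) := rfl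
      rw [h4, map_sub, map_mul, map_mul]
      exact sub_eq_zero.2 h2
    rw [hker] at h3
    obtain ⟨i, h5, h6⟩ := (h3.and h1).exists
    apply huv i
    have h7 : u i = u0 := congrArg Prod.fst h6
    have h8 : v i = v0 := congrArg Prod.snd h6
    rw [h7, h8]
    exact sub_eq_zero.1 h5
  obtain ⟨u, v, huv'⟩ := hcross
  obtain ⟨y, hyv, ⟨⟨M, l1, l2, y', θ', hθi, hθd, hyθ, hrel, w, hw⟩⟩, hyG⟩ :=
    gon_pointD hC' hx' hpol huv'
  apply hnu
  let iM : Algebra k M := ((algebraMap ℂ M).comp σ').toAlgebra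
  have hal' : algebraMap k (AlgebraicClosure (RatFunc M)) =
      (algebraMap ℂ (AlgebraicClosure (RatFunc M))).comp σ' := by
    ext c
    rw [IsScalarTower.algebraMap_apply k (RatFunc M) (AlgebraicClosure (RatFunc M)),
      IsScalarTower.algebraMap_apply k M (RatFunc M), RingHom.comp_apply,
      IsScalarTower.algebraMap_apply ℂ (RatFunc M) (AlgebraicClosure (RatFunc M)),
      IsScalarTower.algebraMap_apply ℂ M (RatFunc M)]
    rfl
  have hae : ∀ F : MvPolynomial (Fin (n + 1)) k, ∀ e, F.IsHomogeneous e →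
      (MvPolynomial.aeval y' F = 0 ↔
        MvPolynomial.eval₂ ((algebraMap ℂ K').comp σ') (Num x' α') F = 0) := by
    intro F e he
    have h1 : MvPolynomial.aeval y' F = MvPolynomial.aeval y' (MvPolynomial.map σ' F) := by
      rw [MvPolynomial.aeval_def, MvPolynomial.aeval_def, MvPolynomial.eval₂_map, hal']
    rw [h1, hrel, hyG _ e (he.map σ'), MvPolynomial.aeval_def, MvPolynomial.eval₂_map]
  have hI0 : ∀ F ∈ Ideal.span FF, MvPolynomial.aeval y' F = 0 := by
    intro F hFI
    have h1 : Ideal.span FF ≤ RingHom.ker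
        (MvPolynomial.aeval y' : MvPolynomial (Fin (n + 1)) k →ₐ[k]
          AlgebraicClosure (RatFunc M)) := by
      rw [Ideal.span_le]
      intro F' hF'
      obtain ⟨e', he'⟩ := hhom F' hF'
      exact (hae F' e' he').2 (hzero F' hF')
    exact h1 hFI
  have hyv' : y' v = 1 := by
    have h1 := (hrel (MvPolynomial.X v - 1)).2 (by
      rw [map_sub, MvPolynomial.aeval_X, map_one, hyv, sub_self])
    rw [map_sub, MvPolynomial.aeval_X, map_one] at h1
    exact sub_eq_zero.1 h1
  refine ⟨M, l1, iM, θ', y', hθd, hyθ, fun G hGh => ⟨fun h1 => ?_, hI0 G⟩, w, v, ?_, ?_⟩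
  · by_contra h2
    obtain ⟨e', he'⟩ := hGh
    exact hnz G ⟨e', he'⟩ h2 ((hae G e' he').1 h1)
  · rw [hyv']
    exact one_ne_zero
  · rw [hyv', div_one]
    exact hw

end Pool.Agent.Q1.BD
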