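import Pool.Agent.Q1.BD.Trans
import Pool.Agent.Y377.IL.Asm

/-!
Families of curves of gonality at most `d` through algebraic points over the fields of the engine.
-/

set_option autoImplicit false

namespace Pool.Agent.Q1.BD

open Polynomial IntermediateField Pool.Agent.Y377.IL

/-- the property of the rings of the engine: finitely many elements of the field of fractions which
are not all constant are in a rational family -/
def Eng {K : Type} [Field K] [Algebra ℂ K] (R : Subalgebra ℂ K) : Prop :=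
  ∀ t : Finset K, (∀ x ∈ t, x ∈ frac R) →
    (∃ x ∈ t, ¬ IsAlgebraic (⊥ : Subalgebra ℂ K) x) → RatFam R t

/-- a point over an extension of degree at most `d` of a field of rational functions -/
structure GonPt (d : ℕ) {m : ℕ} (A : Type) [Field A] [Algebra ℂ A] (y : Fin m → A) : Prop where
  ex : ∃ (M : Type) (_ : Field M) (_ : Algebra ℂ M) (y' : Fin m → AlgebraicClosure (RatFunc M))
    (θ' : AlgebraicClosure (RatFunc M)),
    IsIntegral (RatFunc M) θ' ∧ (minpoly (RatFunc M) θ').natDegree ≤ d ∧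
    (∀ u, y' u ∈ (RatFunc M)⟮θ'⟯) ∧
    (∀ G : MvPolynomial (Fin m) ℂ, MvPolynomial.aeval y' G = 0 ↔ MvPolynomial.aeval y G = 0) ∧
    ∃ u, ¬ IsAlgebraic M (y' u)

theorem alg_bot {K : Type} [Field K] [Algebra ℂ K] {x : K}
    (h : ¬ ∃ c : ℂ, x = algebraMap ℂ K c) : ¬ IsAlgebraic (⊥ : Subalgebra ℂ K) x := fun h1 =>
  h (const_of_alg h1)

/-- lifting a polynomial to a smaller field -/
theorem exists_lift {K : Type} [Field K] [Algebra ℂ K] {F F0 : IntermediateField ℂ K}
    (hle : F0 ≤ F) (f : F[X]) (hf : ∀ i, (f.coeff i : K) ∈ F0) :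
    ∃ g : F0[X], g.map (inclusion hle : F0 →+* F) = f := by
  have h1 : f ∈ lifts (inclusion hle : F0 →+* F) := by
    rw [lifts_iff_coeff_lifts]
    intro i
    exact ⟨⟨_, hf i⟩, Subtype.ext rfl⟩
  exact h1

theorem Eng.pt {K : Type} [Field K] [Algebra ℂ K] {R : Subalgebra ℂ K} (hR : Eng R)
    {E : Type} [Field E] [Algebra ℂ E] [Algebra K E] [IsScalarTower ℂ K E] {m d : ℕ}
    (y : Fin m → E) (α : E) (hα : IsIntegral (frac R) α)
    (hd : (minpoly (frac R) α).natDegree ≤ d) (hy : ∀ u, y u ∈ (frac R)⟮α⟯)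
    (hne : ∃ u, ¬ IsAlgebraic ℂ (y u)) : GonPt d E y := by
  classical
  have hcz : CharZero K := charZero_of_injective_algebraMap (algebraMap ℂ K).injective
  have hfin : FiniteDimensional (frac R) (frac R)⟮α⟯ := adjoin.finiteDimensional hα
  have hyi : ∀ u, IsIntegral (frac R) (y u) := by
    intro u
    have h1 : IsIntegral (frac R) (⟨y u, hy u⟩ : (frac R)⟮α⟯) := IsIntegral.of_finite _ _
    exact h1.map ((frac R)⟮α⟯).val
  obtain ⟨w, hw⟩ := exists_nat_prim (F := frac R) y fun u => (hyi u).isAlgebraic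
  set θ := ∑ u, (w u : E) * y u with hθ
  have hθα : θ ∈ (frac R)⟮α⟯ :=
    sum_mem fun u _ => mul_mem (_root_.natCast_mem _ (w u)) (hy u)
  have hθi : IsIntegral (frac R) θ := by
    have h1 : IsIntegral (frac R) (⟨θ, hθα⟩ : (frac R)⟮α⟯) := IsIntegral.of_finite _ _
    exact h1.map ((frac R)⟮α⟯).val
  have hθd : (minpoly (frac R) θ).natDegree ≤ d := by
    rw [← adjoin.finrank hθi]
    rw [← adjoin.finrank hα] at hd
    refine le_trans ?_ hd
    exact IntermediateField.finrank_le_of_le_right (adjoin_simple_le_iff.2 hθα)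
  let pb := adjoin.powerBasis hθi
  have hB : ∀ u, ∃ f : (frac R)[X], f.degree < (minpoly (frac R) θ).degree ∧
      aeval θ f = y u := by
    intro u
    obtain ⟨f, hf1, hf2⟩ := pb.exists_eq_aeval ⟨y u, hw u⟩
    refine ⟨f, ?_, ?_⟩
    · have h1 : pb.dim = (minpoly (frac R) θ).natDegree := adjoin.powerBasis_dim hθi
      rw [h1] at hf1
      exact degree_lt_degree hf1
    · have h2 := congrArg (fun x : (frac R)⟮θ⟯ => (x : E)) hf2
      have h3 : ((aeval pb.gen f : (frac R)⟮θ⟯) : E) = aeval θ f := by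
        have h4 := aeval_algebraMap_apply E pb.gen f
        have h5 : algebraMap (frac R)⟮θ⟯ E pb.gen = θ := by
          rw [adjoin.powerBasis_gen, AdjoinSimple.algebraMap_gen]
        rw [h5] at h4
        exact h4.symm
      rw [← h3]
      exact h2.symm
  choose B hBd hBe using hB
  let N := (minpoly (frac R) θ).natDegree + 1
  let t : Finset K := (Finset.range N).image (fun i => ((minpoly (frac R) θ).coeff i : K)) ∪
    Finset.univ.biUnion fun u => (Finset.range N).image fun i => ((B u).coeff i : K)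
  have hm0 : minpoly (frac R) θ ≠ 0 := minpoly.ne_zero hθi
  have hBN : ∀ u i, N ≤ i → (B u).coeff i = 0 := by
    intro u i hi
    refine coeff_eq_zero_of_degree_lt ((hBd u).trans_le ?_)
    rw [degree_eq_natDegree hm0]
    exact_mod_cast (by omega : (minpoly (frac R) θ).natDegree ≤ i)
  have hmN : ∀ i, N ≤ i → (minpoly (frac R) θ).coeff i = 0 := by
    intro i hi
    exact coeff_eq_zero_of_natDegree_lt (by omega)
  have htm : ∀ i, ((minpoly (frac R) θ).coeff i : K) ∈ t ∨
      (minpoly (frac R) θ).coeff i = 0 := by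
    intro i
    by_cases hi : i < N
    · left
      exact Finset.mem_union_left _ (Finset.mem_image.2 ⟨i, Finset.mem_range.2 hi, rfl⟩)
    · right
      exact hmN i (not_lt.1 hi)
  have htB : ∀ u i, ((B u).coeff i : K) ∈ t ∨ (B u).coeff i = 0 := by
    intro u i
    by_cases hi : i < N
    · left
      exact Finset.mem_union_right _ (Finset.mem_biUnion.2 ⟨u, Finset.mem_univ u,
        Finset.mem_image.2 ⟨i, Finset.mem_range.2 hi, rfl⟩⟩)
    · right
      exact hBN u i (not_lt.1 hi)
  have htF : ∀ x ∈ t, x ∈ frac R := by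
    intro x hx
    rcases Finset.mem_union.1 hx with h | h
    · obtain ⟨i, -, rfl⟩ := Finset.mem_image.1 h
      exact ((minpoly (frac R) θ).coeff i).2
    · obtain ⟨u, -, h⟩ := Finset.mem_biUnion.1 h
      obtain ⟨i, -, rfl⟩ := Finset.mem_image.1 h
      exact ((B u).coeff i).2
  -- not all coefficients are constant
  have hnc : ∃ x ∈ t, ¬ IsAlgebraic (⊥ : Subalgebra ℂ K) x := by
    by_contra hcon
    push Not at hcon
    have hcm : ∀ i, ∃ c : ℂ, (minpoly (frac R) θ).coeff i = algebraMap ℂ (frac R) c := by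
      intro i
      rcases htm i with h | h
      · obtain ⟨c, hc⟩ := const_of_alg (hcon _ h)
        exact ⟨c, Subtype.ext hc⟩
      · exact ⟨0, by rw [h, map_zero]⟩
    have hcB : ∀ u i, ∃ c : ℂ, (B u).coeff i = algebraMap ℂ (frac R) c := by
      intro u i
      rcases htB u i with h | h
      · obtain ⟨c, hc⟩ := const_of_alg (hcon _ h)
        exact ⟨c, Subtype.ext hc⟩
      · exact ⟨0, by rw [h, map_zero]⟩
    have h1 : IsAlgebraic ℂ θ := by
      have h2 : minpoly (frac R) θ ∈ lifts (algebraMap ℂ (frac R)) := by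
        rw [lifts_iff_coeff_lifts]
        intro i
        obtain ⟨c, hc⟩ := hcm i
        exact ⟨c, hc.symm⟩
      obtain ⟨q, hq⟩ := h2
      refine ⟨q, ?_, ?_⟩
      · rintro rfl
        apply hm0
        rw [← hq]
        exact Polynomial.map_zero _
      · have h3 := minpoly.aeval (frac R) θ
        rw [← hq] at h3
        change aeval θ (q.map (algebraMap ℂ (frac R))) = 0 at h3
        rwa [aeval_map_algebraMap] at h3
    obtain ⟨u, hu⟩ := hne
    apply hu
    have h2 : B u ∈ lifts (algebraMap ℂ (frac R)) := by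
      rw [lifts_iff_coeff_lifts]
      intro i
      obtain ⟨c, hc⟩ := hcB u i
      exact ⟨c, hc.symm⟩
    obtain ⟨q, hq⟩ := h2
    have h3 : y u = aeval θ q := by
      rw [← hBe u, ← hq]
      change aeval θ (q.map (algebraMap ℂ (frac R))) = _
      rw [aeval_map_algebraMap]
    rw [h3]
    have h4 : IsIntegral ℂ (aeval θ q) := by
      have h5 : aeval θ q ∈ ℂ⟮θ⟯ := algebra_adjoin_le_adjoin ℂ {θ} (aeval_mem_adjoin_singleton _ _)
      have h6 : FiniteDimensional ℂ ℂ⟮θ⟯ := adjoin.finiteDimensional h1.isIntegral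
      have h7 : IsIntegral ℂ (⟨aeval θ q, h5⟩ : ℂ⟮θ⟯) := IsIntegral.of_finite _ _
      exact h7.map (ℂ⟮θ⟯).val
    exact h4.isAlgebraic
  obtain ⟨S0, M, i1, i2, φ, hS0, ht0, -, ⟨z, hz, hzc⟩, -⟩ := hR t htF hnc
  have hle : frac S0 ≤ frac R := fun x hx => frac_mono hS0 hx
  obtain ⟨p, hp⟩ := exists_lift hle (minpoly (frac R) θ) fun i => by
    rcases htm i with h | h
    · exact ht0 _ h
    · rw [h]
      exact zero_mem _
  have hBl : ∀ u, ∃ g : (frac S0)[X], g.map (inclusion hle : frac S0 →+* frac R) = B u := fun u =>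
    exists_lift hle (B u) fun i => by
      rcases htB u i with h | h
      · exact ht0 _ h
      · rw [h]
        exact zero_mem _
  choose B0 hB0 using hBl
  let iA : Algebra (frac S0) (frac R) := (inclusion hle : frac S0 →+* frac R).toAlgebra
  have iT : IsScalarTower (frac S0) (frac R) E := IsScalarTower.of_algebraMap_eq fun x => rfl
  have hpm : p.Monic := by
    have h1 := minpoly.monic hθi
    rw [← hp] at h1
    exact monic_of_injective (inclusion hle : frac S0 →+* frac R).injective h1
  have hae : ∀ g : (frac S0)[X], aeval θ g =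
      aeval θ (g.map (inclusion hle : frac S0 →+* frac R)) := fun g =>
    (aeval_map_algebraMap (frac R) θ g).symm
  have hc0 : CharZero (frac S0) := charZero_of_injective_algebraMap
    (algebraMap ℂ (frac S0)).injective
  have hdm : ∀ g : (frac S0)[X], (g.map (inclusion hle : frac S0 →+* frac R)).degree = g.degree :=
    fun g => degree_map _ _
  obtain ⟨Ψ, h1, ⟨θ', h2, h3, h4⟩, h5, u, h6⟩ := transport (F0 := frac S0) (F := frac R)
    (φ : frac S0 →+* RatFunc M) y w hθ p hpm hp hθi B0
    (fun u => by rw [hae, hB0, hBe]) (fun u => by rw [← hdm, ← hdm, hB0, hp]; exact hBd u) (by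
      rcases Finset.mem_union.1 hz with h | h
      · obtain ⟨i, -, hi⟩ := Finset.mem_image.1 h
        left
        refine ⟨i, fun c hc => hzc c ?_⟩
        have h7 : p.coeff i = z := by
          apply Subtype.ext
          rw [← hi, ← hp, coeff_map]
          rfl
        rw [h7] at hc
        exact hc
      · obtain ⟨u, -, h⟩ := Finset.mem_biUnion.1 h
        obtain ⟨i, -, hi⟩ := Finset.mem_image.1 h
        right
        refine ⟨u, i, fun c hc => hzc c ?_⟩
        have h7 : (B0 u).coeff i = z := by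
          apply Subtype.ext
          rw [← hi, ← hB0, coeff_map]
          rfl
        rw [h7] at hc
        exact hc)
  refine ⟨M, i1, i2, fun u => Ψ ⟨y u, h5 u⟩, θ', h2, ?_, fun u => h4 _, ?_, u, h6 (h5 u)⟩
  · refine h3.trans ?_
    have h7 : p.natDegree = (minpoly (frac R) θ).natDegree := by
      rw [← hp]
      exact (natDegree_map _).symm
    rw [h7]
    exact hθd
  · intro G
    have h7 : (algebraMap ℂ (AlgebraicClosure (RatFunc M))) =
        Ψ.comp ((algebraMap (frac S0) (frac S0)⟮θ⟯).comp (algebraMap ℂ (frac S0))) := by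
      ext c
      rw [RingHom.comp_apply, RingHom.comp_apply, h1]
      change _ = algebraMap (RatFunc M) _ (φ (algebraMap ℂ (frac S0) c))
      rw [AlgHom.commutes, IsScalarTower.algebraMap_apply ℂ (RatFunc M)
        (AlgebraicClosure (RatFunc M))]
    have h8 : MvPolynomial.aeval (fun u => Ψ ⟨y u, h5 u⟩) G =
        Ψ (MvPolynomial.eval₂ ((algebraMap (frac S0) (frac S0)⟮θ⟯).comp
          (algebraMap ℂ (frac S0))) (fun u => (⟨y u, h5 u⟩ : (frac S0)⟮θ⟯)) G) := by
      rw [MvPolynomial.aeval_def, h7]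
      exact (MvPolynomial.eval₂_comp_left Ψ _ _ G).symm
    rw [h8, map_eq_zero_iff Ψ Ψ.injective]
    have h9 : ((MvPolynomial.eval₂ ((algebraMap (frac S0) (frac S0)⟮θ⟯).comp
          (algebraMap ℂ (frac S0))) (fun u => (⟨y u, h5 u⟩ : (frac S0)⟮θ⟯)) G : (frac S0)⟮θ⟯) : E) =
        MvPolynomial.aeval y G := by
      have h10 := MvPolynomial.eval₂_comp_left (algebraMap (frac S0)⟮θ⟯ E)
        ((algebraMap (frac S0) (frac S0)⟮θ⟯).comp (algebraMap ℂ (frac S0)))
        (fun u => (⟨y u, h5 u⟩ : (frac S0)⟮θ⟯)) G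
      refine Eq.trans h10 ?_
      rw [MvPolynomial.aeval_def]
      congr 1
      ext c
      exact (IsScalarTower.algebraMap_apply ℂ K E c).symm
    rw [← h9]
    exact ⟨fun h => by rw [h]; rfl, fun h => Subtype.ext h⟩

end Pool.Agent.Q1.BD
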