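import Pool.Agent.Q1.BD.SpecB
import Pool.Agent.Q1.SL.Key

/-!
Transfer of curves of bounded gonality from the limit.
-/

set_option autoImplicit false

namespace Pool.Agent.Q1.BD

open Filter Polynomial Pool.Agent.Q1.SL

variable {θ : (ℕ → ℂ) →+* ℂ}

/-- the evaluation of sequences -/
abbrev evs (i : ℕ) : (ℕ → ℂ) →+* ℂ := Pi.evalRingHom (fun _ : ℕ => ℂ) i

theorem los1 (hk : ∀ c : ℕ → ℂ, θ c = 0 ↔ ∀ᶠ i in (hyperfilter ℕ : Filter ℕ), c i = 0)
    {R : (ℕ → ℂ)[X]} (h : R.map θ = 0) :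
    ∀ᶠ i in (hyperfilter ℕ : Filter ℕ), R.map (evs i) = 0 := by
  have h1 : ∀ᶠ i in (hyperfilter ℕ : Filter ℕ), ∀ a ∈ R.support, R.coeff a i = 0 := by
    rw [Filter.eventually_all_finset]
    intro a _
    rw [← hk, ← coeff_map, h, coeff_zero]
  filter_upwards [h1] with i hi
  ext a
  rw [coeff_map, coeff_zero]
  by_cases ha : a ∈ R.support
  · exact hi a ha
  · rw [notMem_support_iff.1 ha, map_zero]

theorem los2 (hk : ∀ c : ℕ → ℂ, θ c = 0 ↔ ∀ᶠ i in (hyperfilter ℕ : Filter ℕ), c i = 0)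
    {R : (ℕ → ℂ)[X][X]} (h : R.map (mapRingHom θ) = 0) :
    ∀ᶠ i in (hyperfilter ℕ : Filter ℕ), R.map (mapRingHom (evs i)) = 0 := by
  have h1 : ∀ᶠ i in (hyperfilter ℕ : Filter ℕ), ∀ a ∈ R.support,
      (R.coeff a).map (evs i) = 0 := by
    rw [Filter.eventually_all_finset]
    intro a _
    apply los1 hk
    have h2 := congrArg (fun x => x.coeff a) h
    simp only [coeff_map, coeff_zero, coe_mapRingHom] at h2
    exact h2
  filter_upwards [h1] with i hi
  ext1 a
  rw [coeff_map, coeff_zero, coe_mapRingHom]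
  by_cases ha : a ∈ R.support
  · exact hi a ha
  · rw [notMem_support_iff.1 ha, Polynomial.map_zero]

theorem los_ne (hk : ∀ c : ℕ → ℂ, θ c = 0 ↔ ∀ᶠ i in (hyperfilter ℕ : Filter ℕ), c i = 0)
    {R : (ℕ → ℂ)[X]} (h : R.map θ ≠ 0) :
    ∀ᶠ i in (hyperfilter ℕ : Filter ℕ), R.map (evs i) ≠ 0 := by
  obtain ⟨a, ha⟩ : ∃ a, θ (R.coeff a) ≠ 0 := by
    by_contra hcon
    push Not at hcon
    exact h (Polynomial.ext fun a => by rw [coeff_map, hcon a, coeff_zero])
  have h1 : ∀ᶠ i in (hyperfilter ℕ : Filter ℕ), R.coeff a i ≠ 0 := by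
    have h2 : ¬ ∀ᶠ i in (hyperfilter ℕ : Filter ℕ), R.coeff a i = 0 := fun h3 => ha ((hk _).2 h3)
    exact Ultrafilter.eventually_not.2 h2
  filter_upwards [h1] with i hi h0
  apply hi
  have h2 := congrArg (fun x => x.coeff a) h0
  simp only [coeff_map, coeff_zero] at h2
  exact h2

/-- lifts of polynomials -/
theorem exists_lift1 (hs : Function.Surjective θ) (p : ℂ[X]) :
    ∃ q : (ℕ → ℂ)[X], q.map θ = p ∧ q.natDegree ≤ p.natDegree := by
  choose σ hσ using hs
  refine ⟨∑ a ∈ Finset.range (p.natDegree + 1), C (σ (p.coeff a)) * X ^ a, ?_, ?_⟩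
  · rw [Polynomial.map_sum]
    conv_rhs => rw [p.as_sum_range_C_mul_X_pow]
    refine Finset.sum_congr rfl fun a _ => ?_
    rw [Polynomial.map_mul, Polynomial.map_C, Polynomial.map_pow, Polynomial.map_X, hσ]
  · refine natDegree_sum_le_of_forall_le _ _ fun a ha => ?_
    have := Finset.mem_range.1 ha
    exact (natDegree_C_mul_X_pow_le _ _).trans (by omega)

theorem exists_lift2 (hs : Function.Surjective θ) (p : ℂ[X][X]) :
    ∃ q : (ℕ → ℂ)[X][X], q.map (mapRingHom θ) = p := by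
  obtain ⟨q, hq⟩ := Polynomial.map_surjective (mapRingHom θ)
    (Polynomial.map_surjective θ hs) p
  exact ⟨q, hq⟩

/-- the values of forms under homomorphisms of the coefficients -/
theorem fp_mapS {A B : Type} [CommRing A] [CommRing B] {n d : ℕ} (φ : A →+* B)
    (v : Jx n d → A[X]) (F : MvPolynomial (Fin (n + 1)) A) :
    (MvPolynomial.aeval (NumP v) F).map (mapRingHom φ) =
      MvPolynomial.aeval (NumP fun q => (v q).map φ) (MvPolynomial.map φ F) := by
  have h1 := MvPolynomial.eval₂_comp_left (mapRingHom (mapRingHom φ)) (algebraMap A A[X][X])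
    (NumP v) F
  rw [MvPolynomial.aeval_def, MvPolynomial.aeval_def, MvPolynomial.eval₂_map]
  refine h1.trans ?_
  congr 1
  · refine RingHom.ext fun a => ?_
    change (mapRingHom (mapRingHom φ)) (C (C a)) = C (C (φ a))
    rw [coe_mapRingHom, Polynomial.map_C, coe_mapRingHom, Polynomial.map_C]
  · funext j
    exact numP_map (mapRingHom φ) v j

/-- the form with sequences as coefficients -/
noncomputable def seqF {N : ℕ} (T : Finset (Fin N →₀ ℕ)) (F : ℕ → MvPolynomial (Fin N) ℂ) :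
    MvPolynomial (Fin N) (ℕ → ℂ) :=
  ∑ m ∈ T, MvPolynomial.monomial m fun i => (F i).coeff m

theorem seqF_theta {N : ℕ} (T : Finset (Fin N →₀ ℕ)) (F : ℕ → MvPolynomial (Fin N) ℂ) :
    MvPolynomial.map θ (seqF T F) = limT θ T F := by
  unfold seqF limT
  rw [map_sum]
  exact Finset.sum_congr rfl fun m _ => MvPolynomial.map_monomial _ _ _

theorem seqF_ev {N : ℕ} {T : Finset (Fin N →₀ ℕ)} {F : ℕ → MvPolynomial (Fin N) ℂ} {i : ℕ}
    (hi : (F i).support ⊆ T) : MvPolynomial.map (evs i) (seqF T F) = F i := by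
  classical
  unfold seqF
  rw [map_sum]
  conv_rhs => rw [(F i).as_sum]
  rw [← Finset.sum_subset hi (fun m _ hm => by
    rw [MvPolynomial.map_monomial]
    change MvPolynomial.monomial m ((F i).coeff m) = 0
    rw [MvPolynomial.notMem_support_iff.1 hm, map_zero])]
  exact Finset.sum_congr rfl fun m _ => MvPolynomial.map_monomial _ _ _

/-- **Transfer of curves of bounded gonality.** -/
theorem los_gon (hs : Function.Surjective θ)
    (hk : ∀ c : ℕ → ℂ, θ c = 0 ↔ ∀ᶠ i in (hyperfilter ℕ : Filter ℕ), c i = 0) {n d : ℕ}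
    (p' : Jx n d → ℂ[X]) {T : Finset (Fin (n + 1) →₀ ℕ)}
    {S : ℕ → Set (MvPolynomial (Fin (n + 1)) ℂ)} (hST : ∀ i, ∀ F ∈ S i, F.support ⊆ T)
    (hS : ∀ F : ℕ → MvPolynomial (Fin (n + 1)) ℂ,
      (∀ᶠ i in (hyperfilter ℕ : Filter ℕ), F i ∈ S i) →
        Pol p' ∣ MvPolynomial.aeval (NumP p') (limT θ T F))
    {G : ℕ → MvPolynomial (Fin (n + 1)) ℂ}
    (hGT : ∀ᶠ i in (hyperfilter ℕ : Filter ℕ), (G i).support ⊆ T) {u v : Fin (n + 1)}
    (hG : GonId p' (limT θ T G) u v) :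
    ∀ᶠ i in (hyperfilter ℕ : Filter ℕ), ∃ p : Jx n d → ℂ[X],
      (∀ q, (p q).natDegree ≤ (p' q).natDegree) ∧
      (∀ F ∈ S i, Pol p ∣ MvPolynomial.aeval (NumP p) F) ∧ GonId p (G i) u v := by
  classical
  choose pA hpA hpd using fun q => exists_lift1 hs (p' q)
  let ph : ℕ → Jx n d → ℂ[X] := fun i q => (pA q).map (evs i)
  have hpA' : (fun q => (pA q).map θ) = p' := funext hpA
  have hpol1 : (Pol pA).map (mapRingHom θ) = Pol p' := by
    rw [pol_map]
    exact congrArg Pol hpA'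
  have hpol2 : ∀ i, (Pol pA).map (mapRingHom (evs i)) = Pol (ph i) := fun i => pol_map _ _
  have hfp1 : ∀ F : MvPolynomial (Fin (n + 1)) (ℕ → ℂ),
      (MvPolynomial.aeval (NumP pA) F).map (mapRingHom θ) =
        MvPolynomial.aeval (NumP p') (MvPolynomial.map θ F) := by
    intro F
    rw [fp_mapS, hpA']
  have hfp2 : ∀ i (F : MvPolynomial (Fin (n + 1)) (ℕ → ℂ)),
      (MvPolynomial.aeval (NumP pA) F).map (mapRingHom (evs i)) =
        MvPolynomial.aeval (NumP (ph i)) (MvPolynomial.map (evs i) F) := fun i F => fp_mapS _ _ _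
  have hdvd : ∀ g : (ℕ → ℂ)[X][X], Pol p' ∣ g.map (mapRingHom θ) →
      ∀ᶠ i in (hyperfilter ℕ : Filter ℕ), Pol (ph i) ∣ g.map (mapRingHom (evs i)) := by
    intro g hg
    have h1 : (g %ₘ Pol pA).map (mapRingHom θ) = 0 := by
      rw [map_modByMonic _ (pol_monic pA), hpol1]
      exact (modByMonic_eq_zero_iff_dvd (pol_monic p')).2 hg
    filter_upwards [los2 hk h1] with i hi
    rw [map_modByMonic _ (pol_monic pA), hpol2] at hi
    exact (modByMonic_eq_zero_iff_dvd (pol_monic (ph i))).1 hi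
  -- the forms
  have e1 : ∀ᶠ i in (hyperfilter ℕ : Filter ℕ), ∀ F ∈ S i,
      Pol (ph i) ∣ MvPolynomial.aeval (NumP (ph i)) F := by
    by_contra hcon
    rw [← Ultrafilter.eventually_not] at hcon
    have h1 : ∀ i, ∃ F : MvPolynomial (Fin (n + 1)) ℂ,
        (¬ ∀ F ∈ S i, Pol (ph i) ∣ MvPolynomial.aeval (NumP (ph i)) F) →
          F ∈ S i ∧ ¬ Pol (ph i) ∣ MvPolynomial.aeval (NumP (ph i)) F := by
      intro i
      by_cases h2 : ∀ F ∈ S i, Pol (ph i) ∣ MvPolynomial.aeval (NumP (ph i)) F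
      · exact ⟨0, fun h3 => absurd h2 h3⟩
      · have h3 := h2
        push Not at h3
        obtain ⟨F, hF1, hF2⟩ := h3
        exact ⟨F, fun _ => ⟨hF1, hF2⟩⟩
    choose F hF using h1
    have hFS : ∀ᶠ i in (hyperfilter ℕ : Filter ℕ), F i ∈ S i := by
      filter_upwards [hcon] with i hi
      exact (hF i hi).1
    have h2 := hdvd (MvPolynomial.aeval (NumP pA) (seqF T F)) (by
      rw [hfp1, seqF_theta]
      exact hS F hFS)
    obtain ⟨i, ⟨h3, h4⟩, h5⟩ := ((h2.and hcon).and hFS).exists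
    apply (hF i h4).2
    rwa [hfp2, seqF_ev (hST i _ h5)] at h3
  obtain ⟨⟨U, V, r, hr, hid⟩, N, m, s, a, hsm, has, hW⟩ := hG
  -- Bezout
  obtain ⟨UA, hUA⟩ := exists_lift2 hs U
  obtain ⟨VA, hVA⟩ := exists_lift2 hs V
  obtain ⟨rA, hrA, -⟩ := exists_lift1 hs r
  have e2 : ∀ᶠ i in (hyperfilter ℕ : Filter ℕ), (UA * Pol pA +
      VA * MvPolynomial.aeval (NumP pA) (seqF T G * MvPolynomial.X v) - C rA).map
        (mapRingHom (evs i)) = 0 := by
    apply los2 hk
    rw [Polynomial.map_sub, Polynomial.map_add, Polynomial.map_mul, Polynomial.map_mul, hUA, hVA,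
      hpol1, hfp1, map_mul, seqF_theta, MvPolynomial.map_X, hid, Polynomial.map_C, coe_mapRingHom,
      hrA, sub_self]
  have e3 : ∀ᶠ i in (hyperfilter ℕ : Filter ℕ), rA.map (evs i) ≠ 0 := by
    apply los_ne hk
    rw [hrA]
    exact hr
  -- the relation
  choose sA hsA hsd using fun i => exists_lift1 hs (s i)
  choose aA haA _ using fun i => exists_lift1 hs (a i)
  have e4 : ∀ᶠ i in (hyperfilter ℕ : Filter ℕ), ((∑ j, aA j * sA j) - 1).map (evs i) = 0 := by
    apply los1 hk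
    rw [Polynomial.map_sub, Polynomial.map_sum, Polynomial.map_one, ← has, sub_eq_zero]
    exact Finset.sum_congr rfl fun j _ => by rw [Polynomial.map_mul, haA, hsA]
  have e5 := hdvd (WW m pA sA u v) (by
    rw [ww_map, hpA']
    have h1 : (fun i => (sA i).map θ) = s := funext hsA
    rw [h1]
    exact hW)
  filter_upwards [e1, e2, e3, e4, e5, hGT] with i h1 h2 h3 h4 h5 h6
  refine ⟨ph i, fun q => natDegree_map_le.trans (hpd q), h1,
    ⟨UA.map (mapRingHom (evs i)), VA.map (mapRingHom (evs i)), rA.map (evs i), h3, ?_⟩,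
    N, m, fun j => (sA j).map (evs i), fun j => (aA j).map (evs i), fun j =>
      natDegree_map_le.trans ((hsd j).trans (hsm j)), ?_, ?_⟩
  · rw [Polynomial.map_sub, sub_eq_zero, Polynomial.map_add, Polynomial.map_mul,
      Polynomial.map_mul, hpol2, hfp2, map_mul, seqF_ev h6, MvPolynomial.map_X,
      Polynomial.map_C, coe_mapRingHom] at h2
    exact h2
  · rw [Polynomial.map_sub, sub_eq_zero, Polynomial.map_sum, Polynomial.map_one] at h4
    rw [← h4]
    exact Finset.sum_congr rfl fun j _ => by rw [Polynomial.map_mul]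
  · rw [ww_map] at h5
    exact h5

end Pool.Agent.Q1.BD
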