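import Pool.Agent.Q1.BD.Root

/-!
Models over polynomial rings of points of bounded degree over a field of rational functions.
-/

set_option autoImplicit false

namespace Pool.Agent.Q1.BD

open Polynomial IntermediateField

/-- **A model of a point over an extension of degree at most `d` of `M(t)`.** -/
theorem exists_model {M Ω : Type} [Field M] [Field Ω] [Algebra (RatFunc M) Ω] [Algebra M[X] Ω]
    [IsScalarTower M[X] (RatFunc M) Ω] [Algebra.IsAlgebraic (RatFunc M) Ω] {n d : ℕ} {θ : Ω}
    {y : Fin (n + 1) → Ω}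
    (hd : (minpoly (RatFunc M) θ).natDegree ≤ d) (hy : ∀ u, y u ∈ (RatFunc M)⟮θ⟯) :
    ∃ d' ≤ d, ∃ (p : Jx n d' → M[X]) (η c : Ω), c ≠ 0 ∧
      IsIntegral M[X] η ∧ Pol p = minpoly M[X] η ∧
      ∀ u, Num (fun q => algebraMap M[X] Ω (p q)) η u = c * y u := by
  classical
  have hinj : Function.Injective (algebraMap M[X] Ω) := by
    rw [IsScalarTower.algebraMap_eq M[X] (RatFunc M) Ω, RingHom.coe_comp]
    exact (algebraMap (RatFunc M) Ω).injective.comp (IsFractionRing.injective M[X] (RatFunc M))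
  have hθi : IsIntegral (RatFunc M) θ := Algebra.IsIntegral.isIntegral θ
  have hθa : IsAlgebraic M[X] θ :=
    (IsFractionRing.isAlgebraic_iff M[X] (RatFunc M) Ω).2 hθi.isAlgebraic
  obtain ⟨b, hb0, hbi⟩ := hθa.exists_integral_multiple
  set η : Ω := b • θ with hη
  have hbK : (algebraMap M[X] (RatFunc M) b) ≠ 0 := by
    intro h0
    exact hb0 ((IsFractionRing.injective M[X] (RatFunc M)) (h0.trans (map_zero _).symm))
  have hηθ : η = algebraMap (RatFunc M) Ω (algebraMap M[X] (RatFunc M) b) * θ := by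
    rw [hη, Algebra.smul_def, ← IsScalarTower.algebraMap_apply]
  have hηm : η ∈ (RatFunc M)⟮θ⟯ := by
    rw [hηθ]
    exact mul_mem (IntermediateField.algebraMap_mem _ _) (mem_adjoin_simple_self _ _)
  have hθm : θ ∈ (RatFunc M)⟮η⟯ := by
    have h1 : θ = algebraMap (RatFunc M) Ω (algebraMap M[X] (RatFunc M) b)⁻¹ * η := by
      rw [hηθ, ← mul_assoc, ← map_mul, inv_mul_cancel₀ hbK, map_one, one_mul]
    rw [h1]
    exact mul_mem (IntermediateField.algebraMap_mem _ _) (mem_adjoin_simple_self _ _)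
  have hηi : IsIntegral (RatFunc M) η := Algebra.IsIntegral.isIntegral η
  have hfin : FiniteDimensional (RatFunc M) (RatFunc M)⟮θ⟯ := adjoin.finiteDimensional hθi
  have hmp := minpoly.isIntegrallyClosed_eq_field_fractions' (R := M[X]) (RatFunc M) (S := Ω) hbi
  have hdeg : (minpoly M[X] η).natDegree = (minpoly (RatFunc M) η).natDegree := by
    rw [hmp, natDegree_map_eq_of_injective (IsFractionRing.injective M[X] (RatFunc M))]
  have hd' : (minpoly M[X] η).natDegree ≤ d := by
    rw [hdeg, ← adjoin.finrank hηi]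
    rw [← adjoin.finrank hθi] at hd
    exact (IntermediateField.finrank_le_of_le_right (adjoin_simple_le_iff.2 hηm)).trans hd
  let pb := adjoin.powerBasis hηi
  have hB : ∀ u, ∃ f : (RatFunc M)[X], f.natDegree < (minpoly M[X] η).natDegree ∧
      aeval η f = y u := by
    intro u
    have h0 : y u ∈ (RatFunc M)⟮η⟯ := (adjoin_simple_le_iff.2 hθm) (hy u)
    obtain ⟨f, hf1, hf2⟩ := pb.exists_eq_aeval ⟨y u, h0⟩
    refine ⟨f, ?_, ?_⟩
    · have h1 : pb.dim = (minpoly (RatFunc M) η).natDegree := adjoin.powerBasis_dim hηi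
      rw [h1] at hf1
      rw [hdeg]
      exact hf1
    · have h2 := congrArg (fun x : (RatFunc M)⟮η⟯ => (x : Ω)) hf2
      have h3 : ((aeval pb.gen f : (RatFunc M)⟮η⟯) : Ω) = aeval η f := by
        have h4 := aeval_algebraMap_apply Ω pb.gen f
        have h5 : algebraMap (RatFunc M)⟮η⟯ Ω pb.gen = η := by
          rw [adjoin.powerBasis_gen, AdjoinSimple.algebraMap_gen]
        rw [h5] at h4
        exact h4.symm
      rw [← h3]
      exact h2.symm
  choose f hf1 hf2 using hB
  obtain ⟨c, hc⟩ := IsLocalization.exist_integer_multiples_of_finite (nonZeroDivisors M[X])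
    (fun q : Fin (n + 1) × Fin (minpoly M[X] η).natDegree => (f q.1).coeff (q.2 : ℕ))
  choose a ha using hc
  have hc0 : algebraMap M[X] Ω (c : M[X]) ≠ 0 := by
    intro h0
    have h1 : (c : M[X]) = 0 := by
      apply hinj
      rw [h0, map_zero]
    exact nonZeroDivisors.ne_zero c.2 h1
  refine ⟨(minpoly M[X] η).natDegree, hd', fun q => match q with
    | (none, i) => (minpoly M[X] η).coeff i
    | (some u, i) => a (u, i), η, algebraMap M[X] Ω (c : M[X]), hc0, hbi, ?_, fun u => ?_⟩
  · unfold Pol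
    conv_rhs => rw [(minpoly.monic hbi).as_sum]
    rw [Finset.sum_range]
  · unfold Num
    rw [← hf2 u, aeval_eq_sum_range' (hf1 u), Finset.mul_sum, Finset.sum_range]
    refine Finset.sum_congr rfl fun i _ => ?_
    have h1 := ha (u, i)
    change algebraMap M[X] Ω (a (u, i)) * η ^ (i : ℕ) = _
    rw [IsScalarTower.algebraMap_apply M[X] (RatFunc M) Ω (a (u, i)), h1, Algebra.smul_def,
      Algebra.smul_def, map_mul, ← IsScalarTower.algebraMap_apply, mul_assoc]

end Pool.Agent.Q1.BD
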