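import Mathlib

/-!
Primitive elements which are combinations with natural coefficients; points over finite extensions
of fields of rational functions.
-/

set_option autoImplicit false

namespace Pool.Agent.Q1.BD

open Polynomial IntermediateField

section prim

variable {F E : Type} [Field F] [CharZero F] [Field E] [Algebra F E]

theorem pair (α β : E) (hα : IsAlgebraic F α) (hβ : IsAlgebraic F β) :
    ∃ c : ℕ, α ∈ F⟮α + c * β⟯ ∧ β ∈ F⟮α + c * β⟯ := by
  classical
  let E1 : IntermediateField F E := adjoin F {α, β}
  have hfin : FiniteDimensional F E1 := by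
    have : ({α, β} : Set E) = ((({α, β} : Finset E)) : Set E) := by simp
    have h2 : FiniteDimensional F (adjoin F ({α, β} : Set E)) := by
      refine finiteDimensional_adjoin ?_
      intro x hx
      rcases hx with rfl | hx
      · exact hα.isIntegral
      · rw [Set.mem_singleton_iff] at hx
        rw [hx]
        exact hβ.isIntegral
    exact h2
  have hf : Finite (IntermediateField F E1) :=
    Field.finite_intermediateField_of_exists_primitive_element F E1
      (Field.exists_primitive_element F E1)
  let a : E1 := ⟨α, subset_adjoin F _ (by simp)⟩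
  let b : E1 := ⟨β, subset_adjoin F _ (by simp)⟩
  obtain ⟨c, c', hcc, hfc⟩ := Finite.exists_ne_map_eq_of_infinite
    fun c : ℕ => (adjoin F {a + c * b} : IntermediateField F E1)
  have hch : CharZero E := charZero_of_injective_algebraMap (algebraMap F E).injective
  have hch1 : CharZero E1 := charZero_of_injective_algebraMap (algebraMap F E1).injective
  have h1 : a + c * b ∈ (adjoin F {a + c * b} : IntermediateField F E1) :=
    mem_adjoin_simple_self F _
  have h2 : a + c' * b ∈ (adjoin F {a + c * b} : IntermediateField F E1) := by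
    have h3 : a + c' * b ∈ (adjoin F {a + c' * b} : IntermediateField F E1) :=
      mem_adjoin_simple_self F _
    have h4 : (adjoin F {a + c * b} : IntermediateField F E1) = adjoin F {a + c' * b} := hfc
    rwa [h4]
  have hb : b ∈ (adjoin F {a + c * b} : IntermediateField F E1) := by
    have h3 : ((c : E1) - c') * b ∈ (adjoin F {a + c * b} : IntermediateField F E1) := by
      have h4 := sub_mem h1 h2
      have h5 : a + c * b - (a + c' * b) = ((c : E1) - c') * b := by ring
      rwa [h5] at h4
    have hne : ((c : E1) - c') ≠ 0 := sub_ne_zero.2 (by exact_mod_cast hcc)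
    have h6 : ((c : E1) - c')⁻¹ * (((c : E1) - c') * b) = b := by
      rw [← mul_assoc, inv_mul_cancel₀ hne, one_mul]
    have h7 := mul_mem (inv_mem (sub_mem (_root_.natCast_mem
      (adjoin F {a + c * b} : IntermediateField F E1) c) (_root_.natCast_mem _ c'))) h3
    rwa [h6] at h7
  have ha : a ∈ (adjoin F {a + c * b} : IntermediateField F E1) := by
    have h3 : a = a + c * b - c * b := by ring
    have h4 := sub_mem h1 (mul_mem (_root_.natCast_mem _ c) hb)
    rw [← h3] at h4
    exact h4
  have hmap : (adjoin F {a + c * b} : IntermediateField F E1).map E1.val =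
      adjoin F {α + c * β} := by
    rw [adjoin_map, Set.image_singleton]
    congr 2
  refine ⟨c, ?_, ?_⟩
  · rw [← hmap]
    exact ⟨a, ha, rfl⟩
  · rw [← hmap]
    exact ⟨b, hb, rfl⟩

theorem exists_nat_prim {m : ℕ} (y : Fin m → E) (hy : ∀ u, IsAlgebraic F (y u)) :
    ∃ w : Fin m → ℕ, ∀ u, y u ∈ F⟮∑ u, (w u : E) * y u⟯ := by
  induction m with
  | zero => exact ⟨fun _ => 0, fun u => u.elim0⟩
  | succ m ih =>
    obtain ⟨w, hw⟩ := ih (fun u => y u.castSucc) fun u => hy _
    have hθ : IsAlgebraic F (∑ u, (w u : E) * y (Fin.castSucc u)) := by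
      refine isAlgebraic_iff_isIntegral.2 ?_
      refine IsIntegral.sum _ fun u _ => ?_
      exact (isIntegral_natCast (w u)).mul (hy _).isIntegral
    obtain ⟨c, h1, h2⟩ := pair _ _ hθ (hy (Fin.last m))
    have hs : ∑ u, ((Fin.snoc (α := fun _ => ℕ) w c : Fin (m + 1) → ℕ) u : E) * y u =
        ∑ u, (w u : E) * y (Fin.castSucc u) + c * y (Fin.last m) := by
      rw [Fin.sum_univ_castSucc]
      simp
    refine ⟨Fin.snoc w c, fun u => ?_⟩
    rw [hs]
    induction u using Fin.lastCases with
    | last => exact h2
    | cast u =>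
      have h3 : F⟮∑ u, (w u : E) * y (Fin.castSucc u)⟯ ≤
          F⟮∑ u, (w u : E) * y (Fin.castSucc u) + c * y (Fin.last m)⟯ :=
        adjoin_simple_le_iff.2 h1
      exact h3 (hw u)

end prim

end Pool.Agent.Q1.BD
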