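import Pool.Agent.Q1.BD.Fam
import Pool.Agent.Y377.IR.All

/-!
Points with coordinates polynomials in a root of a polynomial; generic points on a coset.
-/

set_option autoImplicit false

namespace Pool.Agent.Q1.BD

open Polynomial Pool.Agent.Y377.IL Pool.Agent.Y377.IR

/-- the indices of the coefficients of a monic polynomial `P` of degree `d` and of `n + 1`
polynomials of degree less than `d` -/
abbrev Jx (n d : ℕ) : Type := Option (Fin (n + 1)) × Fin d

section defs

variable {A : Type} [CommRing A] {n d : ℕ}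

/-- the monic polynomial of degree `d` -/
noncomputable def Pol (v : Jx n d → A) : A[X] :=
  X ^ d + ∑ i : Fin d, C (v (none, i)) * X ^ (i : ℕ)

/-- the values of the other polynomials -/
def Num (v : Jx n d → A) (α : A) : Fin (n + 1) → A := fun j =>
  ∑ i : Fin d, v (some j, i) * α ^ (i : ℕ)

theorem pol_low (v : Jx n d → A) : (∑ i : Fin d, C (v (none, i)) * X ^ (i : ℕ) : A[X]).degree <
    (d : WithBot ℕ) := by
  refine (degree_sum_le _ _).trans_lt ?_
  refine (Finset.sup_lt_iff (WithBot.bot_lt_coe d)).2 fun i _ => ?_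
  refine (degree_C_mul_X_pow_le _ _).trans_lt ?_
  exact Nat.cast_lt.2 i.2

theorem pol_monic (v : Jx n d → A) : (Pol v).Monic := monic_X_pow_add (pol_low v)

theorem pol_degree [Nontrivial A] (v : Jx n d → A) : (Pol v).natDegree = d := by
  unfold Pol
  rw [natDegree_add_eq_left_of_degree_lt, natDegree_X_pow]
  rw [degree_X_pow]
  exact pol_low v

theorem pol_map {B : Type} [CommRing B] (φ : A →+* B) (v : Jx n d → A) :
    (Pol v).map φ = Pol fun q => φ (v q) := by
  unfold Pol
  simp [Polynomial.map_sum]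

theorem num_map {B : Type} [CommRing B] (φ : A →+* B) (v : Jx n d → A) (α : A) (j : Fin (n + 1)) :
    Num (fun q => φ (v q)) (φ α) j = φ (Num v α j) := by
  unfold Num
  simp [map_sum]

theorem eval_pol (v : Jx n d → A) (α : A) :
    (Pol v).eval α = α ^ d + ∑ i : Fin d, v (none, i) * α ^ (i : ℕ) := by
  unfold Pol
  rw [eval_add, eval_pow, eval_X, eval_finsetSum]
  simp

end defs

/-- the roots with multiplicities -/
theorem exists_roots {E : Type} [Field E] [IsAlgClosed E] {n d : ℕ} (v : Jx n d → E) :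
    ∃ β : Fin d → E, Pol v = ∏ j, (X - C (β j)) := by
  classical
  have h1 := (IsAlgClosed.splits (Pol v)).eq_prod_roots_of_monic (pol_monic v)
  have h2 := (IsAlgClosed.splits (Pol v)).natDegree_eq_card_roots
  rw [pol_degree] at h2
  obtain ⟨l, hl⟩ := Quot.exists_rep (Pol v).roots
  have hl' : (l : Multiset E) = (Pol v).roots := hl
  have h3 : l.length = d := by
    rw [h2, ← hl', Multiset.coe_card]
  subst h3
  refine ⟨fun j => l.get j, ?_⟩
  rw [← hl', Multiset.map_coe, Multiset.prod_coe] at h1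
  rw [h1, ← List.prod_ofFn]
  congr 1
  conv_lhs => rw [← List.ofFn_get l]
  rw [List.map_ofFn]
  rfl

/-- the extension of a point of an integral extension -/
theorem ext_point {A B : Type} [CommRing A] [Algebra ℂ A] [CommRing B] [Algebra ℂ B] [Algebra A B]
    [IsScalarTower ℂ A B] [Algebra.IsIntegral A B] (hinj : Function.Injective (algebraMap A B))
    (f : A →ₐ[ℂ] ℂ) : ∃ g : B →ₐ[ℂ] ℂ, ∀ a, g (algebraMap A B a) = f a := by
  have hsurj : Function.Surjective f := fun c => ⟨algebraMap ℂ A c, f.commutes c⟩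
  have hmax : (RingHom.ker (f : A →+* ℂ)).IsMaximal :=
    RingHom.ker_isMaximal_of_surjective (f : A →+* ℂ) hsurj
  obtain ⟨Q, hQ, hQc⟩ := Ideal.exists_ideal_over_maximal_of_isIntegral (S := B)
    (RingHom.ker (f : A →+* ℂ)) (by
      rw [(RingHom.injective_iff_ker_eq_bot _).1 hinj]
      exact bot_le)
  let _ : Field (B ⧸ Q) := Ideal.Quotient.field Q
  have hval : ∀ a : A, Ideal.Quotient.mk Q (algebraMap A B a) = algebraMap ℂ (B ⧸ Q) (f a) := by
    intro a
    have h1 : a - algebraMap ℂ A (f a) ∈ RingHom.ker (f : A →+* ℂ) := by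
      rw [RingHom.mem_ker, map_sub]
      have h2 : (f : A →+* ℂ) (algebraMap ℂ A (f a)) = f a := f.commutes _
      rw [h2]
      exact sub_self _
    rw [← hQc, Ideal.mem_comap, map_sub, ← IsScalarTower.algebraMap_apply] at h1
    exact (Ideal.Quotient.mk_eq_mk_iff_sub_mem _ _).2 h1
  have hint : Algebra.IsIntegral ℂ (B ⧸ Q) := by
    refine ⟨fun z => ?_⟩
    obtain ⟨b, rfl⟩ := Ideal.Quotient.mk_surjective z
    obtain ⟨p, hp1, hp2⟩ := Algebra.IsIntegral.isIntegral (R := A) b
    refine ⟨p.map (f : A →+* ℂ), hp1.map _, ?_⟩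
    have h1 := congrArg (Ideal.Quotient.mk Q) hp2
    rw [hom_eval₂, map_zero] at h1
    rw [eval₂_map]
    refine Eq.trans ?_ h1
    congr 1
    ext a
    exact (hval a).symm
  have hbij := IsAlgClosed.algebraMap_bijective_of_isIntegral (k := ℂ) (K := B ⧸ Q)
  let e : ℂ ≃ₐ[ℂ] (B ⧸ Q) := AlgEquiv.ofBijective (Algebra.ofId ℂ (B ⧸ Q)) hbij
  refine ⟨(e.symm : (B ⧸ Q) →ₐ[ℂ] ℂ).comp (Ideal.Quotient.mkₐ ℂ Q), fun a => ?_⟩
  change e.symm (Ideal.Quotient.mk Q (algebraMap A B a)) = f a
  rw [hval]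
  exact e.symm_apply_apply (f a)

/-- evaluations on the image of the ring -/
theorem exists_ev {H : Type} [Group H] {R : Subalgebra ℂ (H → ℂ)} {Nn : Subgroup H} {b : H}
    {K : Type} [Field K] [Algebra ℂ K] {Γ : Subgroup (K ≃ₐ[ℂ] K)} {ρ : R →ₐ[ℂ] K}
    (hρ : Res R Nn b K Γ ρ) {h : H} (hh : h * b⁻¹ ∈ Nn) :
    ∃ f : ρ.range →ₐ[ℂ] ℂ, ∀ (r : R) (h0 : ρ r ∈ ρ.range), f ⟨ρ r, h0⟩ = (r : H → ℂ) h := by
  classical
  have hch : ∀ z : ρ.range, ∃ r : R, ρ r = z := fun z => z.2
  choose s hs using hch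
  have hker : ∀ r r' : R, ρ r = ρ r' → (r : H → ℂ) h = (r' : H → ℂ) h := by
    intro r r' hrr
    have h1 : ρ (r - r') = 0 := by rw [map_sub, hrr, sub_self]
    have h2 := (hρ.ker _).1 h1 _ hh
    rw [inv_mul_cancel_right] at h2
    exact sub_eq_zero.1 h2
  refine ⟨{ toFun := fun z => (s z : H → ℂ) h
            map_one' := ?_
            map_mul' := ?_
            map_zero' := ?_
            map_add' := ?_
            commutes' := ?_ }, fun r h0 => hker _ _ (hs _)⟩
  · exact hker (s 1) 1 ((hs 1).trans (map_one ρ).symm)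
  · intro z z'
    exact hker (s (z * z')) (s z * s z') (by rw [hs, map_mul, hs, hs]; rfl)
  · exact hker (s 0) 0 ((hs 0).trans (map_zero ρ).symm)
  · intro z z'
    exact hker (s (z + z')) (s z + s z') (by rw [hs, map_add, hs, hs]; rfl)
  · intro c
    exact hker (s (algebraMap ℂ _ c)) (algebraMap ℂ _ c) (by rw [hs, AlgHom.commutes]; rfl)

end Pool.Agent.Q1.BD
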