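import Pool.Agent.Q1.BD.Model
import Pool.Agent.Q1.SL.Spec

/-!
Tools for the specialization of points of bounded degree.
-/

set_option autoImplicit false

namespace Pool.Agent.Q1.BD

open Polynomial

section numP

variable {A : Type} [CommRing A] {n d : ℕ}

/-- the polynomials with the values `Num` -/
noncomputable def NumP (v : Jx n d → A) : Fin (n + 1) → A[X] := fun j =>
  ∑ i : Fin d, C (v (some j, i)) * X ^ (i : ℕ)

theorem numP_eval (v : Jx n d → A) (α : A) (j : Fin (n + 1)) : (NumP v j).eval α = Num v α j := by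
  unfold NumP Num
  rw [eval_finsetSum]
  simp

theorem numP_map {B : Type} [CommRing B] (φ : A →+* B) (v : Jx n d → A) (j : Fin (n + 1)) :
    (NumP v j).map φ = NumP (fun q => φ (v q)) j := by
  unfold NumP
  simp [Polynomial.map_sum]

theorem numP_aeval {B : Type} [CommRing B] [Algebra A B] (v : Jx n d → A) (α : B)
    (j : Fin (n + 1)) : aeval α (NumP v j) = Num (fun q => algebraMap A B (v q)) α j := by
  rw [← numP_eval, ← numP_map, eval_map, aeval_def]

theorem fp_aeval {k B : Type} [CommRing k] [Algebra k A] [CommRing B] [Algebra A B] [Algebra k B]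
    [IsScalarTower k A B] (v : Jx n d → A) (α : B) (F : MvPolynomial (Fin (n + 1)) k) :
    aeval α (MvPolynomial.aeval (NumP v) F) =
      MvPolynomial.aeval (Num (fun q => algebraMap A B (v q)) α) F := by
  have h1 := MvPolynomial.comp_aeval_apply (f := NumP v) ((aeval α : A[X] →ₐ[A] B).restrictScalars k) F
  refine h1.trans ?_
  congr 2
  funext j
  exact numP_aeval v α j

theorem fp_map {k B : Type} [CommRing k] [Algebra k A] [CommRing B] [Algebra k B]
    (φ : A →ₐ[k] B) (v : Jx n d → A) (F : MvPolynomial (Fin (n + 1)) k) :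
    (MvPolynomial.aeval (NumP v) F).map (φ : A →+* B) =
      MvPolynomial.aeval (NumP fun q => φ (v q)) F := by
  have h1 := MvPolynomial.comp_aeval_apply (f := NumP v) (Polynomial.mapAlgHom φ) F
  refine h1.trans ?_
  congr 2
  funext j
  exact numP_map (φ : A →+* B) v j

end numP

/-- **Bezout's identity over the ring.** -/
theorem exists_bezout {R K Ω : Type} [CommRing R] [IsDomain R] [IsIntegrallyClosed R] [Field K]
    [Algebra R K] [IsFractionRing R K] [Field Ω] [Algebra K Ω] [Algebra R Ω] [IsScalarTower R K Ω]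
    {η : Ω} (hint : IsIntegral R η) (g : R[X]) (hg : aeval η g ≠ 0) :
    ∃ (U V : R[X]) (r : R), r ≠ 0 ∧ U * minpoly R η + V * g = C r := by
  have hinj : Function.Injective (algebraMap R K) := IsFractionRing.injective R K
  have hKi : IsIntegral K η := hint.tower_top
  have hmp := minpoly.isIntegrallyClosed_eq_field_fractions' (R := R) K (S := Ω) hint
  have h1 : ¬ minpoly K η ∣ g.map (algebraMap R K) := by
    rintro ⟨q, hq⟩
    apply hg
    rw [← aeval_map_algebraMap K, hq, map_mul, minpoly.aeval, zero_mul]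
  obtain ⟨a, b, hab⟩ := ((minpoly.irreducible hKi).coprime_iff_not_dvd).2 h1
  obtain ⟨r1, hr1, h2⟩ := IsLocalization.integerNormalization_spec (nonZeroDivisors R) a
  obtain ⟨r2, hr2, h3⟩ := IsLocalization.integerNormalization_spec (nonZeroDivisors R) b
  refine ⟨C r2 * IsLocalization.integerNormalization (nonZeroDivisors R) a,
    C r1 * IsLocalization.integerNormalization (nonZeroDivisors R) b, r1 * r2,
    mul_ne_zero (nonZeroDivisors.ne_zero hr1) (nonZeroDivisors.ne_zero hr2), ?_⟩
  apply Polynomial.map_injective _ hinj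
  rw [Polynomial.map_add, Polynomial.map_mul, Polynomial.map_mul, Polynomial.map_mul,
    Polynomial.map_mul, h2, h3, ← hmp, Polynomial.map_C, Polynomial.map_C, Polynomial.map_C,
    Algebra.smul_def, Algebra.smul_def, map_mul, C_mul]
  have e1 : (algebraMap R K[X]) r1 = C (algebraMap R K r1) := rfl
  have e2 : (algebraMap R K[X]) r2 = C (algebraMap R K r2) := rfl
  rw [e1, e2]
  linear_combination (C (algebraMap R K r1) * C (algebraMap R K r2)) * hab

/-- **A primitive relation.** -/
theorem exists_prim {M Ω : Type} [Field M] [Field Ω] [Algebra M Ω] {τ ρ : Ω}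
    (hρ : ¬ IsAlgebraic M ρ) {h : M[X][X]} (h0 : h ≠ 0) (hz : aevalAeval ρ τ h = 0) :
    ∃ (N : ℕ) (s a : Fin (N + 1) → M[X]), ∑ i, a i * s i = 1 ∧
      ∑ i, aeval ρ (s i) * τ ^ (i : ℕ) = 0 := by
  classical
  have hp : h.contentIdeal.IsPrincipal := inferInstance
  obtain ⟨S, hS⟩ := hp.contentIdeal_generator_dvd
  set γ := hp.generator with hγ
  have hγ0 : γ ≠ 0 := by
    intro h1
    apply h0
    rw [hS, h1, C_0, zero_mul]
  have hSc : ∀ i, h.coeff i = γ * S.coeff i := fun i => by
    conv_lhs => rw [hS]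
    rw [coeff_C_mul]
  have hmem : γ ∈ h.contentIdeal := Submodule.IsPrincipal.generator_mem _
  have hcon : h.contentIdeal ≤ Ideal.span (Set.range fun i : Fin (S.natDegree + 1) =>
      h.coeff (i : ℕ)) := by
    rw [contentIdeal_def, Ideal.span_le]
    intro c hc
    obtain ⟨i, hi, rfl⟩ := mem_coeffs_iff.1 hc
    by_cases hi' : i < S.natDegree + 1
    · exact Ideal.subset_span ⟨⟨i, hi'⟩, rfl⟩
    · have h1 : h.coeff i = 0 := by
        rw [hSc, coeff_eq_zero_of_natDegree_lt (by omega), mul_zero]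
      rw [h1]
      exact Ideal.zero_mem _
  obtain ⟨a, ha⟩ := (Ideal.mem_span_range_iff_exists_fun).1 (hcon hmem)
  refine ⟨S.natDegree, fun i => S.coeff i, a, ?_, ?_⟩
  · apply mul_left_cancel₀ hγ0
    rw [mul_one, Finset.mul_sum]
    conv_rhs => rw [← ha]
    refine Finset.sum_congr rfl fun i _ => ?_
    rw [hSc]
    ring
  · have h1 : aeval ρ γ ≠ 0 := by
      intro h2
      exact hρ ⟨γ, hγ0, h2⟩
    have h2 : aevalAeval ρ τ S = ∑ i : Fin (S.natDegree + 1), aeval ρ (S.coeff i) * τ ^ (i : ℕ) := by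
      conv_lhs => rw [S.as_sum_range_C_mul_X_pow, Finset.sum_range]
      rw [map_sum]
      refine Finset.sum_congr rfl fun i _ => ?_
      rw [map_mul, map_pow, aevalAeval_C, aevalAeval_Y]
    rw [← h2]
    rw [hS, map_mul, aevalAeval_C] at hz
    exact (mul_eq_zero.1 hz).resolve_left h1

section ww

variable {A : Type} [CommRing A] {n d N : ℕ}

/-- the relation between the ratio of the coordinates and the parameter -/
noncomputable def WW (m : ℕ) (v : Jx n d → A[X]) (s : Fin (N + 1) → A[X]) (u w : Fin (n + 1)) :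
    A[X][X] :=
  ∑ i : Fin (N + 1), ∑ l ∈ Finset.range (m + 1),
    C (C ((s i).coeff l) * X ^ (i : ℕ)) * NumP v u ^ l * NumP v w ^ (m - l)

theorem ww_map {B : Type} [CommRing B] (φ : A →+* B) (m : ℕ) (v : Jx n d → A[X])
    (s : Fin (N + 1) → A[X]) (u w : Fin (n + 1)) :
    (WW m v s u w).map (mapRingHom φ) =
      WW m (fun q => (v q).map φ) (fun i => (s i).map φ) u w := by
  unfold WW
  rw [Polynomial.map_sum]
  refine Finset.sum_congr rfl fun i _ => ?_
  rw [Polynomial.map_sum]
  refine Finset.sum_congr rfl fun l _ => ?_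
  rw [Polynomial.map_mul, Polynomial.map_mul, Polynomial.map_pow, Polynomial.map_pow,
    Polynomial.map_C, numP_map, numP_map, coe_mapRingHom, Polynomial.map_mul, Polynomial.map_C,
    Polynomial.map_pow, Polynomial.map_X, coeff_map]

theorem ww_aeval {Ω : Type} [Field Ω] [Algebra A[X] Ω] [Algebra A Ω] [IsScalarTower A A[X] Ω]
    {m : ℕ} {v : Jx n d → A[X]} {s : Fin (N + 1) → A[X]} {u w : Fin (n + 1)} {α : Ω}
    (hs : ∀ i, (s i).natDegree ≤ m) (hw : Num (fun q => algebraMap A[X] Ω (v q)) α w ≠ 0) :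
    aeval α (WW m v s u w) = Num (fun q => algebraMap A[X] Ω (v q)) α w ^ m *
      ∑ i, aeval (Num (fun q => algebraMap A[X] Ω (v q)) α u /
        Num (fun q => algebraMap A[X] Ω (v q)) α w) (s i) * (algebraMap A[X] Ω X) ^ (i : ℕ) := by
  unfold WW
  rw [map_sum, Finset.mul_sum]
  refine Finset.sum_congr rfl fun i _ => ?_
  rw [map_sum, aeval_eq_sum_range' (Nat.lt_succ_of_le (hs i)), Finset.sum_mul, Finset.mul_sum]
  refine Finset.sum_congr rfl fun l hl => ?_
  rw [map_mul, map_mul, map_pow, map_pow, aeval_C, numP_aeval, numP_aeval, map_mul, map_pow,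
    Algebra.smul_def, IsScalarTower.algebraMap_apply A A[X] Ω, Polynomial.algebraMap_eq, div_pow]
  have hl' : l ≤ m := Nat.lt_succ_iff.1 (Finset.mem_range.1 hl)
  have h1 : Num (fun q => algebraMap A[X] Ω (v q)) α w ^ m =
      Num (fun q => algebraMap A[X] Ω (v q)) α w ^ l *
        Num (fun q => algebraMap A[X] Ω (v q)) α w ^ (m - l) := by
    rw [← pow_add]
    congr 1
    omega
  rw [h1]
  have h2 : Num (fun q => algebraMap A[X] Ω (v q)) α w ^ l ≠ 0 := pow_ne_zero _ hw
  field_simp

end ww

end Pool.Agent.Q1.BD
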