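import Pool.Agent.Q1.BD.SpecA

/-!
**Specialization of points of bounded degree.**
-/

set_option autoImplicit false

namespace Pool.Agent.Q1.BD

open Polynomial

theorem spec_polyF {k M ι : Type} [Field k] [IsAlgClosed k] [Field M] [Algebra k M] [Fintype ι]
    (f : ι → M[X]) (T : Finset M) :
    ∃ (B : Subalgebra k M) (_ : B →ₐ[k] k) (P : ι → B[X]), (∀ x ∈ T, x ∈ B) ∧
      ∀ j, (P j).map (B.val : B →+* M) = f j := by
  obtain ⟨B, ψ, P, h1, h2⟩ := Pool.Agent.Q1.SL.spec_poly (k := k)
    (fun j => f ((Fintype.equivFin ι).symm j)) T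
  refine ⟨B, ψ, fun j => P (Fintype.equivFin ι j), h1, fun j => ?_⟩
  have h3 := h2 (Fintype.equivFin ι j)
  rw [Equiv.symm_apply_apply] at h3
  exact h3

theorem sumC_map {A B ι : Type} [CommRing A] [CommRing B] [Fintype ι] (φ : A →+* B) (f : ι → A)
    (e : ι → ℕ) : (∑ i, C (f i) * X ^ (e i) : A[X]).map φ = ∑ i, C (φ (f i)) * X ^ (e i) := by
  simp [Polynomial.map_sum]

theorem as_fin_sum {A : Type} [CommRing A] (U : A[X]) :
    U = ∑ i : Fin (U.natDegree + 1), C (U.coeff (i : ℕ)) * X ^ (i : ℕ) := by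
  conv_lhs => rw [U.as_sum_range_C_mul_X_pow, Finset.sum_range]

theorem coeff_fin_sum {A : Type} [CommRing A] {N : ℕ} (f : Fin (N + 1) → A) (j : Fin (N + 1)) :
    (∑ i : Fin (N + 1), C (f i) * X ^ (i : ℕ) : A[X]).coeff (j : ℕ) = f j := by
  rw [finsetSum_coeff, Finset.sum_eq_single j]
  · rw [coeff_C_mul_X_pow, if_pos rfl]
  · intro i _ hij
    rw [coeff_C_mul_X_pow, if_neg fun h => hij (Fin.ext h.symm)]
  · intro h
    exact absurd (Finset.mem_univ j) h

/-- Identities which show that, at all roots of `Pol p`, the form `G` and the coordinate with the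
number `v` do not vanish and the ratio of the coordinates with the numbers `u` and `v` is not
constant. -/
structure GonId {k : Type} [Field k] {n d : ℕ} (p : Jx n d → k[X])
    (G : MvPolynomial (Fin (n + 1)) k) (u v : Fin (n + 1)) : Prop where
  bez : ∃ (U V : k[X][X]) (r : k[X]), r ≠ 0 ∧
    U * Pol p + V * MvPolynomial.aeval (NumP p) (G * MvPolynomial.X v) = C r
  prim : ∃ (N m : ℕ) (s a : Fin (N + 1) → k[X]), (∀ i, (s i).natDegree ≤ m) ∧
    ∑ i, a i * s i = 1 ∧ Pol p ∣ WW m p s u v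

theorem GonId.root {k : Type} [Field k] {n d : ℕ} {p : Jx n d → k[X]}
    {G : MvPolynomial (Fin (n + 1)) k} {u v : Fin (n + 1)} (h : GonId p G u v) {Ω : Type}
    [Field Ω] [Algebra k[X] Ω] [Algebra k Ω] [IsScalarTower k k[X] Ω]
    (hinj : Function.Injective (algebraMap k[X] Ω)) {α : Ω}
    (hα : (Pol fun q => algebraMap k[X] Ω (p q)).eval α = 0) :
    MvPolynomial.aeval (Num (fun q => algebraMap k[X] Ω (p q)) α) G ≠ 0 ∧
      Num (fun q => algebraMap k[X] Ω (p q)) α v ≠ 0 ∧
      ∀ c : k, Num (fun q => algebraMap k[X] Ω (p q)) α u ≠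
        algebraMap k Ω c * Num (fun q => algebraMap k[X] Ω (p q)) α v := by
  obtain ⟨⟨U, V, r, hr, hid⟩, N, m, s, a, hs, has, hW⟩ := h
  set Nα := Num (fun q => algebraMap k[X] Ω (p q)) α with hNα
  have hroot : aeval α (Pol p) = 0 := by
    rw [aeval_def, ← eval_map, pol_map]
    exact hα
  have hid2 := congrArg (fun x => aeval α x) hid
  simp only [map_add, map_mul, hroot, mul_zero, zero_add, aeval_C] at hid2
  have hr3 : algebraMap k[X] Ω r ≠ 0 := fun h1 =>
    hr (hinj (h1.trans (map_zero (algebraMap k[X] Ω)).symm))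
  have hGv : MvPolynomial.aeval Nα G * Nα v ≠ 0 := by
    intro h1
    apply hr3
    rw [← hid2]
    have h2 : aeval α (MvPolynomial.aeval (NumP p) G) *
        aeval α (MvPolynomial.aeval (NumP p)
          (MvPolynomial.X v : MvPolynomial (Fin (n + 1)) k)) = 0 := by
      rw [fp_aeval, fp_aeval, MvPolynomial.aeval_X]
      exact h1
    rw [h2, mul_zero]
  have hvα : Nα v ≠ 0 := right_ne_zero_of_mul hGv
  refine ⟨left_ne_zero_of_mul hGv, hvα, fun c hc => ?_⟩
  have h1 : aeval α (WW m p s u v) = 0 := by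
    obtain ⟨q, hq⟩ := hW
    rw [hq, map_mul, hroot, zero_mul]
  rw [ww_aeval hs hvα] at h1
  have h2 := (mul_eq_zero.1 h1).resolve_left (pow_ne_zero _ hvα)
  have h3 : Nα u / Nα v = algebraMap k Ω c := by
    rw [div_eq_iff hvα]
    exact hc
  change ∑ i, aeval (Nα u / Nα v) (s i) * (algebraMap k[X] Ω X) ^ (i : ℕ) = 0 at h2
  rw [h3] at h2
  have h4 : algebraMap k[X] Ω (∑ i : Fin (N + 1), C ((s i).eval c) * X ^ (i : ℕ)) = 0 := by
    rw [map_sum, ← h2]
    refine Finset.sum_congr rfl fun i _ => ?_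
    rw [map_mul, map_pow, aeval_algebraMap_apply, coe_aeval_eq_eval,
      IsScalarTower.algebraMap_apply k k[X] Ω, Polynomial.algebraMap_eq]
  have h5 : (∑ i : Fin (N + 1), C ((s i).eval c) * X ^ (i : ℕ) : k[X]) = 0 :=
    hinj (h4.trans (map_zero _).symm)
  have h6 : ∀ i, (s i).eval c = 0 := by
    intro i
    have h7 := coeff_fin_sum (fun i => (s i).eval c) i
    rw [h5, coeff_zero] at h7
    exact h7.symm
  have h8 := congrArg (fun x => x.eval c) has
  simp only [eval_finsetSum, eval_mul, eval_one] at h8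
  rw [Finset.sum_eq_zero] at h8
  · exact zero_ne_one h8
  · intro i _
    rw [h6 i, mul_zero]

theorem spec_gon {k M Ω : Type} [Field k] [IsAlgClosed k] [Field M] [Algebra k M] [Field Ω]
    [Algebra (RatFunc M) Ω] [Algebra M[X] Ω] [IsScalarTower M[X] (RatFunc M) Ω]
    [Algebra.IsAlgebraic (RatFunc M) Ω] [Algebra M Ω] [IsScalarTower M M[X] Ω] [Algebra k Ω]
    [IsScalarTower k M[X] Ω] {n d : ℕ} (p : Jx n d → M[X]) {η : Ω} (hint : IsIntegral M[X] η)
    (hη : Pol p = minpoly M[X] η) {G : MvPolynomial (Fin (n + 1)) k}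
    (hG : MvPolynomial.aeval (Num (fun q => algebraMap M[X] Ω (p q)) η) G ≠ 0)
    {u v : Fin (n + 1)} (hv : Num (fun q => algebraMap M[X] Ω (p q)) η v ≠ 0)
    (hρ : ¬ IsAlgebraic M (Num (fun q => algebraMap M[X] Ω (p q)) η u /
      Num (fun q => algebraMap M[X] Ω (p q)) η v)) :
    ∃ p' : Jx n d → k[X], (∀ q, (p' q).natDegree ≤ (p q).natDegree) ∧
      (∀ F : MvPolynomial (Fin (n + 1)) k,
        MvPolynomial.aeval (Num (fun q => algebraMap M[X] Ω (p q)) η) F = 0 →
          Pol p' ∣ MvPolynomial.aeval (NumP p') F) ∧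
      GonId p' G u v := by
  classical
  have hinj : Function.Injective (algebraMap M[X] Ω) := by
    rw [IsScalarTower.algebraMap_eq M[X] (RatFunc M) Ω, RingHom.coe_comp]
    exact (algebraMap (RatFunc M) Ω).injective.comp (IsFractionRing.injective M[X] (RatFunc M))
  have htf : Module.IsTorsionFree M[X] Ω := by
    have h1 : FaithfulSMul M[X] Ω := (faithfulSMul_iff_algebraMap_injective M[X] Ω).2 hinj
    infer_instance
  set Nη := Num (fun q => algebraMap M[X] Ω (p q)) η with hNη
  -- Bezout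
  have hG' : aeval η (MvPolynomial.aeval (NumP p) (G * MvPolynomial.X v)) ≠ 0 := by
    rw [fp_aeval, map_mul, MvPolynomial.aeval_X]
    exact mul_ne_zero hG hv
  obtain ⟨U, V, r, hr, hUV⟩ := exists_bezout (K := RatFunc M) hint _ hG'
  rw [← hη] at hUV
  -- the primitive relation
  set τ : Ω := algebraMap M[X] Ω X with hτ
  obtain ⟨N, s, a, has, hsρ⟩ : ∃ (N : ℕ) (s a : Fin (N + 1) → M[X]), ∑ i, a i * s i = 1 ∧
      ∑ i, aeval (Nη u / Nη v) (s i) * τ ^ (i : ℕ) = 0 := by
    have h1 : IsAlgebraic M[X] (Nη u / Nη v) :=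
      (IsFractionRing.isAlgebraic_iff M[X] (RatFunc M) Ω).2 (Algebra.IsAlgebraic.isAlgebraic _)
    obtain ⟨h0, h2, h3⟩ := h1
    refine exists_prim hρ (h := Bivariate.swap h0) ?_ ?_
    · intro h4
      exact h2 ((map_eq_zero_iff _ Bivariate.swap.injective).1 h4)
    · rw [Bivariate.aevalAeval_swap, ← h3]
      have h5 : ∀ q : M[X], algebraMap M[X] Ω q = aeval τ q := by
        intro q
        rw [hτ]
        have h6 := aeval_algebraMap_apply (A := M[X]) Ω (X : M[X]) q
        rw [h6, aeval_X_left_apply]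
      rw [aeval_def, eval₂_eq_sum_range]
      conv_lhs => rw [h0.as_sum_range_C_mul_X_pow]
      rw [map_sum]
      refine Finset.sum_congr rfl fun i _ => ?_
      rw [map_mul, map_pow, aevalAeval_C, aevalAeval_Y, h5]
  let m := ∑ i, (s i).natDegree
  have hm : ∀ i, (s i).natDegree ≤ m := fun i =>
    Finset.single_le_sum (f := fun i => (s i).natDegree) (fun _ _ => Nat.zero_le _)
      (Finset.mem_univ i)
  have hWW : Pol p ∣ WW m p s u v := by
    rw [hη]
    refine minpoly.isIntegrallyClosed_dvd hint ?_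
    rw [ww_aeval hm hv, hsρ, mul_zero]
  obtain ⟨i0, hi0⟩ : ∃ i, r.coeff i ≠ 0 := by
    by_contra hcon
    push Not at hcon
    exact hr (Polynomial.ext fun i => by rw [hcon i, coeff_zero])
  -- the finitely generated ring
  obtain ⟨B, ψ, P, hT, hP⟩ := spec_polyF (k := k)
    (Sum.elim p (Sum.elim (fun i : Fin (U.natDegree + 1) => U.coeff (i : ℕ))
      (Sum.elim (fun i : Fin (V.natDegree + 1) => V.coeff (i : ℕ))
        (Sum.elim (fun _ : Unit => r) (Sum.elim s a))))) {(r.coeff i0)⁻¹}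
  let φ1 : B →+* M := (B.val : B →+* M)
  let φ2 : B →+* k := (ψ : B →+* k)
  have hφ1 : Function.Injective φ1 := Subtype.val_injective
  let f1 : B[X] →+* M[X] := mapRingHom φ1
  let f2 : B[X] →+* k[X] := mapRingHom φ2
  have hf1 : Function.Injective f1 := Polynomial.map_injective _ hφ1
  let pB : Jx n d → B[X] := fun q => P (Sum.inl q)
  let UB : B[X][X] := ∑ i : Fin (U.natDegree + 1), C (P (Sum.inr (Sum.inl i))) * X ^ (i : ℕ)
  let VB : B[X][X] := ∑ i : Fin (V.natDegree + 1),
    C (P (Sum.inr (Sum.inr (Sum.inl i)))) * X ^ (i : ℕ)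
  let rB : B[X] := P (Sum.inr (Sum.inr (Sum.inr (Sum.inl ()))))
  let sB : Fin (N + 1) → B[X] := fun i => P (Sum.inr (Sum.inr (Sum.inr (Sum.inr (Sum.inl i)))))
  let aB : Fin (N + 1) → B[X] := fun i => P (Sum.inr (Sum.inr (Sum.inr (Sum.inr (Sum.inr i)))))
  have hpB : ∀ q, f1 (pB q) = p q := fun q => hP (Sum.inl q)
  have hpB' : (fun q => f1 (pB q)) = p := funext hpB
  have hUB : UB.map f1 = U := by
    rw [sumC_map]
    conv_rhs => rw [as_fin_sum U]
    exact Finset.sum_congr rfl fun i _ => congrArg (fun x => C x * X ^ (i : ℕ))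
      (hP (Sum.inr (Sum.inl i)))
  have hVB : VB.map f1 = V := by
    rw [sumC_map]
    conv_rhs => rw [as_fin_sum V]
    exact Finset.sum_congr rfl fun i _ => congrArg (fun x => C x * X ^ (i : ℕ))
      (hP (Sum.inr (Sum.inr (Sum.inl i))))
  have hrB : f1 rB = r := hP (Sum.inr (Sum.inr (Sum.inr (Sum.inl ()))))
  have hsB : ∀ i, f1 (sB i) = s i := fun i => hP (Sum.inr (Sum.inr (Sum.inr (Sum.inr (Sum.inl i)))))
  have haB : ∀ i, f1 (aB i) = a i := fun i => hP (Sum.inr (Sum.inr (Sum.inr (Sum.inr (Sum.inr i)))))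
  have hdeg : ∀ (x : B[X]), (f2 x).natDegree ≤ (f1 x).natDegree := by
    intro x
    have h1 : (f1 x).natDegree = x.natDegree := natDegree_map_eq_of_injective hφ1 _
    rw [h1]
    exact natDegree_map_le
  have hpol1 : (Pol pB).map f1 = Pol p := by
    rw [pol_map, hpB']
  have hfp1 : ∀ F : MvPolynomial (Fin (n + 1)) k,
      (MvPolynomial.aeval (NumP pB) F).map f1 = MvPolynomial.aeval (NumP p) F := by
    intro F
    have h1 := fp_map (Polynomial.mapAlgHom B.val) pB F
    have h2 : (fun q => (Polynomial.mapAlgHom B.val) (pB q)) = p := hpB'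
    rw [h2] at h1
    exact h1
  let p' : Jx n d → k[X] := fun q => f2 (pB q)
  have hfp2 : ∀ F : MvPolynomial (Fin (n + 1)) k,
      (MvPolynomial.aeval (NumP pB) F).map f2 = MvPolynomial.aeval (NumP p') F := fun F =>
    fp_map (Polynomial.mapAlgHom ψ) pB F
  have hpol2 : (Pol pB).map f2 = Pol p' := pol_map f2 pB
  have hdvd : ∀ g : B[X][X], Pol p ∣ g.map f1 → Pol p' ∣ g.map f2 := by
    intro g hg
    rw [← hpol1] at hg
    have h1 : Pol pB ∣ g := (map_dvd_map f1 hf1 (pol_monic pB)).1 hg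
    have h2 := Polynomial.map_dvd f2 h1
    rwa [hpol2] at h2
  refine ⟨p', fun q => ?_, fun F hF => ?_, ?_⟩
  · have h1 := hdeg (pB q)
    rwa [hpB] at h1
  · have h1 : Pol p ∣ (MvPolynomial.aeval (NumP pB) F).map f1 := by
      rw [hfp1, hη]
      refine minpoly.isIntegrallyClosed_dvd hint ?_
      rw [fp_aeval]
      exact hF
    have h2 := hdvd _ h1
    rwa [hfp2] at h2
  · let s' : Fin (N + 1) → k[X] := fun i => f2 (sB i)
    have hs' : ∀ i, (s' i).natDegree ≤ m := fun i => (hdeg (sB i)).trans (by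
      rw [hsB]
      exact hm i)
    have hid : UB * Pol pB + VB * MvPolynomial.aeval (NumP pB) (G * MvPolynomial.X v) = C rB := by
      apply Polynomial.map_injective f1 hf1
      rw [Polynomial.map_add, Polynomial.map_mul, Polynomial.map_mul, hUB, hVB, hpol1, hfp1, hUV,
        Polynomial.map_C, hrB]
    refine ⟨⟨UB.map f2, VB.map f2, f2 rB, ?_, ?_⟩, N, m, s', fun i => f2 (aB i), hs', ?_, ?_⟩
    · have h1 : (r.coeff i0)⁻¹ ∈ B := hT _ (Finset.mem_singleton_self _)
      have h2 : r.coeff i0 = (rB.coeff i0 : M) := by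
        rw [← hrB]
        exact coeff_map φ1 i0
      intro h3
      have h4 : ψ (rB.coeff i0) = 0 := by
        have h5 := congrArg (fun x => x.coeff i0) h3
        have h6 : (f2 rB).coeff i0 = ψ (rB.coeff i0) := coeff_map φ2 i0
        rw [← h6]
        exact h5
      have h5 : rB.coeff i0 * ⟨_, h1⟩ = 1 := Subtype.ext (by
        change (rB.coeff i0 : M) * (r.coeff i0)⁻¹ = 1
        rw [← h2]
        exact mul_inv_cancel₀ hi0)
      have h6 := congrArg ψ h5
      rw [map_mul, h4, zero_mul, map_one] at h6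
      exact zero_ne_one h6
    · have h1 := congrArg (fun x => x.map f2) hid
      simp only [Polynomial.map_add, Polynomial.map_mul, hpol2, Polynomial.map_C] at h1
      rw [hfp2] at h1
      exact h1
    · have h7 : ∑ i, aB i * sB i = 1 := by
        apply hf1
        rw [map_sum, map_one, ← has]
        exact Finset.sum_congr rfl fun i _ => by rw [map_mul, haB, hsB]
      have h8 := congrArg f2 h7
      rw [map_sum, map_one] at h8
      rw [← h8]
      exact Finset.sum_congr rfl fun i _ => by rw [map_mul]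
    · have hWB1 : (WW m pB sB u v).map f1 = WW m p s u v := by
        have h1 := ww_map φ1 m pB sB u v
        refine h1.trans ?_
        have h2 : (fun q => (pB q).map φ1) = p := hpB'
        have h3 : (fun i => (sB i).map φ1) = s := funext hsB
        rw [h2, h3]
      have hWB2 : (WW m pB sB u v).map f2 = WW m p' s' u v := ww_map φ2 m pB sB u v
      rw [← hWB2]
      apply hdvd
      rw [hWB1]
      exact hWW

end Pool.Agent.Q1.BD
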