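import Pool.Agent.Q1.BD.UniB
import Pool.Agent.Q1.SL.MordK

/-!
Families of points of bounded degree and curves of bounded gonality: the converse.
-/

set_option autoImplicit false

namespace Pool.Agent.Q1.BD

open Filter Polynomial Pool.Agent.Q1.SL Pool.Agent.Y377.IL Pool.Agent.Y377.IR
  Pool.Agent.Y377.ST

section lemmas

variable {A : Type} [CommRing A] {n d : ℕ}

/-- prescribed polynomials -/
theorem exists_jx (P : A[X]) (hP : P.Monic) (hd : P.natDegree = d) (Q : Fin (n + 1) → A[X])
    (hQ : ∀ j, (Q j).degree < (d : WithBot ℕ)) :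
    ∃ v : Jx n d → A, Pol v = P ∧ ∀ j, NumP v j = Q j := by
  classical
  refine ⟨fun q => match q with
    | (none, i) => P.coeff i
    | (some j, i) => (Q j).coeff i, ?_, fun j => ?_⟩
  · unfold Pol
    change X ^ d + ∑ i : Fin d, C (P.coeff i) * X ^ (i : ℕ) = P
    rw [Fin.sum_univ_eq_sum_range (fun i => C (P.coeff i) * X ^ i) d]
    conv_rhs => rw [P.as_sum_range_C_mul_X_pow, hd, Finset.sum_range_succ]
    have h1 : P.coeff d = 1 := by
      rw [← hd]
      exact hP
    rw [h1, C_1, one_mul, add_comm]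
  · unfold NumP
    change ∑ i : Fin d, C ((Q j).coeff i) * X ^ (i : ℕ) = Q j
    rw [Fin.sum_univ_eq_sum_range (fun i => C ((Q j).coeff i) * X ^ i) d]
    by_cases h0 : Q j = 0
    · rw [h0]
      simp
    · have h1 := hQ j
      rw [degree_eq_natDegree h0] at h1
      exact (as_sum_range_C_mul_X_pow' _ (by exact_mod_cast h1)).symm

theorem numP_degree (v : Jx n d → A) (j : Fin (n + 1)) :
    (NumP v j).degree < (d : WithBot ℕ) := by
  unfold NumP
  refine (degree_sum_le _ _).trans_lt ?_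
  refine (Finset.sup_lt_iff (WithBot.bot_lt_coe d)).2 fun i _ => ?_
  refine (degree_C_mul_X_pow_le _ _).trans_lt ?_
  exact Nat.cast_lt.2 i.2

end lemmas

/-- polynomials vanishing at all roots -/
theorem dvd_pow_of_roots {k : Type} [Field k] [IsAlgClosed k] {n d : ℕ} (v : Jx n d → k)
    (f : k[X]) (h : ∀ α, (Pol v).eval α = 0 → f.eval α = 0) : Pol v ∣ f ^ d := by
  classical
  obtain ⟨β, hβ⟩ := exists_roots v
  rw [hβ]
  have h1 : ∀ j, X - C (β j) ∣ f := by
    intro j
    rw [dvd_iff_isRoot]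
    apply h
    rw [hβ, eval_prod]
    exact Finset.prod_eq_zero (Finset.mem_univ j) (by simp)
  have h2 : f ^ d = ∏ _j : Fin d, f := by
    rw [Finset.prod_const, Finset.card_univ, Fintype.card_fin]
  rw [h2]
  exact Finset.prod_dvd_prod_of_dvd _ _ fun j _ => h1 j

theorem clo_pol {n d : ℕ} (p : Jx n d → ℂ[X]) : (Pol p).map
    (algebraMap ℂ[X] (AlgebraicClosure (RatFunc ℂ))) = Pol (clo p) := pol_map _ _

/-- vanishing at the roots over the closure of the field of rational functions, from vanishing at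
the roots over the points of the line -/
theorem vanish_up {n d : ℕ} (p : Jx n d → ℂ[X]) (f : ℂ[X][X])
    (h : ∀ (m : ℤ) (α : ℂ), (Pol fun q => (p q).eval (m : ℂ)).eval α = 0 →
      (f.map (evalRingHom (m : ℂ))).eval α = 0)
    {β : AlgebraicClosure (RatFunc ℂ)} (hβ : (Pol (clo p)).eval β = 0) : aeval β f = 0 := by
  classical
  have hm : (Pol p).Monic := pol_monic p
  have hr : (f ^ d) %ₘ Pol p = 0 := by
    apply Polynomial.ext
    intro i
    rw [coeff_zero]
    have h1 : ∀ m : ℤ, (((f ^ d) %ₘ Pol p).coeff i).eval (m : ℂ) = 0 := by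
      intro m
      have h2 := dvd_pow_of_roots (fun q => (p q).eval (m : ℂ)) (f.map (evalRingHom (m : ℂ)))
        (h m)
      have h3 : (Pol p).map (evalRingHom (m : ℂ)) = Pol fun q => (p q).eval (m : ℂ) :=
        pol_map _ _
      rw [← h3, ← Polynomial.map_pow, ← modByMonic_eq_zero_iff_dvd (hm.map _),
        ← Polynomial.map_modByMonic _ hm] at h2
      have h4 := congrArg (fun q => q.coeff i) h2
      simp only [coeff_map, coeff_zero] at h4
      exact h4
    by_contra hne
    have hfin := (((f ^ d) %ₘ Pol p).coeff i).roots.toFinset.finite_toSet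
    have hinf : (Set.range fun m : ℤ => (m : ℂ)).Infinite :=
      Set.infinite_range_of_injective Int.cast_injective
    apply hinf
    refine hfin.subset ?_
    rintro _ ⟨m, rfl⟩
    rw [Finset.mem_coe, Multiset.mem_toFinset, mem_roots hne]
    exact h1 m
  have h1 : Pol p ∣ f ^ d := (modByMonic_eq_zero_iff_dvd hm).1 hr
  obtain ⟨q, hq⟩ := h1
  have h2 : aeval β (Pol p) = 0 := by
    rw [aeval_def, ← eval_map, clo_pol]
    exact hβ
  have h3 : (aeval β f) ^ d = 0 := by
    rw [← map_pow, hq, map_mul, h2, zero_mul]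
  by_contra hne
  exact pow_ne_zero d hne h3

/-- vanishing over the points of the line, from vanishing over the field of rational functions -/
theorem vanish_down {n d : ℕ} (p : Jx n d → ℂ[X]) (f : ℂ[X][X])
    (h : ∀ β : AlgebraicClosure (RatFunc ℂ), (Pol (clo p)).eval β = 0 → aeval β f = 0)
    (m α : ℂ) (hα : (Pol fun q => (p q).eval m).eval α = 0) :
    (f.map (evalRingHom m)).eval α = 0 := by
  classical
  have hm : (Pol p).Monic := pol_monic p
  have h1 : Pol (clo p) ∣ (f.map (algebraMap ℂ[X] (AlgebraicClosure (RatFunc ℂ)))) ^ d :=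
    dvd_pow_of_roots (clo p) _ fun β hβ => by
      rw [eval_map, ← aeval_def]
      exact h β hβ
  rw [← clo_pol, ← Polynomial.map_pow, Polynomial.map_dvd_map _ clo_inj hm] at h1
  obtain ⟨q, hq⟩ := h1
  have h2 := congrArg (fun r => (r.map (evalRingHom m)).eval α) hq
  simp only [Polynomial.map_pow, Polynomial.map_mul, eval_pow, eval_mul, pol_map] at h2
  have h3 : (Pol fun q => (evalRingHom m) (p q)).eval α = 0 := hα
  rw [h3, zero_mul] at h2
  by_contra hne
  exact pow_ne_zero d hne h2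

/-- the values of a form at the points of the line -/
theorem ev_form {n d : ℕ} (p : Jx n d → ℂ[X]) (F : MvPolynomial (Fin (n + 1)) ℂ) (m α : ℂ) :
    ((MvPolynomial.aeval (NumP p) F).map (evalRingHom m)).eval α =
      MvPolynomial.eval (Num (fun q => (p q).eval m) α) F := by
  have h1 := fp_map (k := ℂ) (aeval m : ℂ[X] →ₐ[ℂ] ℂ) p F
  rw [coe_aeval_eq_evalRingHom] at h1
  rw [h1]
  have h2 := fp_aeval (k := ℂ) (A := ℂ) (B := ℂ) (fun q => (p q).eval m) α F
  rw [coe_aeval_eq_eval] at h2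
  refine Eq.trans ?_ (h2.trans ?_)
  · rfl
  · rw [← MvPolynomial.coe_aeval_eq_eval]
    rfl

/-- **The converse.** -/
theorem gonIn_of_finite {n d : ℕ} {S : Set (MvPolynomial (Fin (n + 1)) ℂ)}
    {G : MvPolynomial (Fin (n + 1)) ℂ} (hS : ∀ F ∈ S, ∃ e, F.IsHomogeneous e)
    (hG : ∃ e, G.IsHomogeneous e)
    (h : ∀ (e : ℕ) (x : Multiplicative ℤ → Jx n d → ℂ), IterFam 1 2 e x →
      (∀ h α, (Pol (x h)).eval α = 0 → ∀ F ∈ S, MvPolynomial.eval (Num (x h) α) F = 0) →
      (rootPtsC G x).Finite) (δ : ℕ) : GonIn S G d δ := by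
  classical
  intro d' hd' p hp hroots α0 hα0 ⟨u, v, hv, hnc⟩
  by_contra hGne
  -- a constant
  obtain ⟨c, hc⟩ : ∃ c : ℂ, (Pol (clo p)).eval (algebraMap ℂ (AlgebraicClosure (RatFunc ℂ)) c) ≠ 0 := by
    by_contra hcon
    push Not at hcon
    have h0 : Pol (clo p) ≠ 0 := (pol_monic _).ne_zero
    have hfin := (Pol (clo p)).roots.toFinset.finite_toSet
    have hinf : (Set.range fun c : ℂ => algebraMap ℂ (AlgebraicClosure (RatFunc ℂ)) c).Infinite :=
      Set.infinite_range_of_injective (algebraMap ℂ (AlgebraicClosure (RatFunc ℂ))).injective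
    apply hinf
    refine hfin.subset ?_
    rintro _ ⟨c, rfl⟩
    rw [Finset.mem_coe, Multiset.mem_toFinset, mem_roots h0]
    exact hcon c
  set κ : (AlgebraicClosure (RatFunc ℂ)) := algebraMap ℂ (AlgebraicClosure (RatFunc ℂ)) c with hκ
  let l : ℂ[X][X] := X - C (C c)
  have hl : l.Monic := monic_X_sub_C _
  have hln : l.natDegree = 1 := natDegree_X_sub_C _
  let ε : ℕ := if d' < d then 1 else 0
  have hCC : ∀ a : ℂ, algebraMap ℂ[X] (AlgebraicClosure (RatFunc ℂ)) (C a) = algebraMap ℂ (AlgebraicClosure (RatFunc ℂ)) a := fun a =>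
    (IsScalarTower.algebraMap_apply ℂ ℂ[X] (AlgebraicClosure (RatFunc ℂ)) a).symm
  have hlβ : ∀ β : (AlgebraicClosure (RatFunc ℂ)), aeval β l = β - κ := by
    intro β
    change aeval β (X - C (C c)) = _
    rw [map_sub, aeval_X, aeval_C, hCC]
  obtain ⟨p', hp'P, hp'N⟩ := exists_jx (d := d) (Pol p * l ^ (d - d'))
    ((pol_monic p).mul (hl.pow _)) (by
      rw [(pol_monic p).natDegree_mul (hl.pow _), hl.natDegree_pow, hln, pol_degree]
      omega) (fun j => l ^ ε * NumP p j) (fun j => by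
      by_cases h0 : l ^ ε * NumP p j = 0
      · rw [h0, degree_zero]
        exact WithBot.bot_lt_coe d
      · have h1 : NumP p j ≠ 0 := fun h1 => h0 (by rw [h1, mul_zero])
        have h2 : (NumP p j).natDegree < d' := by
          have h3 := numP_degree p j
          rw [degree_eq_natDegree h1] at h3
          exact_mod_cast h3
        rw [degree_eq_natDegree h0]
        have h3 : (l ^ ε * NumP p j).natDegree ≤ ε + (NumP p j).natDegree := by
          refine natDegree_mul_le.trans ?_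
          rw [hl.natDegree_pow, hln, mul_one]
        have h4 : ε + (NumP p j).natDegree < d := by
          by_cases h5 : d' < d
          · have h6 : ε = 1 := if_pos h5
            omega
          · have h6 : ε = 0 := if_neg h5
            omega
        exact_mod_cast h3.trans_lt h4)
  have hP'β : ∀ β : (AlgebraicClosure (RatFunc ℂ)), (Pol (clo p')).eval β = (Pol (clo p)).eval β * (β - κ) ^ (d - d') := by
    intro β
    have h1 : aeval β (Pol p') = aeval β (Pol p) * (β - κ) ^ (d - d') := by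
      rw [hp'P, map_mul, map_pow, hlβ]
    rwa [aeval_def, aeval_def, ← eval_map, ← eval_map, clo_pol, clo_pol] at h1
  have hN'β : ∀ (β : (AlgebraicClosure (RatFunc ℂ))) j, Num (clo p') β j = (β - κ) ^ ε * Num (clo p) β j := by
    intro β j
    have h1 := numP_aeval (B := AlgebraicClosure (RatFunc ℂ)) p' β j
    have h2 := numP_aeval (B := AlgebraicClosure (RatFunc ℂ)) p β j
    rw [hp'N, map_mul, map_pow, hlβ, h2] at h1
    exact h1.symm
  have hsc : ∀ (β : (AlgebraicClosure (RatFunc ℂ))) (F : MvPolynomial (Fin (n + 1)) ℂ) (e : ℕ), F.IsHomogeneous e →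
      MvPolynomial.aeval (Num (clo p') β) F =
        ((β - κ) ^ ε) ^ e * MvPolynomial.aeval (Num (clo p) β) F := by
    intro β F e hF
    have h1 : Num (clo p') β = fun j => (β - κ) ^ ε * Num (clo p) β j := funext (hN'β β)
    rw [h1]
    exact Pool.Agent.Y837.ST.aeval_scale _ _ hF
  have hS' : ∀ F ∈ S, ∀ β : (AlgebraicClosure (RatFunc ℂ)), (Pol (clo p')).eval β = 0 →
      MvPolynomial.aeval (Num (clo p') β) F = 0 := by
    intro F hF β hβ
    obtain ⟨e, he⟩ := hS F hF
    rw [hsc β F e he]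
    rw [hP'β, mul_eq_zero] at hβ
    rcases hβ with hβ | hβ
    · rw [hroots β hβ F hF, mul_zero]
    · have hdd : d' < d := by
        by_contra h1
        have h2 : d - d' = 0 := by omega
        rw [h2, pow_zero] at hβ
        exact one_ne_zero hβ
      have h1 : β - κ = 0 := by
        by_contra hne
        exact pow_ne_zero _ hne hβ
      have h2 : ε = 1 := if_pos hdd
      rw [h1, h2, pow_one]
      rcases Nat.eq_zero_or_pos e with rfl | he0
      · have hz : ∀ y : Fin (n + 1) → (AlgebraicClosure (RatFunc ℂ)), MvPolynomial.aeval y F =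
            MvPolynomial.aeval (fun _ : Fin (n + 1) => (0 : (AlgebraicClosure (RatFunc ℂ)))) F := by
          intro y
          have h3 := Pool.Agent.Y837.ST.aeval_scale (0 : (AlgebraicClosure (RatFunc ℂ))) y he
          rw [pow_zero, one_mul] at h3
          rw [← h3]
          simp only [zero_mul]
        rw [hz, ← hz (Num (clo p) α0), hroots α0 hα0 F hF, mul_zero]
      · rw [zero_pow he0.ne', zero_mul]
  -- the family
  let x : Multiplicative ℤ → Jx n d → ℂ := fun h q =>
    (p' q).eval ((Multiplicative.toAdd h : ℤ) : ℂ)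
  let e0 : ℕ := Finset.univ.sup fun q => (p' q).natDegree
  have hx : IterFam 1 2 e0 x := by
    obtain ⟨X, Y, hX, hc⟩ := iterVec_polyK (k := ℂ) (d := e0)
      (fun j : Fin (Fintype.card (Jx n d)) => p' ((Fintype.equivFin _).symm j))
      fun j => Finset.le_sup (f := fun q => (p' q).natDegree) (Finset.mem_univ _)
    refine ⟨X, Y, hX, fun q => ?_⟩
    obtain ⟨c, hc⟩ := hc (Fintype.equivFin _ q)
    refine ⟨c, fun h => ?_⟩
    rw [← hc h]
    simp only [Equiv.symm_apply_apply]
    rfl
  have hX : ∀ h α, (Pol (x h)).eval α = 0 → ∀ F ∈ S, MvPolynomial.eval (Num (x h) α) F = 0 := by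
    intro h α hα F hF
    have h1 := vanish_down p' (MvPolynomial.aeval (NumP p') F) (fun β hβ => by
      rw [fp_aeval]
      exact hS' F hF β hβ) _ α hα
    rwa [ev_form] at h1
  have hfin := h e0 x hx hX
  let R := hfin.toFinset
  -- the polynomials
  let fw : (Projectivization ℂ (Fin (n + 1) → ℂ) → Fin (n + 1) × Fin (n + 1)) → ℂ[X][X] :=
    fun w => (∏ P ∈ R, (C (C (P.rep (w P).2)) * NumP p' (w P).1 -
      C (C (P.rep (w P).1)) * NumP p' (w P).2)) * MvPolynomial.aeval (NumP p') G * NumP p' v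
  have hα0' : (Pol (clo p')).eval α0 = 0 := by
    rw [hP'β, hα0, zero_mul]
  have hnumx : ∀ (m α : ℂ) j, ((NumP p' j).map (evalRingHom m)).eval α =
      Num (fun q => (p' q).eval m) α j := by
    intro m α j
    rw [numP_map, numP_eval]
    rfl
  have hfw : ∀ w, aeval α0 (fw w) = 0 := by
    intro w
    refine vanish_up p' (fw w) (fun m α hα => ?_) hα0'
    change (Polynomial.map (evalRingHom (m : ℂ)) ((∏ P ∈ R, (C (C (P.rep (w P).2)) *
      NumP p' (w P).1 - C (C (P.rep (w P).1)) * NumP p' (w P).2)) *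
        MvPolynomial.aeval (NumP p') G * NumP p' v)).eval α = 0
    rw [Polynomial.map_mul, Polynomial.map_mul, eval_mul, eval_mul, ev_form, hnumx,
      Polynomial.map_prod, eval_prod]
    by_cases h0 : Num (fun q => (p' q).eval (m : ℂ)) α = 0
    · rw [h0, Pi.zero_apply, mul_zero]
    by_cases h1 : MvPolynomial.eval (Num (fun q => (p' q).eval (m : ℂ)) α) G = 0
    · rw [h1, mul_zero, zero_mul]
    have hmem : Projectivization.mk ℂ (Num (fun q => (p' q).eval (m : ℂ)) α) h0 ∈ R := by
      rw [Set.Finite.mem_toFinset]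
      exact ⟨Multiplicative.ofAdd m, α, h0, hα, h1, rfl⟩
    obtain ⟨a, ha⟩ := Projectivization.exists_smul_eq_mk_rep ℂ
      (Num (fun q => (p' q).eval (m : ℂ)) α) h0
    have h2 : ∏ P ∈ R, (Polynomial.map (evalRingHom (m : ℂ)) (C (C (P.rep (w P).2)) *
        NumP p' (w P).1 - C (C (P.rep (w P).1)) * NumP p' (w P).2)).eval α = 0 := by
      refine Finset.prod_eq_zero hmem ?_
      rw [Polynomial.map_sub, Polynomial.map_mul, Polynomial.map_mul, eval_sub, eval_mul,
        eval_mul, hnumx, hnumx, map_C, map_C, eval_C, eval_C, coe_evalRingHom, eval_C, eval_C,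
        ← ha]
      simp only [Pi.smul_apply, Units.smul_def, smul_eq_mul]
      ring
    rw [h2, zero_mul, zero_mul]
  -- the contradiction
  let N : Fin (n + 1) → (AlgebraicClosure (RatFunc ℂ)) := Num (clo p') α0
  have hZ : (α0 - κ) ^ ε ≠ 0 := by
    refine pow_ne_zero _ fun h1 => hc ?_
    rw [← sub_eq_zero.1 h1]
    exact hα0
  have hNv : N v ≠ 0 := by
    change Num (clo p') α0 v ≠ 0
    rw [hN'β]
    exact mul_ne_zero hZ hv
  have hNG : MvPolynomial.aeval N G ≠ 0 := by
    obtain ⟨e, he⟩ := hG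
    change MvPolynomial.aeval (Num (clo p') α0) G ≠ 0
    rw [hsc α0 G e he]
    exact mul_ne_zero (pow_ne_zero _ hZ) hGne
  let fac : Projectivization ℂ (Fin (n + 1) → ℂ) → Fin (n + 1) → Fin (n + 1) → (AlgebraicClosure (RatFunc ℂ)) :=
    fun P i j => algebraMap ℂ (AlgebraicClosure (RatFunc ℂ)) (P.rep j) * N i - algebraMap ℂ (AlgebraicClosure (RatFunc ℂ)) (P.rep i) * N j
  let w : Projectivization ℂ (Fin (n + 1) → ℂ) → Fin (n + 1) × Fin (n + 1) := fun P =>
    if h : ∃ ij : Fin (n + 1) × Fin (n + 1), fac P ij.1 ij.2 ≠ 0 then h.choose else (v, v)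
  have hw : ∀ P, fac P (w P).1 (w P).2 = 0 → ∀ i j, fac P i j = 0 := by
    intro P h1 i j
    by_contra h2
    have h3 : ∃ ij : Fin (n + 1) × Fin (n + 1), fac P ij.1 ij.2 ≠ 0 := ⟨(i, j), h2⟩
    have h4 : w P = h3.choose := dif_pos h3
    rw [h4] at h1
    exact h3.choose_spec h1
  have h1 := hfw w
  have h2 : aeval α0 (fw w) = (∏ P ∈ R, fac P (w P).1 (w P).2) *
      MvPolynomial.aeval N G * N v := by
    change aeval α0 ((∏ P ∈ R, (C (C (P.rep (w P).2)) *
      NumP p' (w P).1 - C (C (P.rep (w P).1)) * NumP p' (w P).2)) *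
        MvPolynomial.aeval (NumP p') G * NumP p' v) = _
    rw [map_mul, map_mul, fp_aeval, numP_aeval, map_prod]
    congr 2
    refine Finset.prod_congr rfl fun P _ => ?_
    rw [map_sub, map_mul, map_mul, aeval_C, aeval_C, numP_aeval, numP_aeval, hCC, hCC]
    rfl
  rw [h2] at h1
  have h3 : ∏ P ∈ R, fac P (w P).1 (w P).2 = 0 := by
    rcases mul_eq_zero.1 h1 with h4 | h4
    · rcases mul_eq_zero.1 h4 with h5 | h5
      · exact h5
      · exact absurd h5 hNG
    · exact absurd h4 hNv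
  obtain ⟨P, -, hP⟩ := Finset.prod_eq_zero_iff.1 h3
  have hPall := hw P hP
  obtain ⟨i0, hi0⟩ := Function.ne_iff.1 P.rep_nonzero
  have hinj : Function.Injective (algebraMap ℂ (AlgebraicClosure (RatFunc ℂ))) := (algebraMap ℂ (AlgebraicClosure (RatFunc ℂ))).injective
  have hPv : algebraMap ℂ (AlgebraicClosure (RatFunc ℂ)) (P.rep v) ≠ 0 := by
    intro h4
    have h5 := sub_eq_zero.1 (hPall v i0)
    rw [h4, zero_mul] at h5
    rcases mul_eq_zero.1 h5 with h6 | h6
    · exact hi0 (hinj (h6.trans (map_zero _).symm))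
    · exact hNv h6
  have h4 := sub_eq_zero.1 (hPall u v)
  refine hnc (P.rep u / P.rep v) ?_
  have h5 : N u = (α0 - κ) ^ ε * Num (clo p) α0 u := hN'β α0 u
  have h6 : N v = (α0 - κ) ^ ε * Num (clo p) α0 v := hN'β α0 v
  rw [h5, h6] at h4
  rw [map_div₀, div_mul_eq_mul_div, eq_div_iff hPv]
  apply mul_left_cancel₀ hZ
  linear_combination h4

/-- **The equivalence.** -/
theorem gon_tfae (n D d : ℕ) (S : Set (MvPolynomial (Fin (n + 1)) ℂ))
    (G : MvPolynomial (Fin (n + 1)) ℂ) (hS : ∀ F ∈ S, ∃ e, e ≤ D ∧ F.IsHomogeneous e)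
    (hG : ∃ e, e ≤ D ∧ G.IsHomogeneous e) :
    List.TFAE [∀ δ, GonIn S G d δ,
      ∀ s r e, ∃ B : ℕ, ∀ (H : Type) [Group H] (x : H → Jx n d → ℂ), IterFam s r e x →
        (∀ h α, (Pol (x h)).eval α = 0 → ∀ F ∈ S, MvPolynomial.eval (Num (x h) α) F = 0) →
        (rootPtsC G x).encard ≤ (B : ℕ∞),
      ∀ s r e, ∀ (H : Type) [Group H] (x : H → Jx n d → ℂ), IterFam s r e x →
        (∀ h α, (Pol (x h)).eval α = 0 → ∀ F ∈ S, MvPolynomial.eval (Num (x h) α) F = 0) →
        (rootPtsC G x).Finite,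
      ∀ e, ∀ x : Multiplicative ℤ → Jx n d → ℂ, IterFam 1 2 e x →
        (∀ h α, (Pol (x h)).eval α = 0 → ∀ F ∈ S, MvPolynomial.eval (Num (x h) α) F = 0) →
        (rootPtsC G x).Finite] := by
  tfae_have 1 → 2 := by
    intro h s r e
    obtain ⟨δ, B, hB⟩ := gon_uniform n D d s r e
    exact ⟨B, fun H _ x hx hX => hB S G hS hG (h δ) H x hx hX⟩
  tfae_have 2 → 3 := by
    intro h s r e H _ x hx hX
    obtain ⟨B, hB⟩ := h s r e
    exact Set.finite_of_encard_le_coe (hB H x hx hX)
  tfae_have 3 → 4 := fun h e x hx hX => h 1 2 e _ x hx hX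
  tfae_have 4 → 1 := fun h δ => by
    obtain ⟨e, -, he⟩ := hG
    exact gonIn_of_finite (fun F hF => by
      obtain ⟨e, -, he⟩ := hS F hF
      exact ⟨e, he⟩) ⟨e, he⟩ h δ
  tfae_finish

end Pool.Agent.Q1.BD
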