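import Pool.Agent.Q1.BD.Prim

/-!
Transport of a point over a finite extension by an embedding into a field of rational functions.
-/

set_option autoImplicit false

namespace Pool.Agent.Q1.BD

open Polynomial IntermediateField

/-- interpolation: the coefficients are in the field of the values -/
theorem coeff_of_values {M W : Type} [Field M] [Field W] [Algebra M W] (A : IntermediateField M W)
    (f : W[X]) (s : Finset W) (hs : ∀ x ∈ s, x ∈ A) (hf : f.degree < s.card)
    (hv : ∀ x ∈ s, f.eval x ∈ A) (i : ℕ) : f.coeff i ∈ A := by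
  classical
  have hC : ∀ a ∈ A, (C a : W[X]) ∈ lifts (algebraMap A W) := fun a ha =>
    C_mem_lifts (algebraMap A W) (⟨a, ha⟩ : A)
  have h1 : f ∈ lifts (algebraMap A W) := by
    rw [Lagrange.eq_interpolate (s := s) (v := id) (fun _ _ _ _ h => h) hf,
      Lagrange.interpolate_apply]
    refine Subsemiring.sum_mem _ fun x hx => Subsemiring.mul_mem _ (hC _ (hv x hx)) ?_
    unfold Lagrange.basis
    refine Subsemiring.prod_mem _ fun z hz => ?_
    unfold Lagrange.basisDivisor
    have hxA := hs x hx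
    have hzA := hs z (Finset.mem_of_mem_erase hz)
    refine Subsemiring.mul_mem _ (hC _ (A.inv_mem (A.sub_mem hxA hzA))) ?_
    have h2 : (X - C (id z) : W[X]) = X + C (-z) := by
      rw [C_neg, id, sub_eq_add_neg]
    rw [h2]
    exact Subsemiring.add_mem _ (X_mem_lifts _) (hC _ (A.neg_mem hzA))
  obtain ⟨a, ha⟩ := (lifts_iff_coeff_lifts f).1 h1 i
  rw [← ha]
  exact a.2

/-- algebraic elements of the field of rational functions are constant -/
theorem const_ratFunc {M : Type} [Field M] {f : RatFunc M}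
    (h : IsAlgebraic M (algebraMap (RatFunc M) (AlgebraicClosure (RatFunc M)) f)) :
    ∃ c : M, f = algebraMap M (RatFunc M) c := by
  by_contra hcon
  refine RatFunc.transcendental_of_ne_C f (fun ⟨c, hc⟩ => hcon ⟨c, hc⟩) ?_
  exact (isAlgebraic_algebraMap_iff
    (algebraMap (RatFunc M) (AlgebraicClosure (RatFunc M))).injective).1 h

/-- **Transport of a point over a finite extension.** -/
theorem transport {F0 F E M : Type} [Field F0] [Field F] [Field E] [Field M] [CharZero F0]
    [Algebra F0 F] [Algebra F E] [Algebra F0 E] [IsScalarTower F0 F E]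
    (φ : F0 →+* RatFunc M) {m : ℕ} (y : Fin m → E) (w : Fin m → ℕ) {θ : E}
    (hθ : θ = ∑ u, (w u : E) * y u) (p : F0[X]) (hp : p.Monic)
    (hp1 : p.map (algebraMap F0 F) = minpoly F θ) (hint : IsIntegral F θ)
    (B : Fin m → F0[X]) (hB : ∀ u, aeval θ (B u) = y u) (hBd : ∀ u, (B u).degree < p.degree)
    (hnc : (∃ i, ∀ c : M, φ (p.coeff i) ≠ algebraMap M (RatFunc M) c) ∨
      ∃ u i, ∀ c : M, φ ((B u).coeff i) ≠ algebraMap M (RatFunc M) c) :
    ∃ Ψ : F0⟮θ⟯ →+* AlgebraicClosure (RatFunc M),
      (∀ a : F0, Ψ (algebraMap F0 F0⟮θ⟯ a) =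
        algebraMap (RatFunc M) (AlgebraicClosure (RatFunc M)) (φ a)) ∧
      (∃ θ' : AlgebraicClosure (RatFunc M), IsIntegral (RatFunc M) θ' ∧
        (minpoly (RatFunc M) θ').natDegree ≤ p.natDegree ∧
        ∀ x : F0⟮θ⟯, Ψ x ∈ (RatFunc M)⟮θ'⟯) ∧
      (∀ u, y u ∈ F0⟮θ⟯) ∧
      ∃ u, ∀ h : y u ∈ F0⟮θ⟯, ¬ IsAlgebraic M (Ψ ⟨y u, h⟩) := by
  classical
  set W := AlgebraicClosure (RatFunc M) with hW
  have hpθ : aeval θ p = 0 := by
    have h1 := minpoly.aeval F θ
    rw [← hp1, aeval_map_algebraMap] at h1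
    exact h1
  have hirr : Irreducible p := by
    refine hp.irreducible_of_irreducible_map (algebraMap F0 F) p ?_
    rw [hp1]
    exact minpoly.irreducible hint
  have hpm : p = minpoly F0 θ := minpoly.eq_of_irreducible_of_monic hirr hpθ hp
  have hint0 : IsIntegral F0 θ := ⟨p, hp, hpθ⟩
  let iA : Algebra F0 W := ((algebraMap (RatFunc M) W).comp φ).toAlgebra
  have hal : ∀ a : F0, algebraMap F0 W a = algebraMap (RatFunc M) W (φ a) := fun a => rfl
  let pb := adjoin.powerBasis hint0
  have hgen : pb.gen = AdjoinSimple.gen F0 θ := adjoin.powerBasis_gen hint0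
  have hmin : minpoly F0 pb.gen = p := by
    rw [hgen, minpoly_gen, ← hpm]
  have hyB : ∀ u, ∃ h : y u ∈ F0⟮θ⟯, (⟨y u, h⟩ : F0⟮θ⟯) = aeval pb.gen (B u) := by
    intro u
    have h1 : ((aeval pb.gen (B u) : F0⟮θ⟯) : E) = y u := by
      rw [← hB u, hgen]
      have h2 := aeval_algebraMap_apply E (AdjoinSimple.gen F0 θ) (B u)
      rw [AdjoinSimple.algebraMap_gen] at h2
      exact h2.symm
    have h2 : y u ∈ F0⟮θ⟯ := by
      rw [← h1]
      exact (aeval pb.gen (B u) : F0⟮θ⟯).2
    exact ⟨h2, Subtype.ext h1.symm⟩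
  choose hy hyB using hyB
  -- the homomorphisms
  let Ψ : ∀ θ' : W, aeval θ' p = 0 → (F0⟮θ⟯ →ₐ[F0] W) := fun θ' h =>
    pb.lift θ' (by rw [hmin]; exact h)
  have hΨg : ∀ θ' h, Ψ θ' h pb.gen = θ' := fun θ' h => pb.lift_gen θ' _
  have hΨy : ∀ θ' h u, Ψ θ' h ⟨y u, hy u⟩ = aeval θ' (B u) := by
    intro θ' h u
    rw [hyB u]
    have h1 := aeval_algHom_apply (Ψ θ' h) pb.gen (B u)
    rw [hΨg θ' h] at h1
    exact h1.symm
  have hθsum : ∀ θ' h, θ' = ∑ u, (w u : W) * Ψ θ' h ⟨y u, hy u⟩ := by
    intro θ' h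
    have h1 : pb.gen = ∑ u, (w u : F0⟮θ⟯) * ⟨y u, hy u⟩ := by
      apply Subtype.ext
      refine Eq.trans (b := θ) ?_ ?_
      · rw [hgen]
        exact AdjoinSimple.coe_gen F0 θ
      · refine hθ.trans ?_
        push_cast
        rfl
    have h2 := congrArg (Ψ θ' h) h1
    rw [hΨg θ' h, map_sum] at h2
    refine h2.trans (Finset.sum_congr rfl fun u _ => ?_)
    rw [map_mul, map_natCast]
  -- some root gives a point which is not constant
  obtain ⟨θ', h, u, hu⟩ : ∃ (θ' : W) (h : aeval θ' p = 0) (u : Fin m),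
      ¬ IsAlgebraic M (Ψ θ' h ⟨y u, hy u⟩) := by
    by_contra hcon
    push Not at hcon
    let A : IntermediateField M W := algebraicClosure M W
    have hA : ∀ θ' h u, Ψ θ' h ⟨y u, hy u⟩ ∈ A := fun θ' h u =>
      mem_algebraicClosure_iff.2 (hcon θ' h u)
    let q : W[X] := p.map (algebraMap F0 W)
    have hqm : q.Monic := hp.map _
    have hq0 : q ≠ 0 := hqm.ne_zero
    let s : Finset W := q.roots.toFinset
    have hroot : ∀ x ∈ s, aeval x p = 0 := by
      intro x hx
      have h1 := (mem_roots hq0).1 (Multiset.mem_toFinset.1 hx)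
      rw [IsRoot.def, eval_map] at h1
      exact h1
    have hcard : s.card = p.natDegree := by
      have h1 : q.roots.Nodup := nodup_roots (hirr.separable.map)
      rw [Multiset.toFinset_card_of_nodup h1, ← (IsAlgClosed.splits q).natDegree_eq_card_roots]
      exact natDegree_map _
    have hsA : ∀ x ∈ s, x ∈ A := by
      intro x hx
      rw [hθsum x (hroot x hx)]
      exact sum_mem fun u _ => mul_mem (_root_.natCast_mem A (w u)) (hA x (hroot x hx) u)
    have hdeg : p.degree = (s.card : WithBot ℕ) := by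
      rw [hcard, degree_eq_natDegree hp.ne_zero]
    rcases hnc with ⟨i, hi⟩ | ⟨u, i, hi⟩
    · obtain ⟨c, hc⟩ : ∃ c : M, φ (p.coeff i) = algebraMap M (RatFunc M) c := by
        refine const_ratFunc ?_
        by_cases hin : i = p.natDegree
        · rw [hin, coeff_natDegree, hp.leadingCoeff, map_one, map_one]
          exact isAlgebraic_one
        · have h1 := coeff_of_values A (q - X ^ p.natDegree) s hsA (by
            rw [← hcard]
            have h2 : q.degree = (s.card : WithBot ℕ) := by
              rw [← hdeg]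
              exact degree_map _ _
            have h3 : (X ^ s.card : W[X]).degree = (s.card : WithBot ℕ) := degree_X_pow _
            have h4 := degree_sub_lt_left (h2.trans h3.symm) hq0 (by
              rw [hqm.leadingCoeff, leadingCoeff_X_pow])
            rwa [h2] at h4) (fun x hx => by
              have h2 := hroot x hx
              rw [eval_sub, eval_pow, eval_X]
              have h3 : eval x q = 0 := by
                rw [eval_map]
                exact h2
              rw [h3, zero_sub]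
              exact neg_mem (pow_mem (hsA x hx) _)) i
          rw [coeff_sub, coeff_X_pow, if_neg hin, sub_zero, coeff_map] at h1
          exact mem_algebraicClosure_iff.1 h1
      exact hi c hc
    · obtain ⟨c, hc⟩ : ∃ c : M, φ ((B u).coeff i) = algebraMap M (RatFunc M) c := by
        refine const_ratFunc ?_
        have h1 := coeff_of_values A ((B u).map (algebraMap F0 W)) s hsA (by
          rw [degree_map, ← hdeg]
          exact hBd u) (fun x hx => by
            have h2 := hA x (hroot x hx) u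
            rw [hΨy x (hroot x hx)] at h2
            rw [eval_map]
            exact h2) i
        rw [coeff_map] at h1
        exact mem_algebraicClosure_iff.1 h1
      exact hi c hc
  have hθi : IsIntegral (RatFunc M) θ' := by
    refine ⟨p.map φ, hp.map φ, ?_⟩
    have h1 : eval₂ (algebraMap (RatFunc M) W) θ' (p.map φ) = aeval θ' p := by
      rw [eval₂_map]
      rfl
    exact h1.trans h
  refine ⟨(Ψ θ' h : F0⟮θ⟯ →+* W), fun a => ?_, ⟨θ', hθi, ?_, fun x => ?_⟩, hy, u, fun _ => hu⟩
  · exact (Ψ θ' h).commutes a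
  · have h1 : aeval θ' (p.map φ) = 0 := by
      have h2 : aeval θ' (p.map φ) = eval₂ (algebraMap (RatFunc M) W) θ' (p.map φ) := rfl
      rw [h2, eval₂_map]
      exact h
    have h2 := natDegree_le_natDegree (minpoly.min (RatFunc M) θ' (hp.map φ) h1)
    rwa [natDegree_map] at h2
  · obtain ⟨f, hf⟩ : ∃ f : F0[X], x = aeval pb.gen f := by
      obtain ⟨f, hf⟩ := pb.exists_eq_aeval' x
      exact ⟨f, hf⟩
    have h1 : Ψ θ' h x = aeval θ' f := by
      rw [hf]
      have h2 := aeval_algHom_apply (Ψ θ' h) pb.gen f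
      rw [hΨg θ' h] at h2
      exact h2.symm
    change Ψ θ' h x ∈ _
    rw [h1]
    have h3 : aeval θ' f = aeval θ' (f.map φ) := by
      have h4 : aeval θ' (f.map φ) = eval₂ (algebraMap (RatFunc M) W) θ' (f.map φ) := rfl
      rw [h4, eval₂_map]
      rfl
    rw [h3]
    exact algebra_adjoin_le_adjoin (RatFunc M) {θ'} (aeval_mem_adjoin_singleton _ _)

end Pool.Agent.Q1.BD
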