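import Pool.Agent.Q1.BD.LosB
import Pool.Agent.Q1.BD.Arith
import Pool.Agent.Q1.SL.UnifR

/-!
Families of points of bounded degree: bounds which are uniform in the variety.
-/

set_option autoImplicit false

namespace Pool.Agent.Q1.BD

open Filter Polynomial Pool.Agent.Q1.SL Pool.Agent.Y377.IL Pool.Agent.Y377.IR
  Pool.Agent.Y377.ST IntermediateField

/-- The points outside of `G = 0` with the homogeneous coordinates `Num (x h) α`, `α` a root of
`Pol (x h)`. -/
def rootPtsC {H : Type} {n d : ℕ} (G : MvPolynomial (Fin (n + 1)) ℂ) (x : H → Jx n d → ℂ) :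
    Set (Projectivization ℂ (Fin (n + 1) → ℂ)) :=
  {P | ∃ (h : H) (α : ℂ) (h0 : Num (x h) α ≠ 0), (Pol (x h)).eval α = 0 ∧
    MvPolynomial.eval (Num (x h) α) G ≠ 0 ∧ P = Projectivization.mk ℂ (Num (x h) α) h0}

/-- the coefficients in the closure of the field of rational functions -/
noncomputable def clo {k ι : Type} [Field k] (p : ι → k[X]) : ι → AlgebraicClosure (RatFunc k) :=
  fun q => algebraMap k[X] (AlgebraicClosure (RatFunc k)) (p q)

/-- All curves of gonality at most `d` and degree at most `δ` on the variety of `S` lie in `G = 0`: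
for `d' ≤ d` let `p` be the coefficients of a monic polynomial `Pol p` of degree `d'` over `k[t]` and
of `n + 1` polynomials of degree less than `d'`, all of them of degree at most `δ` in `t`, such that
the points `Num p α` over the algebraic closure of `k(t)` are zeros of `S` for all roots `α` of
`Pol p`; then all these points are constant or zeros of `G`. -/
def GonIn {k : Type} [Field k] {n : ℕ} (S : Set (MvPolynomial (Fin (n + 1)) k))
    (G : MvPolynomial (Fin (n + 1)) k) (d δ : ℕ) : Prop :=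
  ∀ d' ≤ d, ∀ p : Jx n d' → k[X], (∀ q, (p q).natDegree ≤ δ) →
    (∀ α, (Pol (clo p)).eval α = 0 → ∀ F ∈ S, MvPolynomial.aeval (Num (clo p) α) F = 0) →
    ∀ α, (Pol (clo p)).eval α = 0 →
      (∃ u v, Num (clo p) α v ≠ 0 ∧
        ∀ c : k, Num (clo p) α u ≠
          algebraMap k (AlgebraicClosure (RatFunc k)) c * Num (clo p) α v) →
      MvPolynomial.aeval (Num (clo p) α) G = 0

theorem clo_inj {k : Type} [Field k] :
    Function.Injective (algebraMap k[X] (AlgebraicClosure (RatFunc k))) := by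
  rw [IsScalarTower.algebraMap_eq k[X] (RatFunc k) (AlgebraicClosure (RatFunc k)),
    RingHom.coe_comp]
  exact (algebraMap (RatFunc k) _).injective.comp (IsFractionRing.injective k[X] (RatFunc k))

/-- a curve which contradicts `GonIn` -/
theorem GonIn.false {k : Type} [Field k] {n : ℕ} {S : Set (MvPolynomial (Fin (n + 1)) k)}
    {G : MvPolynomial (Fin (n + 1)) k} {d δ d' : ℕ} (h : GonIn S G d δ) (hd : d' ≤ d)
    (hd0 : 0 < d') {p : Jx n d' → k[X]} (hp : ∀ q, (p q).natDegree ≤ δ)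
    (hS : ∀ F ∈ S, Pol p ∣ MvPolynomial.aeval (NumP p) F) {u v : Fin (n + 1)}
    (hG : GonId p G u v) : False := by
  obtain ⟨α, hα⟩ : ∃ α, (Pol (clo p)).eval α = 0 := by
    have h1 : (Pol (clo p)).degree ≠ 0 := by
      rw [degree_eq_natDegree (pol_monic _).ne_zero, pol_degree]
      exact_mod_cast hd0.ne'
    obtain ⟨α, hα⟩ := IsAlgClosed.exists_root _ h1
    exact ⟨α, hα⟩
  obtain ⟨h1, h2, h3⟩ := hG.root clo_inj hα
  refine h1 (h d' hd p hp (fun β hβ F hF => ?_) α hα ⟨u, v, h2, h3⟩)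
  obtain ⟨q, hq⟩ := hS F hF
  have h4 := fp_aeval (B := AlgebraicClosure (RatFunc k)) p β F
  have h5 : aeval β (Pol p) = 0 := by
    rw [aeval_def, ← eval_map, pol_map]
    exact hβ
  rw [hq, map_mul, h5, zero_mul] at h4
  exact h4.symm

/-- roots in the limit -/
theorem root_lift {θ : (ℕ → ℂ) →+* ℂ} {n d : ℕ} (X : ℕ → Jx n d → ℂ) {α : ℂ}
    (hα : (Pol fun q => θ fun i => X i q).eval α = 0) :
    ∃ b : ℕ → ℂ, α = θ b ∧ ∀ i, (Pol (X i)).eval (b i) = 0 := by
  choose β hβ using fun i => exists_roots (X i)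
  have h1 : Pol (fun q i => X i q) =
      ∏ j, (Polynomial.X - C (fun i => β i j) : (ℕ → ℂ)[X]) := by
    ext m i
    have h2 := congrArg (fun p => p.coeff m) (hβ i)
    have h3 := pol_map (Pi.evalRingHom (fun _ : ℕ => ℂ) i) (fun q i => X i q)
    have h4 : (Pol (fun q i => X i q)).coeff m i = (Pol (X i)).coeff m := by
      have h5 := congrArg (fun p => p.coeff m) h3
      simp only [coeff_map] at h5
      exact h5
    have h6 : (∏ j, (Polynomial.X - C (fun i => β i j) : (ℕ → ℂ)[X])).coeff m i =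
        (∏ j, (Polynomial.X - C (β i j))).coeff m := by
      have h7 : (∏ j, (Polynomial.X - C (fun i => β i j) : (ℕ → ℂ)[X])).map
          (Pi.evalRingHom (fun _ : ℕ => ℂ) i) = ∏ j, (Polynomial.X - C (β i j)) := by
        rw [Polynomial.map_prod]
        refine Finset.prod_congr rfl fun j _ => ?_
        rw [Polynomial.map_sub, map_X, map_C]
        rfl
      have h8 := congrArg (fun p => p.coeff m) h7
      simp only [coeff_map] at h8
      exact h8
    rw [h4, h6]
    exact h2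
  have h2 := pol_map θ (fun q i => X i q)
  rw [h1] at h2
  have h3 : (Pol (fun q => θ fun i => X i q)).eval α = ∏ j, (α - θ fun i => β i j) := by
    rw [← h2, Polynomial.map_prod, eval_prod]
    refine Finset.prod_congr rfl fun j _ => ?_
    rw [Polynomial.map_sub, map_X, map_C, eval_sub, eval_X, eval_C]
  rw [h3] at hα
  obtain ⟨j, -, hj⟩ := Finset.prod_eq_zero_iff.1 hα
  refine ⟨fun i => β i j, sub_eq_zero.1 hj, fun i => ?_⟩
  rw [hβ i, eval_prod]
  exact Finset.prod_eq_zero (Finset.mem_univ j) (by simp)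

/-- different points off `G = 0` -/
theorem exists_seqG {n d : ℕ} {G : MvPolynomial (Fin (n + 1)) ℂ} {H : Type}
    {x : H → Jx n d → ℂ} {B : ℕ} (hB : ¬ (rootPtsC G x).encard ≤ (B : ℕ∞)) :
    ∃ (hs : ℕ → H) (as : ℕ → ℂ), (∀ i, (Pol (x (hs i))).eval (as i) = 0) ∧
      (∀ i, Num (x (hs i)) (as i) ≠ 0) ∧
      (∀ i, MvPolynomial.eval (Num (x (hs i)) (as i)) G ≠ 0) ∧
      ∀ i j, i ≤ B → j ≤ B → i ≠ j → ∃ u v,
        Num (x (hs i)) (as i) u * Num (x (hs j)) (as j) v ≠
          Num (x (hs i)) (as i) v * Num (x (hs j)) (as j) u := by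
  classical
  have h1 : ((B + 1 : ℕ) : ℕ∞) ≤ (rootPtsC G x).encard := by
    rw [Nat.cast_add, Nat.cast_one]
    exact Order.add_one_le_of_lt (not_le.1 hB)
  obtain ⟨t, hts, htc⟩ := Set.exists_subset_encard_eq h1
  have htf : t.Finite := Set.finite_of_encard_eq_coe htc
  have hcard : htf.toFinset.card = B + 1 := by
    have h2 := htf.encard_eq_coe_toFinset_card
    rw [htc] at h2
    exact_mod_cast h2.symm
  let P : Fin (B + 1) ≃ htf.toFinset := (Finset.equivFinOfCardEq hcard).symm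
  have hP : ∀ i : Fin (B + 1), ((P i : htf.toFinset) : Projectivization ℂ (Fin (n + 1) → ℂ)) ∈
      rootPtsC G x := fun i => hts (htf.mem_toFinset.1 (P i).2)
  choose hs0 as0 h0 hr0 hG0 hPe using hP
  let c : ℕ → Fin (B + 1) := fun i => if hi : i < B + 1 then ⟨i, hi⟩ else 0
  refine ⟨fun i => hs0 (c i), fun i => as0 (c i), fun i => hr0 (c i), fun i => h0 (c i),
    fun i => hG0 (c i), ?_⟩
  intro i j hi hj hij
  have hci : c i = ⟨i, by omega⟩ := dif_pos (by omega)
  have hcj : c j = ⟨j, by omega⟩ := dif_pos (by omega)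
  have hcij : c i ≠ c j := by
    rw [hci, hcj]
    intro h2
    exact hij (Fin.mk.inj_iff.1 h2)
  by_contra hcon
  push Not at hcon
  apply hcij
  apply P.injective
  apply Subtype.ext
  rw [hPe (c i), hPe (c j), Projectivization.mk_eq_mk_iff']
  obtain ⟨v0, hv0⟩ := Function.ne_iff.1 (h0 (c j))
  have hv0' : Num (x (hs0 (c j))) (as0 (c j)) v0 ≠ 0 := hv0
  refine ⟨Num (x (hs0 (c i))) (as0 (c i)) v0 / Num (x (hs0 (c j))) (as0 (c j)) v0, ?_⟩
  funext u
  rw [Pi.smul_apply, smul_eq_mul]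
  have h3 := hcon u v0
  rw [div_mul_eq_mul_div, ← h3, mul_div_assoc, div_self hv0', mul_one]

/-- from a point over `M(t)(θ)` to curves over `ℂ` -/
theorem gon_lim {θ : (ℕ → ℂ) →+* ℂ} (hs : Function.Surjective θ)
    (hk : ∀ c : ℕ → ℂ, θ c = 0 ↔ ∀ᶠ i in (hyperfilter ℕ : Filter ℕ), c i = 0) {n d D : ℕ}
    {E : Type} [Field E] [Algebra ℂ E] {y : Fin (n + 1) → E} (hgon : GonPt d E y)
    {v : Fin (n + 1)} (hyv : y v = 1)
    {S : ℕ → Set (MvPolynomial (Fin (n + 1)) ℂ)}
    (hS : ∀ i, ∀ F ∈ S i, ∃ e, e ≤ D ∧ F.IsHomogeneous e)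
    {G : ℕ → MvPolynomial (Fin (n + 1)) ℂ} (hG : ∀ i, ∃ e, e ≤ D ∧ (G i).IsHomogeneous e)
    (hy0 : ∀ F : ℕ → MvPolynomial (Fin (n + 1)) ℂ,
      (∀ᶠ i in (hyperfilter ℕ : Filter ℕ), F i ∈ S i) →
        MvPolynomial.aeval y (limT θ (TD (n + 1) D) F) = 0)
    (hyG : MvPolynomial.aeval y (limT θ (TD (n + 1) D) G) ≠ 0)
    (hgi : ∀ i, GonIn (S i) (G i) d i) : False := by
  classical
  obtain ⟨⟨M, l1, l2, y', θ', hθi, hθd, hyθ, hrel, u, hu⟩⟩ := hgon
  have hyv' : y' v = 1 := by
    have h1 := (hrel (MvPolynomial.X v - 1)).2 (by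
      rw [map_sub, MvPolynomial.aeval_X, map_one, hyv, sub_self])
    rw [map_sub, MvPolynomial.aeval_X, map_one] at h1
    exact sub_eq_zero.1 h1
  obtain ⟨d', hd', p, η, c, hc, hint, hη, hnum⟩ := exists_model hθd hyθ
  have hd0 : 0 < d' := by
    have h1 := minpoly.natDegree_pos hint
    rw [← hη, pol_degree] at h1
    exact h1
  have hnum' : Num (fun q => algebraMap M[X] (AlgebraicClosure (RatFunc M)) (p q)) η =
      fun u => c * y' u := funext hnum
  have hform : ∀ (F : MvPolynomial (Fin (n + 1)) ℂ) (e : ℕ), F.IsHomogeneous e →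
      MvPolynomial.aeval (Num (fun q => algebraMap M[X] (AlgebraicClosure (RatFunc M)) (p q)) η) F =
        c ^ e * MvPolynomial.aeval y' F := by
    intro F e hF
    rw [hnum']
    exact Pool.Agent.Y837.ST.aeval_scale c y' hF
  obtain ⟨e', he', hhe⟩ := exists_deg (F := G) (D := D) (Eventually.of_forall hG)
  have hGe := limT_homog (T := TD (n + 1) D) hk hhe
  obtain ⟨p', hp'd, hp'F, hp'G⟩ := spec_gon (k := ℂ) p hint hη
    (G := limT θ (TD (n + 1) D) G) (u := u) (v := v) (by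
      rw [hform _ e' hGe]
      exact mul_ne_zero (pow_ne_zero _ hc) fun h1 => hyG ((hrel _).1 h1)) (by
      rw [hnum']
      show c * y' v ≠ 0
      rw [hyv', mul_one]
      exact hc) (by
      rw [hnum']
      show ¬ IsAlgebraic M (c * y' u / (c * y' v))
      rw [hyv', mul_one, mul_div_cancel_left₀ _ hc]
      exact hu)
  have h1 := los_gon hs hk p' (T := TD (n + 1) D) (S := S) (fun i F hF => by
      obtain ⟨e, he, hFe⟩ := hS i F hF
      exact support_TD (hFe.totalDegree_le.trans he)) (fun F hF => by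
      apply hp'F
      obtain ⟨e, he, hFe⟩ := exists_deg (D := D) (by
        filter_upwards [hF] with i hi
        exact hS i _ hi)
      rw [hform _ e (limT_homog hk hFe), (hrel _).2 (hy0 F hF), mul_zero]) (G := G)
    (Eventually.of_forall fun i => by
      obtain ⟨e, he, hFe⟩ := hG i
      exact support_TD (hFe.totalDegree_le.trans he)) hp'G
  let δ0 := ∑ q, (p' q).natDegree
  have hge : ∀ᶠ i in (hyperfilter ℕ : Filter ℕ), δ0 ≤ i := by
    have h1 : ∀ᶠ i : ℕ in cofinite, δ0 ≤ i := by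
      rw [Nat.cofinite_eq_atTop]
      exact eventually_ge_atTop δ0
    exact h1.filter_mono hyperfilter_le_cofinite
  obtain ⟨i, ⟨pi, hpi1, hpi2, hpi3⟩, hi⟩ := (h1.and hge).exists
  refine (hgi i).false hd' hd0 (fun q => ?_) hpi2 hpi3
  refine (hpi1 q).trans (le_trans ?_ hi)
  exact Finset.single_le_sum (f := fun q => (p' q).natDegree) (fun _ _ => Nat.zero_le _)
    (Finset.mem_univ q)

/-- **Bounds which are uniform in the variety.** -/
theorem gon_uniform (n D d s r e : ℕ) : ∃ δ B : ℕ,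
    ∀ (S : Set (MvPolynomial (Fin (n + 1)) ℂ)) (G : MvPolynomial (Fin (n + 1)) ℂ),
      (∀ F ∈ S, ∃ e, e ≤ D ∧ F.IsHomogeneous e) → (∃ e, e ≤ D ∧ G.IsHomogeneous e) →
      GonIn S G d δ → ∀ (H : Type) [Group H] (x : H → Jx n d → ℂ), IterFam s r e x →
        (∀ h α, (Pol (x h)).eval α = 0 → ∀ F ∈ S, MvPolynomial.eval (Num (x h) α) F = 0) →
        (rootPtsC G x).encard ≤ (B : ℕ∞) := by
  classical
  by_contra hcon
  have hC : ∀ i : ℕ, ∃ (S : Set (MvPolynomial (Fin (n + 1)) ℂ))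
      (G : MvPolynomial (Fin (n + 1)) ℂ) (H : Type) (_ : Group H) (x : H → Jx n d → ℂ),
      (∀ F ∈ S, ∃ e, e ≤ D ∧ F.IsHomogeneous e) ∧ (∃ e, e ≤ D ∧ G.IsHomogeneous e) ∧
      GonIn S G d i ∧ IterFam s r e x ∧
      (∀ h α, (Pol (x h)).eval α = 0 → ∀ F ∈ S, MvPolynomial.eval (Num (x h) α) F = 0) ∧
      ∃ (hs : ℕ → H) (as : ℕ → ℂ), (∀ i, (Pol (x (hs i))).eval (as i) = 0) ∧
        (∀ i, Num (x (hs i)) (as i) ≠ 0) ∧
        (∀ i, MvPolynomial.eval (Num (x (hs i)) (as i)) G ≠ 0) ∧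
        ∀ i' j, i' ≤ i → j ≤ i → i' ≠ j → ∃ u v,
          Num (x (hs i')) (as i') u * Num (x (hs j)) (as j) v ≠
            Num (x (hs i')) (as i') v * Num (x (hs j)) (as j) u := by
    intro i
    by_contra h1
    refine hcon ⟨i, i, ?_⟩
    intro S G h2 h3 h4 H _ x h5 h6
    by_contra h7
    exact h1 ⟨S, G, H, _, x, h2, h3, h4, h5, h6, exists_seqG h7⟩
  choose S G Hs iH x hS hG hgi hx hF hs as hrt h0 hoff hnp using hC
  obtain ⟨θ, hsur, hk⟩ := exists_theta
  have hΘ : ∀ f : ℕ → ℂ, (∃ n, ∀ i, n ≤ i → f i = 0) → θ f = 0 := by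
    rintro f ⟨N, hN⟩
    rw [hk]
    have h1 : ∀ᶠ i : ℕ in cofinite, N ≤ i := by
      rw [Nat.cofinite_eq_atTop]
      exact eventually_ge_atTop N
    filter_upwards [h1.filter_mono hyperfilter_le_cofinite] with i hi
    exact hN i hi
  let zs : (∀ i, Hs i) → Fin (Fintype.card (Jx n d)) → ℂ := fun h j =>
    θ fun i => x i (h i) ((Fintype.equivFin _).symm j)
  have hzs : IterVec s r e zs := (IterVec.prod fun i => (hx i).vec).map θ
  let xs : (∀ i, Hs i) → Jx n d → ℂ := fun h q => θ fun i => x i (h i) q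
  have hnumS : ∀ (h : ∀ i, Hs i) (b : ℕ → ℂ) u, Num (xs h) (θ b) u =
      θ fun i => Num (x i (h i)) (b i) u := by
    intro h b u
    have h1 := num_map θ (fun q i => x i (h i) q) b u
    refine h1.trans ?_
    congr 1
    funext i
    exact (num_map (Pi.evalRingHom (fun _ : ℕ => ℂ) i) (fun q i => x i (h i) q) b u).symm
  have hpolS : ∀ (h : ∀ i, Hs i) (b : ℕ → ℂ), (Pol (xs h)).eval (θ b) =
      θ fun i => (Pol (x i (h i))).eval (b i) := by
    intro h b
    have h1 := eval_pol_map θ (fun q i => x i (h i) q) b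
    refine h1.trans ?_
    congr 1
    funext i
    exact (eval_pol_map (Pi.evalRingHom (fun _ : ℕ => ℂ) i) (fun q i => x i (h i) q) b).symm
  let a : ℕ → ∀ i, Hs i := fun m i => hs i m
  let al : ℕ → ℂ := fun m => θ fun i => as i m
  have hevS : ∀ (h : ∀ i, Hs i) (b : ℕ → ℂ) (T : Finset (Fin (n + 1) →₀ ℕ))
      (F : ℕ → MvPolynomial (Fin (n + 1)) ℂ),
      (∀ᶠ i in (hyperfilter ℕ : Filter ℕ), (F i).support ⊆ T) →
      MvPolynomial.eval (Num (xs h) (θ b)) (limT θ T F) =
        θ fun i => MvPolynomial.eval (Num (x i (h i)) (b i)) (F i) := by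
    intro h b T F hFT
    have h1 : Num (xs h) (θ b) = fun u => θ fun i => Num (x i (h i)) (b i) u :=
      funext fun u => hnumS h b u
    rw [h1]
    exact eval_limT hk hFT fun i => Num (x i (h i)) (b i)
  have hrootA : ∀ m, (Pol (xs (a m))).eval (al m) = 0 := by
    intro m
    rw [hpolS]
    have h2 : (fun i => (Pol (x i (a m i))).eval (as i m)) = 0 := funext fun i => hrt i m
    rw [h2, map_zero]
  have hxne : ∀ m, Num (xs (a m)) (al m) ≠ 0 := fun m => by
    obtain ⟨l, hl⟩ := theta_ne hΘ (fun l i => Num (x i (hs i m)) (as i m) l) 0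
      fun i _ => Function.ne_iff.1 (h0 i m)
    refine Function.ne_iff.2 ⟨l, ?_⟩
    rw [hnumS]
    exact hl
  have hcross : ∀ m m', m ≠ m' → ∃ u v,
      Num (xs (a m)) (al m) u * Num (xs (a m')) (al m') v ≠
        Num (xs (a m)) (al m) v * Num (xs (a m')) (al m') u := by
    intro m m' hmm
    obtain ⟨⟨u, v⟩, h1⟩ := theta_ne hΘ (fun (p : Fin (n + 1) × Fin (n + 1)) i =>
      Num (x i (hs i m)) (as i m) p.1 * Num (x i (hs i m')) (as i m') p.2 -
        Num (x i (hs i m)) (as i m) p.2 * Num (x i (hs i m')) (as i m') p.1) (max m m')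
      (fun i hi => by
        obtain ⟨u, v, h1⟩ := hnp i m m' ((le_max_left _ _).trans hi)
          ((le_max_right _ _).trans hi) hmm
        exact ⟨(u, v), sub_ne_zero.2 h1⟩)
    refine ⟨u, v, fun h2 => h1 ?_⟩
    rw [hnumS, hnumS, hnumS, hnumS] at h2
    change θ (fun i => Num (x i (hs i m)) (as i m) u * Num (x i (hs i m')) (as i m') v -
        Num (x i (hs i m)) (as i m) v * Num (x i (hs i m')) (as i m') u) = 0
    have h3 : (fun i => Num (x i (hs i m)) (as i m) u * Num (x i (hs i m')) (as i m') v -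
        Num (x i (hs i m)) (as i m) v * Num (x i (hs i m')) (as i m') u) =
        (fun i => Num (x i (hs i m)) (as i m) u) * (fun i => Num (x i (hs i m')) (as i m') v) -
          (fun i => Num (x i (hs i m)) (as i m) v) *
            (fun i => Num (x i (hs i m')) (as i m') u) := rfl
    rw [h3, map_sub, map_mul, map_mul]
    exact sub_eq_zero.2 h2
  -- the coset
  obtain ⟨R, hR, hmem⟩ := hzs.tow
  obtain ⟨Nn, hn, hfi, hres⟩ := exists_res fhyp hR
  have hq : Finite ((∀ i, Hs i) ⧸ Nn) := inferInstance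
  obtain ⟨y0, hy0⟩ := Finite.exists_infinite_fiber
    fun m : ℕ => (QuotientGroup.mk (a m) : (∀ i, Hs i) ⧸ Nn)
  let T : Set ℕ := (fun m : ℕ => (QuotientGroup.mk (a m) : (∀ i, Hs i) ⧸ Nn)) ⁻¹' {y0}
  have hT : T.Infinite := Set.infinite_coe_iff.1 hy0
  obtain ⟨m0, hm0⟩ := hT.nonempty
  have hco : ∀ m ∈ T, a m * (a m0)⁻¹ ∈ Nn := by
    intro m hm
    have h1 : (QuotientGroup.mk (a m0) : (∀ i, Hs i) ⧸ Nn) = QuotientGroup.mk (a m) :=
      (Set.mem_singleton_iff.1 hm0).trans (Set.mem_singleton_iff.1 hm).symm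
    exact hn.mem_comm (QuotientGroup.eq.1 h1)
  obtain ⟨K, i1, i2, Γ, ρ, hρ⟩ := hres (a m0)
  have hEng : Eng ρ.range := fun t ht hne => coset_alt hyp ghyp hρ t ht hne
  have hmemx : ∀ q : Jx n d, (fun h => xs h q) ∈ R := by
    intro q
    have h1 := hmem (Fintype.equivFin _ q)
    have h2 : (fun h => zs h (Fintype.equivFin _ q)) = fun h => xs h q := by
      funext h
      change θ (fun i => x i (h i) ((Fintype.equivFin _).symm (Fintype.equivFin _ q))) = _
      rw [Equiv.symm_apply_apply]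
    rwa [h2] at h1
  obtain ⟨e', he', hhe⟩ := exists_deg (F := G) (D := D) (Eventually.of_forall hG)
  have hGe := limT_homog (T := TD (n + 1) D) hk hhe
  have hGsup : ∀ᶠ i in (hyperfilter ℕ : Filter ℕ), (G i).support ⊆ TD (n + 1) D :=
    Eventually.of_forall fun i => by
      obtain ⟨e, he, hFe⟩ := hG i
      exact support_TD (hFe.totalDegree_le.trans he)
  obtain ⟨E, j1, j2, y, v, hyv, hgon, hFq, hGq⟩ :=
    coset_pt (x := xs) hmemx hρ hEng a al T hT hco (fun m _ => hrootA m)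
      (fun m _ => hxne m) (fun m _ m' _ hmm => hcross m m' hmm)
      {limT θ (TD (n + 1) D) G} (by
        intro G' hG' m _
        rw [Set.mem_singleton_iff.1 hG', hevS _ _ _ _ hGsup]
        intro h1
        rw [hk] at h1
        obtain ⟨i, hi⟩ := h1.exists
        exact hoff i m hi)
  refine gon_lim hsur hk hgon hyv hS hG (fun F hFS => ?_)
    (hGq _ (Set.mem_singleton _) e' hGe) hgi
  obtain ⟨e1, he1, hFe⟩ := exists_deg (D := D) (by
    filter_upwards [hFS] with i hi
    exact hS i _ hi)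
  refine hFq _ e1 (limT_homog hk hFe) fun h α _ hα => ?_
  obtain ⟨b, rfl, hb⟩ := root_lift (fun i => x i (h i)) hα
  rw [hevS _ _ _ _ (by
    filter_upwards [hFe] with i hi
    exact support_TD (hi.totalDegree_le.trans he1)), hk]
  filter_upwards [hFS] with i hi
  exact hF i _ _ (hb i) _ hi

end Pool.Agent.Q1.BD
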